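import Pool.Agent.Mut.Induct

/-!
# The augmented process
-/

open MeasureTheory
open scoped ENNReal NNReal
open Pool.Agent.Rand

namespace Pool.Agent.Mut

variable {U : List Bool → List Bool →. ℕ} {p : ℕ → List Bool}

open Classical in
/-- scale of the gap at stage `z` -/
noncomputable def mI (p : ℕ → List Bool) (z : ℕ) : ℕ :=
  if h : ∃ e : ℕ, (1 / 2 : ℝ≥0) ^ e ≤ gap p z / 2 ∧ gap p z / 4 < (1 / 2) ^ e then h.choose else 0

lemma mI_spec (hU : IsPrefixMachine U) (hp : IsEnumeration U p) (z : ℕ) :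
    (1 / 2 : ℝ≥0) ^ mI p z ≤ gap p z / 2 ∧ gap p z / 4 < (1 / 2) ^ mI p z := by
  have h := exists_scale (gap_pos hU hp z) ((tsub_le_self).trans (Om_le_one hU hp))
  unfold mI
  rw [dif_pos h]
  exact h.choose_spec

/-- `n` is the least stage at which the partial sum is at least `om z + 2^{-m}` -/
def isThr (p : ℕ → List Bool) (n z m : ℕ) : Prop :=
  om p z + (1 / 2) ^ m ≤ om p n ∧ ¬ (0 < n ∧ om p z + (1 / 2) ^ m ≤ om p (n - 1))

lemma isThr_unique {n n' z m : ℕ} (h : isThr p n z m) (h' : isThr p n' z m) : n = n' := by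
  have key : ∀ n n', n < n' → isThr p n z m → isThr p n' z m → False := by
    intro n n' hlt h1 h2
    exact h2.2 ⟨by omega, h1.1.trans (om_strictMono.monotone (by omega))⟩
  rcases lt_trichotomy n n' with hlt | hlt | hlt
  · exact (key n n' hlt h h').elim
  · exact hlt
  · exact (key n' n hlt h' h).elim

/-- the threshold stage determined by `z` -/
noncomputable def nI (p : ℕ → List Bool) (z : ℕ) : ℕ :=
  sInf {n | om p z + (1 / 2) ^ mI p z ≤ om p n}

lemma thr_lt (hU : IsPrefixMachine U) (hp : IsEnumeration U p) (z : ℕ) :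
    om p z + (1 / 2) ^ mI p z < Om p := by
  rw [← om_add_gap hU hp z]
  have h1 := (mI_spec hU hp z).1
  have h2 : gap p z / 2 < gap p z := NNReal.half_lt_self (gap_pos hU hp z).ne'
  have h3 := lt_of_le_of_lt h1 h2
  gcongr

lemma nI_nonempty (hU : IsPrefixMachine U) (hp : IsEnumeration U p) (z : ℕ) :
    {n | om p z + (1 / 2) ^ mI p z ≤ om p n}.Nonempty := by
  obtain ⟨N, hN⟩ := ((tendsto_om hU hp).eventually (lt_mem_nhds (thr_lt hU hp z))).exists
  exact ⟨N, le_of_lt hN⟩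

lemma nI_le (hU : IsPrefixMachine U) (hp : IsEnumeration U p) (z : ℕ) :
    om p z + (1 / 2) ^ mI p z ≤ om p (nI p z) := Nat.sInf_mem (nI_nonempty hU hp z)

lemma nI_lt {z n : ℕ} (h : n < nI p z) : om p n < om p z + (1 / 2) ^ mI p z := by
  have := Nat.notMem_of_lt_sInf h
  simpa using this

lemma isThr_nI (hU : IsPrefixMachine U) (hp : IsEnumeration U p) (z : ℕ) :
    isThr p (nI p z) z (mI p z) := by
  refine ⟨nI_le hU hp z, ?_⟩
  rintro ⟨h1, h2⟩
  exact absurd h2 (not_le.2 (nI_lt (by omega)))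

lemma lt_nI (hU : IsPrefixMachine U) (hp : IsEnumeration U p) (z : ℕ) : z < nI p z := by
  by_contra hcon
  push Not at hcon
  have h1 := nI_le hU hp z
  have h2 : om p (nI p z) ≤ om p z := om_strictMono.monotone hcon
  have h3 : om p z < om p z + (1 / 2) ^ mI p z := lt_add_of_pos_right _ (by positivity)
  exact absurd (h3.trans_le (h1.trans h2)) (lt_irrefl _)

/-- distance from the threshold to the halting probability -/
noncomputable def dl (p : ℕ → List Bool) (z : ℕ) : ℝ≥0 := Om p - (om p z + (1 / 2) ^ mI p z)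

lemma dl_add (hU : IsPrefixMachine U) (hp : IsEnumeration U p) (z : ℕ) :
    dl p z + (1 / 2) ^ mI p z = gap p z := by
  have h1 := tsub_add_cancel_of_le (thr_lt hU hp z).le
  have h2 := om_add_gap hU hp z
  unfold dl
  have h3 : (Om p - (om p z + (1 / 2) ^ mI p z) + (1 / 2) ^ mI p z) + om p z =
      gap p z + om p z := by
    rw [add_assoc, add_comm ((1 / 2) ^ mI p z) (om p z), h1, ← h2, add_comm]
  exact add_right_cancel h3

lemma half_pow_le_dl (hU : IsPrefixMachine U) (hp : IsEnumeration U p) (z : ℕ) :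
    (1 / 2) ^ mI p z ≤ dl p z := by
  have h1 := dl_add hU hp z
  have h2 := (mI_spec hU hp z).1
  rw [le_div_iff₀ (by norm_num), mul_two, ← h1] at h2
  exact le_of_add_le_add_right h2

lemma dl_le (hU : IsPrefixMachine U) (hp : IsEnumeration U p) (z : ℕ) :
    4 * dl p z ≤ 3 * gap p z := by
  have h1 := dl_add hU hp z
  have h2 := (mI_spec hU hp z).2
  rw [div_lt_iff₀ (by norm_num)] at h2
  have h3 : 4 * dl p z + gap p z ≤ 3 * gap p z + gap p z := by
    calc 4 * dl p z + gap p z ≤ 4 * dl p z + (1 / 2) ^ mI p z * 4 := by gcongr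
      _ = 4 * (dl p z + (1 / 2) ^ mI p z) := by ring
      _ = _ := by rw [h1]; ring
  exact le_of_add_le_add_right h3

lemma dl_lt_gap (hU : IsPrefixMachine U) (hp : IsEnumeration U p) {z n : ℕ} (h : n < nI p z) :
    dl p z < gap p n := by
  have h1 := nI_lt h
  unfold dl gap
  have h2 := om_lt_Om hU hp n
  have h3 := thr_lt hU hp z
  rw [← NNReal.coe_lt_coe, NNReal.coe_sub h2.le, NNReal.coe_sub h3.le]
  have h4 : (om p n : ℝ) < ((om p z + (1 / 2) ^ mI p z : ℝ≥0) : ℝ) := by exact_mod_cast h1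
  linarith

lemma gap_le_dl (hU : IsPrefixMachine U) (hp : IsEnumeration U p) {z n : ℕ} (h : nI p z ≤ n) :
    gap p n ≤ dl p z := by
  unfold dl gap
  exact tsub_le_tsub_left ((nI_le hU hp z).trans (om_strictMono.monotone h)) _

lemma gap_nI_lt (hU : IsPrefixMachine U) (hp : IsEnumeration U p) (z : ℕ) :
    gap p (nI p z) * 2 ^ mI p z < 4 := by
  have h1 := gap_le_dl hU hp (le_refl (nI p z))
  have h2 := dl_add hU hp z
  have h3 := (mI_spec hU hp z).2
  rw [div_lt_iff₀ (by norm_num)] at h3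
  calc gap p (nI p z) * 2 ^ mI p z ≤ gap p z * 2 ^ mI p z := by
        gcongr
        exact h1.trans (by rw [← h2]; exact le_self_add)
    _ < ((1 / 2) ^ mI p z * 4) * 2 ^ mI p z := by gcongr
    _ = ((1 / 2) ^ mI p z * 2 ^ mI p z) * 4 := by ring
    _ = 4 := by rw [half_mul_two_pow, one_mul]

lemma mI_mono (hU : IsPrefixMachine U) (hp : IsEnumeration U p) {z z' : ℕ} (h : z ≤ z') :
    mI p z ≤ mI p z' := by
  by_contra hcon
  push Not at hcon
  have h1 := (mI_spec hU hp z).2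
  have h2 := (mI_spec hU hp z').1
  rw [div_lt_iff₀ (by norm_num)] at h1
  rw [le_div_iff₀ (by norm_num)] at h2
  have h3 : gap p z' ≤ gap p z := gap_anti h
  have h4 : (1 / 2 : ℝ≥0) ^ mI p z ≤ (1 / 2) ^ (mI p z' + 1) :=
    pow_le_pow_right_of_le_one' (by rw [div_le_one (by norm_num)]; norm_num) hcon
  have h5 : (1 / 2 : ℝ≥0) ^ mI p z' * 2 < (1 / 2) ^ mI p z' * 2 := by
    calc (1 / 2 : ℝ≥0) ^ mI p z' * 2 ≤ gap p z' := h2
      _ ≤ gap p z := h3
      _ < (1 / 2) ^ mI p z * 4 := h1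
      _ ≤ (1 / 2) ^ (mI p z' + 1) * 4 := by gcongr
      _ = (1 / 2) ^ mI p z' * ((1 / 2) * 4) := by rw [pow_succ]; ring
      _ = _ := by congr 1; norm_num
  exact lt_irrefl _ h5

/-- the potential -/
noncomputable def pot (p : ℕ → List Bool) (φ z : ℕ) : ℝ≥0 := 4 * dl p z / gap p φ

/-- ordinary transitions -/
lemma pot_ordinary (hU : IsPrefixMachine U) (hp : IsEnumeration U p) {φ φ' ζ z : ℕ} (h1 : φ < φ')
    (h2 : φ' ≤ z) (h3 : z < nI p ζ) : pot p φ' ζ ≤ pot p φ ζ + 4 * upr p φ z := by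
  have ha := gap_pos hU hp φ
  have hb := gap_pos hU hp z
  have hd := dl_lt_gap hU hp h3
  have hu := upr_add hU hp (h1.le.trans h2)
  have hle : gap p z ≤ gap p φ := gap_anti (h1.le.trans h2)
  have hstep : pot p φ' ζ ≤ 4 * dl p ζ / gap p z := by
    unfold pot
    exact div_le_div_of_nonneg_left zero_le hb (gap_anti h2)
  refine hstep.trans ?_
  unfold pot
  rw [← NNReal.coe_le_coe]
  have hu' : (upr p φ z : ℝ) = 1 - gap p z / gap p φ := by
    have : (upr p φ z : ℝ) + gap p z / gap p φ = 1 := by exact_mod_cast hu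
    linarith
  push_cast
  rw [hu']
  have ha' : (0 : ℝ) < gap p φ := by exact_mod_cast ha
  have hb' : (0 : ℝ) < gap p z := by exact_mod_cast hb
  have hd' : (dl p ζ : ℝ) ≤ gap p z := by exact_mod_cast hd.le
  have hle' : (gap p z : ℝ) ≤ gap p φ := by exact_mod_cast hle
  have key : 4 * (dl p ζ : ℝ) / gap p φ + 4 * (1 - gap p z / gap p φ) - 4 * dl p ζ / gap p z =
      4 * ((gap p φ - gap p z) * (gap p z - dl p ζ)) / (gap p φ * gap p z) := by
    field_simp
    ring
  have h5 : 0 ≤ 4 * (((gap p φ : ℝ) - gap p z) * (gap p z - dl p ζ)) / (gap p φ * gap p z) := by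
    apply div_nonneg
    · apply mul_nonneg (by norm_num)
      exact mul_nonneg (by linarith) (by linarith)
    · positivity
  linarith

/-- transitions beyond the threshold -/
lemma pot_event (hU : IsPrefixMachine U) (hp : IsEnumeration U p) {φ φ' ζ z : ℕ} (h1 : φ < φ')
    (h2 : φ' ≤ z) (h3 : nI p ζ ≤ z) : 1 + pot p φ' z ≤ pot p φ ζ + 4 * upr p φ z := by
  have ha := gap_pos hU hp φ
  have hb := gap_pos hU hp z
  have hd := gap_le_dl hU hp h3
  have hu := upr_add hU hp (h1.le.trans h2)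
  have hl : pot p φ' z ≤ 3 := by
    unfold pot
    rw [div_le_iff₀ (gap_pos hU hp φ')]
    refine (dl_le hU hp z).trans ?_
    gcongr
    exact gap_anti h2
  have hr : 4 ≤ pot p φ ζ + 4 * upr p φ z := by
    have h5 : 4 * (gap p z / gap p φ) ≤ pot p φ ζ := by
      unfold pot
      rw [mul_div_assoc]
      gcongr
    calc (4 : ℝ≥0) = 4 * (upr p φ z + gap p z / gap p φ) := by rw [hu, mul_one]
      _ = 4 * (gap p z / gap p φ) + 4 * upr p φ z := by ring
      _ ≤ _ := by gcongr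
  calc 1 + pot p φ' z ≤ 1 + 3 := by gcongr
    _ = 4 := by norm_num
    _ ≤ _ := hr

namespace Stages

variable (T : Stages U)

/-- the transition operator of the augmented process -/
noncomputable def opA (p : ℕ → List Bool) (F : List Bool → ℕ → ℕ → ℝ≥0∞) (A : List Bool) (ζ k : ℕ) :
    ℝ≥0∞ :=
  (∑' q : ℕ × List Bool, T.kap (A, q) *
    (if q.1 < nI p ζ then F q.2 ζ k else F q.2 q.1 (k + 1))) +
  (1 - ∑' q : ℕ × List Bool, T.kap (A, q)) * F A ζ k

/-- iterates -/
noncomputable def itA (p : ℕ → List Bool) (t : ℕ) (F : List Bool → ℕ → ℕ → ℝ≥0∞) :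
    List Bool → ℕ → ℕ → ℝ≥0∞ := (T.opA p)^[t] F

lemma itA_succ (t : ℕ) (F : List Bool → ℕ → ℕ → ℝ≥0∞) :
    T.itA p (t + 1) F = T.opA p (T.itA p t F) := Function.iterate_succ_apply' _ _ _

/-- valid states -/
def Valid (U : List Bool → List Bool →. ℕ) (p : ℕ → List Bool) (A : List Bool) (ζ : ℕ) : Prop :=
  fitness U A < nI p ζ

lemma opA_mono (hU : IsPrefixMachine U) (hp : IsEnumeration U p)
    {F G : List Bool → ℕ → ℕ → ℝ≥0∞} (h : ∀ A ζ k, Valid U p A ζ → F A ζ k ≤ G A ζ k)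
    {A : List Bool} {ζ k : ℕ} (hv : Valid U p A ζ) : T.opA p F A ζ k ≤ T.opA p G A ζ k := by
  unfold opA
  refine add_le_add (ENNReal.tsum_le_tsum (fun q => ?_)) (mul_le_mul_right (h _ _ _ hv) _)
  by_cases hq : T.kap (A, q) = 0
  · rw [hq]; simp
  · have h1 := T.kap_fit (B := q.2) (z := q.1) hq
    refine mul_le_mul_right ?_ _
    split_ifs with hlt
    · exact h _ _ _ (lt_of_le_of_lt h1.2.1 hlt)
    · exact h _ _ _ (lt_of_le_of_lt h1.2.1 (lt_nI hU hp _))

lemma itA_mono (hU : IsPrefixMachine U) (hp : IsEnumeration U p) (t : ℕ)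
    {F G : List Bool → ℕ → ℕ → ℝ≥0∞} (h : ∀ A ζ k, Valid U p A ζ → F A ζ k ≤ G A ζ k) :
    ∀ A ζ k, Valid U p A ζ → T.itA p t F A ζ k ≤ T.itA p t G A ζ k := by
  induction t with
  | zero => exact h
  | succ t ih =>
    intro A ζ k hv
    rw [itA_succ, itA_succ]
    exact T.opA_mono hU hp ih hv

/-- the augmented process projects to the process -/
lemma itA_proj (t : ℕ) (f : List Bool → ℝ≥0∞) (A : List Bool) (ζ k : ℕ) :
    T.itA p t (fun A _ _ => f A) A ζ k = T.itP t f A := by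
  induction t generalizing A ζ k with
  | zero => rfl
  | succ t ih =>
    rw [itA_succ, itP_succ]
    unfold opA opP
    simp only [ih, ite_self]

lemma opA_tsum {ι : Type*} (F : ι → List Bool → ℕ → ℕ → ℝ≥0∞) (A : List Bool) (ζ k : ℕ) :
    T.opA p (fun A ζ k => ∑' i, F i A ζ k) A ζ k = ∑' i, T.opA p (F i) A ζ k := by
  unfold opA
  rw [ENNReal.tsum_add, ENNReal.tsum_mul_left, ENNReal.tsum_comm (f := fun i q =>
    T.kap (A, q) * (if q.1 < nI p ζ then F i q.2 ζ k else F i q.2 q.1 (k + 1)))]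
  congr 1
  refine tsum_congr (fun q => ?_)
  rw [ENNReal.tsum_mul_left]
  congr 1
  split_ifs <;> rfl

lemma itA_tsum {ι : Type*} (F : ι → List Bool → ℕ → ℕ → ℝ≥0∞) (t : ℕ) :
    T.itA p t (fun A ζ k => ∑' i, F i A ζ k) = fun A ζ k => ∑' i, T.itA p t (F i) A ζ k := by
  induction t with
  | zero => rfl
  | succ t ih =>
    rw [itA_succ, ih]
    funext A ζ k
    rw [opA_tsum]
    simp only [itA_succ]

lemma opA_add (F G : List Bool → ℕ → ℕ → ℝ≥0∞) (A : List Bool) (ζ k : ℕ) :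
    T.opA p (fun A ζ k => F A ζ k + G A ζ k) A ζ k = T.opA p F A ζ k + T.opA p G A ζ k := by
  unfold opA
  have h1 : ∀ q : ℕ × List Bool, T.kap (A, q) * (if q.1 < nI p ζ then F q.2 ζ k + G q.2 ζ k else
      F q.2 q.1 (k + 1) + G q.2 q.1 (k + 1)) =
      T.kap (A, q) * (if q.1 < nI p ζ then F q.2 ζ k else F q.2 q.1 (k + 1)) +
      T.kap (A, q) * (if q.1 < nI p ζ then G q.2 ζ k else G q.2 q.1 (k + 1)) := by
    intro q
    split_ifs <;> ring
  rw [tsum_congr h1, ENNReal.tsum_add]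
  ring

lemma itA_add (t : ℕ) (F G : List Bool → ℕ → ℕ → ℝ≥0∞) :
    T.itA p t (fun A ζ k => F A ζ k + G A ζ k) =
      fun A ζ k => T.itA p t F A ζ k + T.itA p t G A ζ k := by
  induction t with
  | zero => rfl
  | succ t ih =>
    rw [itA_succ, ih]
    funext A ζ k
    rw [opA_add, itA_succ, itA_succ]

lemma opA_const_mul (c : ℝ≥0∞) (F : List Bool → ℕ → ℕ → ℝ≥0∞) (A : List Bool) (ζ k : ℕ) :
    T.opA p (fun A ζ k => c * F A ζ k) A ζ k = c * T.opA p F A ζ k := by
  unfold opA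
  rw [mul_add, ← ENNReal.tsum_mul_left]
  congr 1
  · refine tsum_congr (fun q => ?_)
    split_ifs <;> ring
  · ring

lemma opA_proj (f : List Bool → ℝ≥0∞) (A : List Bool) (ζ k : ℕ) :
    T.opA p (fun A _ _ => f A) A ζ k = T.opP f A := by
  unfold opA opP
  simp only [ite_self]

/-- the potential together with the number of events -/
noncomputable def Phi (U : List Bool → List Bool →. ℕ) (p : ℕ → List Bool) (A : List Bool)
    (ζ k : ℕ) : ℝ≥0∞ := (k : ℝ≥0∞) + ((pot p (fitness U A) ζ : ℝ≥0) : ℝ≥0∞)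

lemma opA_Phi (hU : IsPrefixMachine U) (hp : IsEnumeration U p) (A : List Bool) (ζ k : ℕ) :
    T.opA p (Phi U p) A ζ k ≤ Phi U p A ζ k + 4 * T.prog p A := by
  have h1 : ∀ q : ℕ × List Bool, T.kap (A, q) *
      (if q.1 < nI p ζ then Phi U p q.2 ζ k else Phi U p q.2 q.1 (k + 1)) ≤
      T.kap (A, q) * (Phi U p A ζ k + 4 * ((upr p (fitness U A) q.1 : ℝ≥0) : ℝ≥0∞)) := by
    intro q
    by_cases hq : T.kap (A, q) = 0
    · rw [hq]; simp
    · have h2 := T.kap_fit (B := q.2) (z := q.1) hq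
      refine mul_le_mul_right ?_ _
      unfold Phi
      split_ifs with hlt
      · have h3 := pot_ordinary hU hp h2.1 h2.2.1 hlt
        rw [← ENNReal.coe_le_coe] at h3
        push_cast at h3
        rw [add_assoc]
        gcongr
      · have h3 := pot_event hU hp h2.1 h2.2.1 (not_lt.1 hlt)
        rw [← ENNReal.coe_le_coe] at h3
        push_cast at h3
        push_cast
        rw [add_assoc, add_assoc]
        gcongr
  unfold opA
  calc _ ≤ (∑' q : ℕ × List Bool, T.kap (A, q) * (Phi U p A ζ k +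
        4 * ((upr p (fitness U A) q.1 : ℝ≥0) : ℝ≥0∞))) +
        (1 - ∑' q : ℕ × List Bool, T.kap (A, q)) * Phi U p A ζ k :=
        add_le_add (ENNReal.tsum_le_tsum h1) le_rfl
    _ = ((∑' q : ℕ × List Bool, T.kap (A, q)) + (1 - ∑' q : ℕ × List Bool, T.kap (A, q))) *
          Phi U p A ζ k + 4 * T.prog p A := by
        simp only [mul_add]
        rw [ENNReal.tsum_add, ENNReal.tsum_mul_right]
        unfold prog
        rw [← ENNReal.tsum_mul_left]
        have h2 : ∀ q : ℕ × List Bool, T.kap (A, q) * (4 * ((upr p (fitness U A) q.1 : ℝ≥0) : ℝ≥0∞)) =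
            4 * (T.kap (A, q) * ((upr p (fitness U A) q.1 : ℝ≥0) : ℝ≥0∞)) := by
          intro q; ring
        rw [tsum_congr h2]
        ring
    _ = _ := by
        rw [add_tsub_cancel_of_le (T.tsum_kap_le_one hU A), one_mul]

lemma itA_Phi (hU : IsPrefixMachine U) (hp : IsEnumeration U p) (t : ℕ) :
    ∀ A ζ k, Valid U p A ζ → T.itA p t (Phi U p) A ζ k ≤
      Phi U p A ζ k + 4 * T.acc (T.prog p) t A := by
  induction t with
  | zero =>
    intro A ζ k _
    simp [itA, acc]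
  | succ t ih =>
    intro A ζ k hv
    rw [itA_succ]
    refine (T.opA_mono hU hp ih hv).trans ?_
    rw [T.opA_add (Phi U p) (fun A _ _ => 4 * T.acc (T.prog p) t A),
      T.opA_const_mul 4 (fun A _ _ => T.acc (T.prog p) t A), T.opA_proj (T.acc (T.prog p) t),
      T.acc_succ]
    calc _ ≤ (Phi U p A ζ k + 4 * T.prog p A) + 4 * T.opP (T.acc (T.prog p) t) A :=
          add_le_add (T.opA_Phi hU hp A ζ k) le_rfl
      _ = _ := by ring

end Stages

end Pool.Agent.Mut
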