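import Pool.Agent.Rand.Comp
import Pool.Agent.Rand.MLTest

/-!
# A calculus of computable rational functions and lower semicomputable functions
-/

open scoped ENNReal NNReal
open Pool.Agent.Rand

namespace Pool.Agent.Mut

variable {α β γ : Type*} [Primcodable α] [Primcodable β] [Primcodable γ]

/-- the rational number coded by a pair, as a nonnegative real -/
noncomputable def qn (p : ℕ × ℕ) : ℝ≥0 := (p.1 : ℝ≥0) / ((p.2 : ℝ≥0) + 1)

/-- the rational number coded by a pair, as an extended nonnegative real -/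
noncomputable def qv (p : ℕ × ℕ) : ℝ≥0∞ := (qn p : ℝ≥0∞)

lemma qn_lt_iff (p q : ℕ × ℕ) : qn p < qn q ↔ p.1 * (q.2 + 1) < q.1 * (p.2 + 1) := by
  unfold qn
  rw [div_lt_div_iff₀ (by positivity) (by positivity)]
  norm_cast

lemma qn_le_iff (p q : ℕ × ℕ) : qn p ≤ qn q ↔ p.1 * (q.2 + 1) ≤ q.1 * (p.2 + 1) := by
  unfold qn
  rw [div_le_div_iff₀ (by positivity) (by positivity)]
  norm_cast

/-- sum of coded rationals -/
def qadd (p q : ℕ × ℕ) : ℕ × ℕ :=
  (p.1 * (q.2 + 1) + q.1 * (p.2 + 1), (p.2 + 1) * (q.2 + 1) - 1)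

/-- product of coded rationals -/
def qmul (p q : ℕ × ℕ) : ℕ × ℕ := (p.1 * q.1, (p.2 + 1) * (q.2 + 1) - 1)

/-- truncated difference of coded rationals -/
def qsub (p q : ℕ × ℕ) : ℕ × ℕ :=
  (p.1 * (q.2 + 1) - q.1 * (p.2 + 1), (p.2 + 1) * (q.2 + 1) - 1)

/-- inverse of a coded rational (zero for zero) -/
def qinv (p : ℕ × ℕ) : ℕ × ℕ := bif decide (p.1 = 0) then (0, 0) else (p.2 + 1, p.1 - 1)

lemma den_cast (b d : ℕ) : (((b + 1) * (d + 1) - 1 : ℕ) : ℝ≥0) + 1 = ((b : ℝ≥0) + 1) * (d + 1) := by
  have h : (b + 1) * (d + 1) - 1 + 1 = (b + 1) * (d + 1) :=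
    Nat.sub_add_cancel (Nat.mul_pos (Nat.succ_pos _) (Nat.succ_pos _))
  have h2 : (((b + 1) * (d + 1) - 1 + 1 : ℕ) : ℝ≥0) = (((b + 1) * (d + 1) : ℕ) : ℝ≥0) := by rw [h]
  rw [Nat.cast_add, Nat.cast_one] at h2
  rw [h2]
  push_cast
  rfl

lemma qn_add (p q : ℕ × ℕ) : qn (qadd p q) = qn p + qn q := by
  unfold qn qadd
  simp only
  rw [den_cast, div_add_div _ _ (by positivity) (by positivity)]
  push_cast
  ring_nf

lemma qn_mul (p q : ℕ × ℕ) : qn (qmul p q) = qn p * qn q := by
  unfold qn qmul
  simp only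
  rw [den_cast, div_mul_div_comm]
  push_cast
  rfl

lemma qn_sub (p q : ℕ × ℕ) : qn (qsub p q) = qn p - qn q := by
  rcases le_total (qn q) (qn p) with h | h
  · symm
    rw [tsub_eq_iff_eq_add_of_le h, ← qn_add]
    rw [qn_le_iff] at h
    unfold qn qsub qadd
    simp only
    rw [den_cast, den_cast, div_eq_div_iff (by positivity) (by positivity)]
    have h2 : (((p.2 + 1) * (q.2 + 1) - 1 : ℕ)) + 1 = (p.2 + 1) * (q.2 + 1) :=
      Nat.sub_add_cancel (Nat.mul_pos (Nat.succ_pos _) (Nat.succ_pos _))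
    have h3 : p.1 * ((((p.2 + 1) * (q.2 + 1) - 1 : ℕ) + 1) * (q.2 + 1)) =
      ((p.1 * (q.2 + 1) - q.1 * (p.2 + 1)) * (q.2 + 1) +
        q.1 * (((p.2 + 1) * (q.2 + 1) - 1 : ℕ) + 1)) * (p.2 + 1) := by
      rw [h2]
      zify [h]
      ring
    generalize hX : (p.2 + 1) * (q.2 + 1) - 1 = X at *
    have hX2 : ((X : ℕ) : ℝ≥0) + 1 = ((p.2 : ℝ≥0) + 1) * (q.2 + 1) := by
      rw [← hX]; exact den_cast _ _
    generalize p.1 * (q.2 + 1) - q.1 * (p.2 + 1) = Y at *
    have h4 : ((p.1 * ((X + 1) * (q.2 + 1)) : ℕ) : ℝ≥0) =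
      (((Y * (q.2 + 1) + q.1 * (X + 1)) * (p.2 + 1) : ℕ) : ℝ≥0) := by rw [h3]
    push_cast at h4 ⊢
    rw [hX2] at h4 ⊢
    exact h4
  · rw [tsub_eq_zero_of_le h]
    rw [qn_le_iff] at h
    unfold qn qsub
    simp only
    rw [Nat.sub_eq_zero_of_le h]
    simp

lemma qn_inv (p : ℕ × ℕ) : qn (qinv p) = (qn p)⁻¹ := by
  unfold qinv
  by_cases h : p.1 = 0
  · simp [h, qn]
  · rw [decide_eq_false h, cond_false]
    unfold qn
    simp only
    have h1 : ((p.1 - 1 : ℕ) : ℝ≥0) + 1 = p.1 := by
      have : p.1 - 1 + 1 = p.1 := Nat.sub_add_cancel (Nat.one_le_iff_ne_zero.2 h)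
      exact_mod_cast this
    rw [h1, inv_div]
    push_cast
    rfl

lemma comp_qadd {f g : α → ℕ × ℕ} (hf : Computable f) (hg : Computable g) :
    Computable (fun a => qadd (f a) (g a)) := by
  unfold qadd
  have f1 := Computable.fst.comp hf
  have f2 := comp_succ (Computable.snd.comp hf)
  have g1 := Computable.fst.comp hg
  have g2 := comp_succ (Computable.snd.comp hg)
  exact (comp_add (comp_mul f1 g2) (comp_mul g1 f2)).pair
    (comp_sub (comp_mul f2 g2) (Computable.const 1))

lemma comp_qmul {f g : α → ℕ × ℕ} (hf : Computable f) (hg : Computable g) :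
    Computable (fun a => qmul (f a) (g a)) := by
  unfold qmul
  have f1 := Computable.fst.comp hf
  have f2 := comp_succ (Computable.snd.comp hf)
  have g1 := Computable.fst.comp hg
  have g2 := comp_succ (Computable.snd.comp hg)
  exact (comp_mul f1 g1).pair (comp_sub (comp_mul f2 g2) (Computable.const 1))

lemma comp_qsub {f g : α → ℕ × ℕ} (hf : Computable f) (hg : Computable g) :
    Computable (fun a => qsub (f a) (g a)) := by
  unfold qsub
  have f1 := Computable.fst.comp hf
  have f2 := comp_succ (Computable.snd.comp hf)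
  have g1 := Computable.fst.comp hg
  have g2 := comp_succ (Computable.snd.comp hg)
  exact (comp_sub (comp_mul f1 g2) (comp_mul g1 f2)).pair
    (comp_sub (comp_mul f2 g2) (Computable.const 1))

lemma comp_qinv {f : α → ℕ × ℕ} (hf : Computable f) :
    Computable (fun a => qinv (f a)) := by
  unfold qinv
  have f1 := Computable.fst.comp hf
  have f2 := comp_succ (Computable.snd.comp hf)
  exact Computable.cond (comp_eq f1 (Computable.const 0)) (Computable.const _)
    (f2.pair (comp_sub f1 (Computable.const 1)))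

/-! ### Exactly computable rational functions -/

/-- `f` takes nonnegative rational values which are exactly computable -/
def QC (f : α → ℝ≥0) : Prop := ∃ g : α → ℕ × ℕ, Computable g ∧ ∀ a, f a = qn (g a)

lemma QC.of_eq {f g : α → ℝ≥0} (hf : QC f) (h : ∀ a, f a = g a) : QC g := by
  have : f = g := funext h
  rwa [← this]

lemma QC.comp {f : β → ℝ≥0} (hf : QC f) {h : α → β} (hh : Computable h) :
    QC (fun a => f (h a)) := by
  obtain ⟨g, hg, hfg⟩ := hf
  exact ⟨fun a => g (h a), hg.comp hh, fun a => hfg _⟩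

lemma QC.nat {g : α → ℕ} (hg : Computable g) : QC (fun a => (g a : ℝ≥0)) :=
  ⟨fun a => (g a, 0), hg.pair (Computable.const 0), fun a => by simp [qn]⟩

lemma QC.zero : QC (fun _ : α => (0 : ℝ≥0)) :=
  (QC.nat (Computable.const 0)).of_eq (fun _ => by simp)

lemma QC.one : QC (fun _ : α => (1 : ℝ≥0)) :=
  (QC.nat (Computable.const 1)).of_eq (fun _ => by simp)

lemma QC.add {f g : α → ℝ≥0} (hf : QC f) (hg : QC g) : QC (fun a => f a + g a) := by
  obtain ⟨f', hf', hf2⟩ := hf
  obtain ⟨g', hg', hg2⟩ := hg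
  exact ⟨_, comp_qadd hf' hg', fun a => by simp only [qn_add, hf2, hg2]⟩

lemma QC.mul {f g : α → ℝ≥0} (hf : QC f) (hg : QC g) : QC (fun a => f a * g a) := by
  obtain ⟨f', hf', hf2⟩ := hf
  obtain ⟨g', hg', hg2⟩ := hg
  exact ⟨_, comp_qmul hf' hg', fun a => by simp only [qn_mul, hf2, hg2]⟩

lemma QC.sub {f g : α → ℝ≥0} (hf : QC f) (hg : QC g) : QC (fun a => f a - g a) := by
  obtain ⟨f', hf', hf2⟩ := hf
  obtain ⟨g', hg', hg2⟩ := hg
  exact ⟨_, comp_qsub hf' hg', fun a => by simp only [qn_sub, hf2, hg2]⟩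

lemma QC.inv {f : α → ℝ≥0} (hf : QC f) : QC (fun a => (f a)⁻¹) := by
  obtain ⟨f', hf', hf2⟩ := hf
  exact ⟨_, comp_qinv hf', fun a => by simp only [qn_inv, hf2]⟩

lemma QC.div {f g : α → ℝ≥0} (hf : QC f) (hg : QC g) : QC (fun a => f a / g a) :=
  (hf.mul hg.inv).of_eq (fun a => by rw [div_eq_mul_inv])

lemma QC.lt {f g : α → ℝ≥0} (hf : QC f) (hg : QC g) :
    Computable (fun a => decide (f a < g a)) := by
  obtain ⟨f', hf', hf2⟩ := hf
  obtain ⟨g', hg', hg2⟩ := hg
  refine (comp_lt (comp_mul (Computable.fst.comp hf') (comp_succ (Computable.snd.comp hg')))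
    (comp_mul (Computable.fst.comp hg') (comp_succ (Computable.snd.comp hf')))).of_eq ?_
  intro a
  rw [decide_eq_decide, hf2, hg2, qn_lt_iff]

lemma QC.le {f g : α → ℝ≥0} (hf : QC f) (hg : QC g) :
    Computable (fun a => decide (f a ≤ g a)) := by
  refine (comp_not (hg.lt hf)).of_eq ?_
  intro a
  rw [← decide_not, decide_eq_decide, not_lt]

lemma QC.cond {f g : α → ℝ≥0} {b : α → Bool} (hb : Computable b) (hf : QC f) (hg : QC g) :
    QC (fun a => if b a = true then f a else g a) := by
  obtain ⟨f', hf', hf2⟩ := hf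
  obtain ⟨g', hg', hg2⟩ := hg
  refine ⟨fun a => bif b a then f' a else g' a, Computable.cond hb hf' hg', fun a => ?_⟩
  simp only [hf2, hg2]
  cases b a <;> simp

lemma QC.min {f g : α → ℝ≥0} (hf : QC f) (hg : QC g) : QC (fun a => min (f a) (g a)) := by
  refine (QC.cond (hf.le hg) hf hg).of_eq ?_
  intro a
  by_cases h : f a ≤ g a
  · simp [h]
  · simp [h, min_eq_right (le_of_lt (not_le.1 h))]

lemma QC.max {f g : α → ℝ≥0} (hf : QC f) (hg : QC g) : QC (fun a => max (f a) (g a)) := by
  refine (QC.cond (hf.le hg) hg hf).of_eq ?_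
  intro a
  by_cases h : f a ≤ g a
  · simp [h]
  · simp [h, max_eq_left (le_of_lt (not_le.1 h))]

lemma QC.ite {f g : α → ℝ≥0} {p : α → Prop} [DecidablePred p]
    (hp : Computable (fun a => decide (p a))) (hf : QC f) (hg : QC g) :
    QC (fun a => if p a then f a else g a) := by
  refine (QC.cond hp hf hg).of_eq ?_
  intro a
  simp

lemma QC.pow_const {c : ℕ} {g : α → ℕ} (hg : Computable g) :
    QC (fun a => (c : ℝ≥0) ^ g a) := by
  refine (QC.nat (comp_pow (Computable.const c) hg)).of_eq ?_
  intro a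
  push_cast
  rfl

lemma QC.half_pow {g : α → ℕ} (hg : Computable g) :
    QC (fun a => (1 / 2 : ℝ≥0) ^ g a) := by
  refine (QC.pow_const (c := 2) hg).inv.of_eq ?_
  intro a
  push_cast
  rw [one_div, inv_pow]

lemma QC.sum_range {f : α × ℕ → ℝ≥0} (hf : QC f) {n : α → ℕ} (hn : Computable n) :
    QC (fun a => ∑ i ∈ Finset.range (n a), f (a, i)) := by
  obtain ⟨g, hg, hfg⟩ := hf
  refine ⟨fun a => (List.range (n a)).foldl (fun acc i => qadd acc (g (a, i))) (0, 0), ?_, ?_⟩
  · refine computable_foldl (f := fun a => List.range (n a)) (g := fun _ => ((0 : ℕ), (0 : ℕ)))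
      (h := fun a acc i => qadd acc (g (a, i))) ?_ (Computable.const _) ?_
    · exact Primrec.list_range.to_comp.comp hn
    · exact comp_qadd (Computable.fst.comp Computable.snd)
        (hg.comp (Computable.fst.pair (Computable.snd.comp Computable.snd)))
  · intro a
    simp only [hfg]
    induction n a with
    | zero => simp [qn]
    | succ m ih =>
      rw [Finset.sum_range_succ, ih, List.range_succ, List.foldl_append, List.foldl_cons,
        List.foldl_nil, qn_add]

/-! ### Lower semicomputable functions -/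

/-- `f` is the supremum of an exactly computable sequence of rational functions -/
def LSC (f : α → ℝ≥0∞) : Prop :=
  ∃ F : ℕ × α → ℝ≥0, QC F ∧ ∀ a, f a = ⨆ s, (F (s, a) : ℝ≥0∞)

lemma LSC.of_eq {f g : α → ℝ≥0∞} (hf : LSC f) (h : ∀ a, f a = g a) : LSC g := by
  have : f = g := funext h
  rwa [← this]

lemma LSC.comp {f : β → ℝ≥0∞} (hf : LSC f) {h : α → β} (hh : Computable h) :
    LSC (fun a => f (h a)) := by
  obtain ⟨F, hF, hf2⟩ := hf
  exact ⟨fun p => F (p.1, h p.2), hF.comp (Computable.fst.pair (hh.comp Computable.snd)),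
    fun a => hf2 _⟩

lemma QC.lsc {f : α → ℝ≥0} (hf : QC f) : LSC (fun a => (f a : ℝ≥0∞)) :=
  ⟨fun p => f p.2, hf.comp Computable.snd, fun a => by simp⟩

/-- monotone approximations -/
lemma LSC.exists_mono {f : α → ℝ≥0∞} (hf : LSC f) :
    ∃ F : ℕ × α → ℝ≥0, QC F ∧ (∀ a, Monotone (fun s => F (s, a))) ∧
      ∀ a, f a = ⨆ s, (F (s, a) : ℝ≥0∞) := by
  obtain ⟨F, hF, hf2⟩ := hf
  obtain ⟨g, hg, hFg⟩ := hF
  -- running maximum
  let better : ℕ × ℕ → ℕ × ℕ → ℕ × ℕ := fun acc q =>
    bif decide (acc.1 * (q.2 + 1) < q.1 * (acc.2 + 1)) then q else acc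
  have hbetter : ∀ acc q, qn (better acc q) = max (qn acc) (qn q) := by
    intro acc q
    by_cases h : acc.1 * (q.2 + 1) < q.1 * (acc.2 + 1)
    · simp only [better, decide_eq_true h, cond_true]
      rw [max_eq_right ((qn_lt_iff acc q).2 h).le]
    · simp only [better, decide_eq_false h, cond_false]
      rw [max_eq_left (not_lt.1 (fun h' => h ((qn_lt_iff acc q).1 h')))]
  let G : ℕ × α → ℕ × ℕ := fun p =>
    (List.range (p.1 + 1)).foldl (fun acc t => better acc (g (t, p.2))) (0, 0)
  have hG : Computable G := by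
    refine computable_foldl (f := fun p : ℕ × α => List.range (p.1 + 1))
      (g := fun _ => ((0 : ℕ), (0 : ℕ)))
      (h := fun p acc t => better acc (g (t, p.2))) ?_ (Computable.const _) ?_
    · exact Primrec.list_range.to_comp.comp (comp_succ Computable.fst)
    · have ha : Computable (fun p : (ℕ × α) × (ℕ × ℕ) × ℕ => p.2.1) :=
        Computable.fst.comp Computable.snd
      have hq : Computable (fun p : (ℕ × α) × (ℕ × ℕ) × ℕ => g (p.2.2, p.1.2)) :=
        hg.comp ((Computable.snd.comp Computable.snd).pair (Computable.snd.comp Computable.fst))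
      exact Computable.cond (comp_lt (comp_mul (Computable.fst.comp ha)
        (comp_succ (Computable.snd.comp hq))) (comp_mul (Computable.fst.comp hq)
        (comp_succ (Computable.snd.comp ha)))) hq ha
  have hGs : ∀ s a, qn (G (s + 1, a)) = max (qn (G (s, a))) (qn (g (s + 1, a))) := by
    intro s a
    show qn ((List.range (s + 1 + 1)).foldl _ _) = _
    rw [List.range_succ (n := s + 1), List.foldl_append, List.foldl_cons, List.foldl_nil, hbetter]
  have hG0 : ∀ a, qn (G (0, a)) = qn (g (0, a)) := by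
    intro a
    show qn ((List.range (0 + 1)).foldl _ _) = _
    rw [List.range_succ, List.range_zero, List.nil_append, List.foldl_cons, List.foldl_nil,
      hbetter]
    rw [max_eq_right]
    simp [qn]
  have hmono : ∀ a, Monotone (fun s => qn (G (s, a))) := by
    intro a
    refine monotone_nat_of_le_succ (fun s => ?_)
    rw [hGs]
    exact le_max_left _ _
  refine ⟨fun p => qn (G p), ⟨G, hG, fun a => rfl⟩, hmono, ?_⟩
  intro a
  rw [hf2]
  apply le_antisymm
  · refine iSup_le (fun s => ?_)
    refine le_iSup_of_le s ?_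
    rw [hFg]
    rw [ENNReal.coe_le_coe]
    show qn (g (s, a)) ≤ qn (G (s, a))
    cases s with
    | zero => rw [hG0]
    | succ s => rw [hGs]; exact le_max_right _ _
  · refine iSup_le (fun s => ?_)
    have : ∀ s, ((qn (G (s, a)) : ℝ≥0) : ℝ≥0∞) ≤ ⨆ s, (F (s, a) : ℝ≥0∞) := by
      intro s
      induction s with
      | zero =>
        rw [hG0, ← hFg]
        exact le_iSup (fun s => (F (s, a) : ℝ≥0∞)) 0
      | succ s ih =>
        rw [hGs, ENNReal.coe_max]
        refine max_le ih ?_
        rw [← hFg]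
        exact le_iSup (fun s => (F (s, a) : ℝ≥0∞)) (s + 1)
    exact this s

/-- supremum over a computable family -/
lemma LSC.iSup_nat {f : α × ℕ → ℝ≥0∞} (hf : LSC f) : LSC (fun a => ⨆ n, f (a, n)) := by
  obtain ⟨F, hF, hf2⟩ := hf
  refine ⟨fun p => F (p.1.unpair.1, (p.2, p.1.unpair.2)), hF.comp ?_, ?_⟩
  · have h1 : Computable (fun p : ℕ × α => p.1.unpair) := Computable.unpair.comp Computable.fst
    exact (Computable.fst.comp h1).pair (Computable.snd.pair (Computable.snd.comp h1))
  · intro a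
    simp only [hf2]
    apply le_antisymm
    · refine iSup_le (fun n => iSup_le (fun s => ?_))
      refine le_iSup_of_le (Nat.pair s n) ?_
      simp
    · refine iSup_le (fun s => ?_)
      refine le_iSup_of_le s.unpair.2 ?_
      exact le_iSup (fun t => (F (t, (a, s.unpair.2)) : ℝ≥0∞)) s.unpair.1

lemma LSC.add {f g : α → ℝ≥0∞} (hf : LSC f) (hg : LSC g) : LSC (fun a => f a + g a) := by
  obtain ⟨F, hF, hF1, hF2⟩ := hf.exists_mono
  obtain ⟨G, hG, hG1, hG2⟩ := hg.exists_mono
  refine ⟨fun p => F p + G p, hF.add hG, fun a => ?_⟩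
  simp only [hF2, hG2]
  rw [ENNReal.iSup_add_iSup_of_monotone]
  · simp
  · intro s t h; exact ENNReal.coe_le_coe.2 (hF1 a h)
  · intro s t h; exact ENNReal.coe_le_coe.2 (hG1 a h)

lemma iSup_mul_iSup_of_mono {u v : ℕ → ℝ≥0∞} (hu : Monotone u) (hv : Monotone v) :
    (⨆ s, u s) * (⨆ s, v s) = ⨆ s, u s * v s := by
  rw [ENNReal.iSup_mul]
  simp only [ENNReal.mul_iSup]
  apply le_antisymm
  · refine iSup_le (fun s => iSup_le (fun t => ?_))
    refine le_iSup_of_le (max s t) ?_
    exact mul_le_mul' (hu (le_max_left _ _)) (hv (le_max_right _ _))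
  · refine iSup_le (fun s => ?_)
    exact le_iSup_of_le s (le_iSup (fun t => u s * v t) s)

lemma LSC.mul {f g : α → ℝ≥0∞} (hf : LSC f) (hg : LSC g) : LSC (fun a => f a * g a) := by
  obtain ⟨F, hF, hF1, hF2⟩ := hf.exists_mono
  obtain ⟨G, hG, hG1, hG2⟩ := hg.exists_mono
  refine ⟨fun p => F p * G p, hF.mul hG, fun a => ?_⟩
  simp only [hF2, hG2]
  rw [iSup_mul_iSup_of_mono]
  · simp
  · intro s t h; exact ENNReal.coe_le_coe.2 (hF1 a h)
  · intro s t h; exact ENNReal.coe_le_coe.2 (hG1 a h)

/-- sums of increasing sequences -/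
lemma tsum_eq_iSup_diag {u : ℕ → ℕ → ℝ≥0∞} (hu : ∀ i, Monotone (fun s => u s i)) :
    ∑' i, (⨆ s, u s i) = ⨆ s, ∑ i ∈ Finset.range s, u s i := by
  apply le_antisymm
  · rw [ENNReal.tsum_eq_iSup_nat]
    refine iSup_le (fun n => ?_)
    rw [ENNReal.finsetSum_iSup_of_monotone hu]
    refine iSup_le (fun s => ?_)
    refine le_iSup_of_le (max s n) ?_
    refine (Finset.sum_le_sum (fun i _ => hu i (le_max_left s n))).trans ?_
    exact Finset.sum_le_sum_of_subset (Finset.range_mono (le_max_right s n))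
  · refine iSup_le (fun s => ?_)
    refine (Finset.sum_le_sum (fun i _ => le_iSup (fun t => u t i) s)).trans ?_
    exact ENNReal.sum_le_tsum _

lemma LSC.tsum_nat {f : α × ℕ → ℝ≥0∞} (hf : LSC f) : LSC (fun a => ∑' n, f (a, n)) := by
  obtain ⟨F, hF, hF1, hF2⟩ := hf.exists_mono
  refine ⟨fun p => ∑ i ∈ Finset.range p.1, F (p.1, (p.2, i)), ?_, ?_⟩
  · exact QC.sum_range (f := fun q : (ℕ × α) × ℕ => F (q.1.1, (q.1.2, q.2))) (n := fun p => p.1)
      (hF.comp ((Computable.fst.comp Computable.fst).pair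
        ((Computable.snd.comp Computable.fst).pair Computable.snd))) Computable.fst
  · intro a
    simp only [hF2]
    rw [tsum_eq_iSup_diag (u := fun s i => (F (s, (a, i)) : ℝ≥0∞))]
    · simp
    · intro i s t h; exact ENNReal.coe_le_coe.2 (hF1 _ h)

/-- the value of a function at the object with code `i`, zero if there is none -/
def atCode {β : Type*} [Encodable β] (f : β → ℝ≥0∞) (i : ℕ) : ℝ≥0∞ :=
  (Encodable.decode₂ β i).elim 0 f

lemma atCode_encode {β : Type*} [Encodable β] (f : β → ℝ≥0∞) (b : β) :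
    atCode f (Encodable.encode b) = f b := by
  simp [atCode]

lemma tsum_atCode {β : Type*} [Encodable β] (f : β → ℝ≥0∞) :
    ∑' i, atCode f i = ∑' b, f b := by
  rw [← (Encodable.encode_injective (α := β)).tsum_eq (f := atCode f)]
  · exact tsum_congr (fun b => atCode_encode f b)
  · intro i hi
    rw [Function.mem_support] at hi
    unfold atCode at hi
    rcases h : Encodable.decode₂ β i with _ | b
    · simp [h] at hi
    · exact ⟨b, (Encodable.mem_decode₂.1 h)⟩

lemma iSup_atCode {β : Type*} [Encodable β] (f : β → ℝ≥0∞) :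
    ⨆ i, atCode f i = ⨆ b, f b := by
  apply le_antisymm
  · refine iSup_le (fun i => ?_)
    unfold atCode
    rcases h : Encodable.decode₂ β i with _ | b
    · simp
    · simp only [Option.elim_some]
      exact le_iSup f b
  · refine iSup_le (fun b => ?_)
    refine le_iSup_of_le (Encodable.encode b) ?_
    rw [atCode_encode]

lemma computable_decode₂ : Computable (Encodable.decode₂ β) := by
  have h1 : Computable (fun i : ℕ => (Encodable.decode i : Option β)) := Computable.decode
  have h2 : Computable (fun i : ℕ => (Option.casesOn (Encodable.decode i : Option β) none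
      (fun b => bif decide (Encodable.encode b = i) then some b else none) : Option β)) := by
    refine Computable.option_casesOn (o := fun i : ℕ => (Encodable.decode i : Option β))
      (f := fun _ => none) (g := fun i b => bif decide (Encodable.encode b = i) then some b else none)
      h1 (Computable.const none) ?_
    exact Computable.cond (comp_eq (Computable.encode.comp Computable.snd) Computable.fst)
      (Computable.option_some.comp Computable.snd) (Computable.const none)
  refine h2.of_eq ?_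
  intro i
  unfold Encodable.decode₂
  rcases (Encodable.decode i : Option β) with _ | b
  · rfl
  · by_cases h : Encodable.encode b = i
    · simp [h, Option.guard]
    · simp [h, Option.guard]

lemma QC.option {f : α × β → ℝ≥0} (hf : QC f) {o : α → Option β} (ho : Computable o) :
    QC (fun a => (o a).elim 0 (fun b => f (a, b))) := by
  obtain ⟨g, hg, hfg⟩ := hf
  refine ⟨fun a => ((o a).map (fun b => g (a, b))).getD (0, 0), ?_, ?_⟩
  · exact Computable.option_getD (Computable.option_map ho (hg.comp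
      (Computable.fst.pair Computable.snd))) (Computable.const _)
  · intro a
    beta_reduce
    generalize o a = oa
    cases oa with
    | none => simp [qn]
    | some b => simp [hfg]

lemma LSC.atCode {f : α × β → ℝ≥0∞} (hf : LSC f) :
    LSC (fun p : α × ℕ => atCode (fun b => f (p.1, b)) p.2) := by
  obtain ⟨F, hF, hF2⟩ := hf
  refine ⟨fun q => (Encodable.decode₂ β q.2.2).elim 0 (fun b => F (q.1, (q.2.1, b))), ?_, ?_⟩
  · refine QC.option (f := fun q : (ℕ × α × ℕ) × β => F (q.1.1, (q.1.2.1, q.2)))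
      (o := fun q => Encodable.decode₂ β q.2.2) ?_ ?_
    · exact hF.comp ((Computable.fst.comp Computable.fst).pair
        ((Computable.fst.comp (Computable.snd.comp Computable.fst)).pair Computable.snd))
    · exact computable_decode₂.comp (Computable.snd.comp Computable.snd)
  · intro a
    show (Encodable.decode₂ β a.2).elim 0 (fun b => f (a.1, b)) = ⨆ s : ℕ,
      (((Encodable.decode₂ β a.2).elim 0 (fun b => F (s, (a.1, b))) : ℝ≥0) : ℝ≥0∞)
    generalize Encodable.decode₂ β a.2 = oa
    cases oa with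
    | none => simp
    | some b => simp [hF2]

/-- sums over a countable type of objects -/
lemma LSC.tsum {f : α × β → ℝ≥0∞} (hf : LSC f) : LSC (fun a => ∑' b, f (a, b)) := by
  refine (LSC.tsum_nat hf.atCode).of_eq ?_
  intro a
  exact tsum_atCode (fun b => f (a, b))

lemma LSC.iSup {f : α × β → ℝ≥0∞} (hf : LSC f) : LSC (fun a => ⨆ b, f (a, b)) := by
  refine (LSC.iSup_nat hf.atCode).of_eq ?_
  intro a
  exact iSup_atCode (fun b => f (a, b))

lemma LSC.zero : LSC (fun _ : α => (0 : ℝ≥0∞)) := QC.zero.lsc.of_eq (fun _ => by simp)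

lemma LSC.one : LSC (fun _ : α => (1 : ℝ≥0∞)) := QC.one.lsc.of_eq (fun _ => by simp)

lemma LSC.half_pow {g : α → ℕ} (hg : Computable g) :
    LSC (fun a => (1 / 2 : ℝ≥0∞) ^ g a) := by
  refine (QC.half_pow hg).lsc.of_eq ?_
  intro a
  rw [ENNReal.coe_pow, ENNReal.coe_div (by norm_num)]
  simp

/-- multiply by the indicator of a computable predicate -/
lemma LSC.ite {f : α → ℝ≥0∞} {p : α → Prop} [DecidablePred p]
    (hp : Computable (fun a => decide (p a))) (hf : LSC f) :
    LSC (fun a => if p a then f a else 0) := by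
  have h1 : QC (fun a => if p a then (1 : ℝ≥0) else 0) := QC.ite hp QC.one QC.zero
  refine (h1.lsc.mul hf).of_eq ?_
  intro a
  by_cases h : p a <;> simp [h]

/-- indicator of a semidecidable predicate -/
lemma LSC.ofRE {p : α → Prop} [DecidablePred p] (hp : REPred p) :
    LSC (fun a => if p a then (1 : ℝ≥0∞) else 0) := by
  obtain ⟨w, hw1, _, hw3⟩ := exists_stage hp
  refine ⟨fun q => if w q.1 q.2 = true then 1 else 0,
    QC.cond (hw1.comp Computable.fst Computable.snd) QC.one QC.zero, ?_⟩
  intro a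
  by_cases h : p a
  · obtain ⟨s, hs⟩ := (hw3 a).1 h
    simp only [h, if_true]
    apply le_antisymm
    · refine le_iSup_of_le s ?_
      simp [hs]
    · refine iSup_le (fun t => ?_)
      split_ifs <;> simp
  · simp only [h, if_false]
    symm
    rw [ENNReal.iSup_eq_zero]
    intro s
    have : ¬ (w s a = true) := fun h' => h ((hw3 a).2 ⟨s, h'⟩)
    simp [this]

/-! ### Iterates of a kernel -/

/-- apply a kernel (with weights in `[0, ∞]`) to a function -/
noncomputable def app {S : Type*} (K : S × S → ℝ≥0∞) (f : S → ℝ≥0∞) (x : S) : ℝ≥0∞ :=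
  ∑' y, K (x, y) * f y

/-- iterates of a kernel -/
noncomputable def iter {S : Type*} (K : S × S → ℝ≥0∞) : ℕ → (S → ℝ≥0∞) → S → ℝ≥0∞
  | 0, f => f
  | t + 1, f => app K (iter K t f)

/-- weight of a path -/
noncomputable def pathW {S : Type*} (K : S × S → ℝ≥0∞) (f : S → ℝ≥0∞) : S → List S → ℝ≥0∞
  | x, [] => f x
  | x, y :: l => K (x, y) * pathW K f y l

lemma iter_eq_tsum {S : Type*} (K : S × S → ℝ≥0∞) (f : S → ℝ≥0∞) (t : ℕ) :
    ∀ x, iter K t f x = ∑' l : List S, if l.length = t then pathW K f x l else 0 := by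
  induction t with
  | zero =>
    intro x
    rw [tsum_eq_single ([] : List S)]
    · simp [iter, pathW]
    · intro l hl
      rw [if_neg]
      intro h
      exact hl (List.length_eq_zero_iff.1 h)
  | succ t ih =>
    intro x
    have hinj : Function.Injective (fun p : S × List S => p.1 :: p.2) := by
      rintro ⟨a, l⟩ ⟨b, m⟩ h
      simp at h
      rw [h.1, h.2]
    rw [← hinj.tsum_eq (f := fun l : List S => if l.length = t + 1 then pathW K f x l else 0)]
    · rw [ENNReal.tsum_prod']
      show ∑' y, K (x, y) * iter K t f y = _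
      refine tsum_congr (fun y => ?_)
      rw [ih y, ← ENNReal.tsum_mul_left]
      refine tsum_congr (fun l => ?_)
      simp only [List.length_cons, Nat.add_right_cancel_iff, pathW]
      split_ifs <;> simp
    · intro l hl
      rw [Function.mem_support] at hl
      cases l with
      | nil => simp at hl
      | cons a l => exact ⟨(a, l), rfl⟩

lemma LSC.pathW {S : Type*} [Primcodable S] {K : S × S → ℝ≥0∞} {f : α × S → ℝ≥0∞}
    (hK : LSC K) (hf : LSC f) :
    LSC (fun p : (α × S) × List S => pathW K (fun x => f (p.1.1, x)) p.1.2 p.2) := by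
  obtain ⟨k, ⟨k', hk', hkk'⟩, hk1, hk2⟩ := hK.exists_mono
  obtain ⟨h, ⟨h', hh', hhh'⟩, hh1, hh2⟩ := hf.exists_mono
  let step : ℕ → (ℕ × ℕ) × S → S → (ℕ × ℕ) × S := fun s acc y =>
    (qmul acc.1 (k' (s, (acc.2, y))), y)
  let fin : ℕ → α → (ℕ × ℕ) × S → ℕ × ℕ := fun s a acc => qmul acc.1 (h' (s, (a, acc.2)))
  refine ⟨fun q => qn (fin q.1 q.2.1.1
    (q.2.2.foldl (step q.1) ((1, 0), q.2.1.2))), ⟨_, ?_, fun _ => rfl⟩, ?_⟩
  · have h1 : Computable (fun q : ℕ × (α × S) × List S =>
        q.2.2.foldl (step q.1) (((1 : ℕ), (0 : ℕ)), q.2.1.2)) := by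
      refine computable_foldl (f := fun q : ℕ × (α × S) × List S => q.2.2)
        (g := fun q => (((1 : ℕ), (0 : ℕ)), q.2.1.2)) (h := fun q acc y => step q.1 acc y)
        (Computable.snd.comp Computable.snd) ?_ ?_
      · exact (Computable.const _).pair (Computable.snd.comp (Computable.fst.comp Computable.snd))
      · -- p : (ℕ × (α × S) × List S) × ((ℕ × ℕ) × S) × S
        have a1 : Computable (fun p : (ℕ × (α × S) × List S) × ((ℕ × ℕ) × S) × S => p.2.2) :=
          Computable.snd.comp Computable.snd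
        have a2 : Computable (fun p : (ℕ × (α × S) × List S) × ((ℕ × ℕ) × S) × S => p.2.1.2) :=
          Computable.snd.comp (Computable.fst.comp Computable.snd)
        have a3 : Computable (fun p : (ℕ × (α × S) × List S) × ((ℕ × ℕ) × S) × S => p.2.1.1) :=
          Computable.fst.comp (Computable.fst.comp Computable.snd)
        have a4 : Computable (fun p : (ℕ × (α × S) × List S) × ((ℕ × ℕ) × S) × S => p.1.1) :=
          Computable.fst.comp Computable.fst
        exact (comp_qmul a3 (hk'.comp (a4.pair (a2.pair a1)))).pair a1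
    refine comp_qmul (Computable.fst.comp h1) (hh'.comp ?_)
    exact Computable.fst.pair ((Computable.fst.comp (Computable.fst.comp Computable.snd)).pair
      (Computable.snd.comp h1))
  · rintro ⟨⟨a, x⟩, l⟩
    simp only
    -- closed form of the approximation
    have hclosed : ∀ (s : ℕ) (l : List S) (x : S) (c : ℕ × ℕ),
        ((qn (fin s a (l.foldl (step s) (c, x))) : ℝ≥0) : ℝ≥0∞) =
        (qn c : ℝ≥0∞) * Mut.pathW (fun p => (k (s, p) : ℝ≥0∞)) (fun y => (h (s, (a, y)) : ℝ≥0∞))
          x l := by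
      intro s l
      induction l with
      | nil =>
        intro x c
        show ((qn (qmul c (h' (s, (a, x)))) : ℝ≥0) : ℝ≥0∞) = _
        rw [qn_mul, ENNReal.coe_mul, Mut.pathW, hhh']
      | cons y l ih =>
        intro x c
        rw [List.foldl_cons]
        show ((qn (fin s a (l.foldl (step s) (qmul c (k' (s, (x, y))), y))) : ℝ≥0) : ℝ≥0∞) = _
        rw [ih, qn_mul, ENNReal.coe_mul, Mut.pathW, hkk', mul_assoc]
    have hmonoP : ∀ (l : List S) (x : S), Monotone (fun s : ℕ =>
        Mut.pathW (fun p => (k (s, p) : ℝ≥0∞)) (fun y => (h (s, (a, y)) : ℝ≥0∞)) x l) := by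
      intro l
      induction l with
      | nil => intro x s t hst; exact ENNReal.coe_le_coe.2 (hh1 _ hst)
      | cons y l ih =>
        intro x s t hst
        exact mul_le_mul' (ENNReal.coe_le_coe.2 (hk1 _ hst)) (ih y hst)
    have hsup : ∀ (l : List S) (x : S), Mut.pathW K (fun x => f (a, x)) x l = ⨆ s : ℕ,
        Mut.pathW (fun p => (k (s, p) : ℝ≥0∞)) (fun y => (h (s, (a, y)) : ℝ≥0∞)) x l := by
      intro l
      induction l with
      | nil => intro x; exact hh2 _
      | cons y l ih =>
        intro x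
        rw [Mut.pathW, ih, hk2, iSup_mul_iSup_of_mono _ (hmonoP l y)]
        · rfl
        · intro s t hst; exact ENNReal.coe_le_coe.2 (hk1 _ hst)
    rw [hsup]
    refine iSup_congr (fun s => ?_)
    rw [hclosed]
    simp [qn]

/-- iterates of a lower semicomputable kernel are lower semicomputable, uniformly -/
lemma LSC.iter {S : Type*} [Primcodable S] {K : S × S → ℝ≥0∞} {f : α × S → ℝ≥0∞}
    (hK : LSC K) (hf : LSC f) :
    LSC (fun p : α × ℕ × S => iter K p.2.1 (fun x => f (p.1, x)) p.2.2) := by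
  have h1 : LSC (fun q : (α × ℕ × S) × List S => if q.2.length = q.1.2.1 then
      Mut.pathW K (fun x => f (q.1.1, x)) q.1.2.2 q.2 else 0) := by
    refine LSC.ite (p := fun q : (α × ℕ × S) × List S => q.2.length = q.1.2.1) ?_ ?_
    · exact comp_eq (Computable.list_length.comp Computable.snd)
        (Computable.fst.comp (Computable.snd.comp Computable.fst))
    · exact (LSC.pathW hK hf).comp (h := fun q : (α × ℕ × S) × List S =>
        ((q.1.1, q.1.2.2), q.2)) (((Computable.fst.comp Computable.fst).pair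
          (Computable.snd.comp (Computable.snd.comp Computable.fst))).pair Computable.snd)
  refine (LSC.tsum h1).of_eq ?_
  intro a
  rw [iter_eq_tsum]

end Pool.Agent.Mut
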