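import Pool.Agent.Mut.KC

/-!
# The coding theorem
-/

open scoped ENNReal NNReal
open Pool.Agent.Rand

namespace Pool.Agent.Mut

lemma tsum_half_pow_add (k : ℕ) : ∑' j : ℕ, (1 / 2 : ℝ≥0∞) ^ (j + k + 1) = (1 / 2) ^ k := by
  have h1 : ∀ j : ℕ, (1 / 2 : ℝ≥0∞) ^ (j + k + 1) = (1 / 2) ^ (k + 1) * (1 / 2) ^ j := by
    intro j
    rw [← pow_add]
    congr 1
    ring
  simp only [h1]
  rw [ENNReal.tsum_mul_left, ENNReal.tsum_geometric, pow_succ, mul_assoc]
  have h2 : (1 / 2 : ℝ≥0∞) * (1 - 1 / 2)⁻¹ = 1 := by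
    rw [one_div, ENNReal.one_sub_inv_two, inv_inv]
    exact ENNReal.inv_mul_cancel (by norm_num) (by norm_num)
  rw [h2, mul_one]

lemma tsum_threshold_le (v : ℝ≥0∞) :
    ∑' k : ℕ, (if (1 / 2 : ℝ≥0∞) ^ k < v then (1 / 2 : ℝ≥0∞) ^ (k + 1) else 0) ≤ v := by
  classical
  by_cases h : ∃ k : ℕ, (1 / 2 : ℝ≥0∞) ^ k < v
  · obtain ⟨k, hk, hmin⟩ : ∃ k : ℕ, (1 / 2 : ℝ≥0∞) ^ k < v ∧ ∀ m < k, ¬ (1 / 2 : ℝ≥0∞) ^ m < v :=
      ⟨Nat.find h, Nat.find_spec h, fun m hm => Nat.find_min h hm⟩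
    have e := Summable.sum_add_tsum_nat_add' (k := k) (f := fun k : ℕ =>
      (if (1 / 2 : ℝ≥0∞) ^ k < v then (1 / 2 : ℝ≥0∞) ^ (k + 1) else 0)) ENNReal.summable
    rw [← e, Finset.sum_eq_zero, zero_add]
    · refine le_trans (ENNReal.tsum_le_tsum (g := fun j => (1 / 2 : ℝ≥0∞) ^ (j + k + 1))
        (fun j => ?_)) ((tsum_half_pow_add k).le.trans hk.le)
      split_ifs
      · exact le_rfl
      · exact zero_le
    · intro m hm
      rw [if_neg (hmin m (Finset.mem_range.1 hm))]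
  · push Not at h
    rw [ENNReal.tsum_eq_zero.2]
    · exact zero_le
    · intro k
      rw [if_neg (not_lt.2 (h k))]

/-- a sum of a constant over a set with at most one element -/
lemma tsum_unique_le {P : ℕ → Prop} [DecidablePred P] {c : ℝ≥0∞} {Q : Prop} [Decidable Q]
    (h1 : ∀ s t, P s → P t → s = t) (h2 : ∀ s, P s → Q) :
    ∑' s, (if P s then c else 0) ≤ if Q then c else 0 := by
  by_cases h : ∃ s, P s
  · obtain ⟨s, hs⟩ := h
    rw [if_pos (h2 s hs), tsum_eq_single s]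
    · rw [if_pos hs]
    · intro t ht
      rw [if_neg (fun h' => ht (h1 t s h' hs))]
  · push Not at h
    rw [ENNReal.tsum_eq_zero.2]
    · exact zero_le
    · intro s; rw [if_neg (h s)]

lemma tsum_nat_pair (f : ℕ → ℝ≥0∞) : ∑' i, f i = ∑' a, ∑' b, f (Nat.pair a b) := by
  rw [← Nat.pairEquiv.tsum_eq f, ENNReal.tsum_prod']
  rfl

lemma exists_half_pow_lt {v : ℝ≥0∞} (hv : v ≠ 0) : ∃ k : ℕ, (1 / 2 : ℝ≥0∞) ^ k < v := by
  have h := ENNReal.tendsto_pow_atTop_nhds_zero_of_lt_one (r := (1 / 2 : ℝ≥0∞))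
    (by rw [one_div]; exact ENNReal.one_half_lt_one)
  have h2 := h.eventually (gt_mem_nhds (pos_iff_ne_zero.2 hv))
  exact h2.exists

/-- **The coding theorem** for optimal conditional prefix machines. -/
theorem coding {U : List Bool → List Bool →. ℕ} (hU : IsOptimal U)
    {ν : List Bool × ℕ → ℝ≥0∞} (hν : LSC ν) (hsum : ∀ x, ∑' y, ν (x, y) ≤ 1) :
    ∃ c : ℕ, ∀ x y, ν (x, y) ≠ 0 → ∃ M : List Bool, y ∈ U M x ∧
      ν (x, y) ≤ 2 ^ c * (1 / 2) ^ M.length := by
  classical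
  obtain ⟨F, hF, hF1, hF2⟩ := hν.exists_mono
  -- the crossing condition
  let th : ℕ → ℕ → ℕ → List Bool → Prop := fun k s y x => (1 / 2 : ℝ≥0) ^ k < F (s, (x, y))
  let cr : ℕ → ℕ → ℕ → List Bool → Prop := fun k s y x =>
    th k s y x ∧ ¬ (0 < s ∧ th k (s - 1) y x)
  let r : ℕ × List Bool → Option (ℕ × ℕ) := fun p =>
    bif decide (cr p.1.unpair.2.unpair.1 p.1.unpair.2.unpair.2 p.1.unpair.1 p.2) then
      some (p.1.unpair.2.unpair.1 + 1, p.1.unpair.1) else none
  have hr : Computable r := by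
    have b0 : Computable (fun p : ℕ × List Bool => p.1.unpair) :=
      Computable.unpair.comp Computable.fst
    have b1 : Computable (fun p : ℕ × List Bool => p.1.unpair.1) := Computable.fst.comp b0
    have b2 : Computable (fun p : ℕ × List Bool => p.1.unpair.2.unpair) :=
      Computable.unpair.comp (Computable.snd.comp b0)
    have b3 : Computable (fun p : ℕ × List Bool => p.1.unpair.2.unpair.1) := Computable.fst.comp b2
    have b4 : Computable (fun p : ℕ × List Bool => p.1.unpair.2.unpair.2) := Computable.snd.comp b2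
    have hx : Computable (fun p : ℕ × List Bool => p.2) := Computable.snd
    have hth : ∀ s' : ℕ × List Bool → ℕ, Computable s' → Computable (fun p : ℕ × List Bool =>
        decide (th p.1.unpair.2.unpair.1 (s' p) p.1.unpair.1 p.2)) := by
      intro s' hs'
      exact (QC.half_pow b3).lt (hF.comp (hs'.pair (hx.pair b1)))
    have hcr : Computable (fun p : ℕ × List Bool =>
        decide (cr p.1.unpair.2.unpair.1 p.1.unpair.2.unpair.2 p.1.unpair.1 p.2)) := by
      have h1 := hth _ b4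
      have h2 := hth (fun p => p.1.unpair.2.unpair.2 - 1) (comp_sub b4 (Computable.const 1))
      refine (comp_and h1 (comp_not (comp_and (comp_lt (Computable.const 0) b4) h2))).of_eq ?_
      intro p
      simp only [cr, Bool.decide_and, decide_not]
    exact Computable.cond hcr (Computable.option_some.comp ((comp_succ b3).pair b1))
      (Computable.const none)
  have hweight : ∀ y k s x, ((rw' r (Nat.pair y (Nat.pair k s), x) : ℝ≥0) : ℝ≥0∞) =
      if cr k s y x then (1 / 2 : ℝ≥0∞) ^ (k + 1) else 0 := by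
    intro y k s x
    unfold rw'
    simp only [r, Nat.unpair_pair]
    by_cases h : cr k s y x
    · rw [decide_eq_true h, cond_true, if_pos h]
      simp only [Option.elim_some]
      rw [ENNReal.coe_pow, ENNReal.coe_div (by norm_num)]
      simp
    · rw [decide_eq_false h, cond_false, if_neg h]
      simp
  have hcru : ∀ k y x s t, cr k s y x → cr k t y x → s = t := by
    intro k y x
    have key : ∀ s t, s < t → cr k s y x → cr k t y x → False := by
      intro s t hst h1 h2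
      refine h2.2 ⟨by omega, ?_⟩
      exact lt_of_lt_of_le h1.1 (hF1 _ (show s ≤ t - 1 by omega))
    intro s t h1 h2
    rcases lt_trichotomy s t with h | h | h
    · exact (key s t h h1 h2).elim
    · exact h
    · exact (key t s h h2 h1).elim
  have hcrv : ∀ k y x s, cr k s y x → (1 / 2 : ℝ≥0∞) ^ k < ν (x, y) := by
    intro k y x s h
    rw [hF2]
    refine lt_of_lt_of_le ?_ (le_iSup (fun s => (F (s, (x, y)) : ℝ≥0∞)) s)
    have h1 : (1 / 2 : ℝ≥0) ^ k < F (s, (x, y)) := h.1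
    have h2 := ENNReal.coe_lt_coe.2 h1
    rw [ENNReal.coe_pow, ENNReal.coe_div (by norm_num)] at h2
    simpa using h2
  have hpos : ∀ (n : ℕ) (x : List Bool), pos r (n, x) ≤ 1 := by
    intro n x
    rw [← ENNReal.coe_le_coe]
    unfold pos
    push_cast
    refine (ENNReal.sum_le_tsum (f := fun j => ((rw' r (j, x) : ℝ≥0) : ℝ≥0∞)) _).trans ?_
    rw [tsum_nat_pair]
    refine le_trans (ENNReal.tsum_le_tsum (fun y => ?_)) (hsum x)
    rw [tsum_nat_pair]
    refine le_trans (ENNReal.tsum_le_tsum (fun k => ?_)) (tsum_threshold_le (ν (x, y)))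
    simp only [hweight]
    exact tsum_unique_le (fun s t => hcru k y x s t) (fun s => hcrv k y x s)
  obtain ⟨V, hV, hV2⟩ := kraft_chaitin hr hpos
  obtain ⟨c, hc⟩ := hU.2 V hV
  refine ⟨c + 3, fun x y hxy => ?_⟩
  -- the least threshold passed
  have hex := exists_half_pow_lt hxy
  obtain ⟨k, hk, hmin⟩ : ∃ k : ℕ, (1 / 2 : ℝ≥0∞) ^ k < ν (x, y) ∧
      ∀ m < k, ¬ (1 / 2 : ℝ≥0∞) ^ m < ν (x, y) :=
    ⟨Nat.find hex, Nat.find_spec hex, fun m hm => Nat.find_min hex hm⟩
  have hcross : ∃ s, cr k s y x := by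
    have h1 : ∃ s, th k s y x := by
      rw [hF2, lt_iSup_iff] at hk
      obtain ⟨s, hs⟩ := hk
      refine ⟨s, ?_⟩
      show (1 / 2 : ℝ≥0) ^ k < F (s, (x, y))
      rw [← ENNReal.coe_lt_coe, ENNReal.coe_pow, ENNReal.coe_div (by norm_num)]
      simpa using hs
    refine ⟨Nat.find h1, Nat.find_spec h1, ?_⟩
    rintro ⟨h2, h3⟩
    exact Nat.find_min h1 (by omega) h3
  obtain ⟨s, hs⟩ := hcross
  have hreq : r (Nat.pair y (Nat.pair k s), x) = some (k + 1, y) := by
    simp only [r, Nat.unpair_pair]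
    rw [decide_eq_true hs, cond_true]
  obtain ⟨q, hq1, hq2⟩ := hV2 _ _ _ _ hreq
  obtain ⟨M, hM1, hM2⟩ := hc q x y hq2
  refine ⟨M, hM1, ?_⟩
  have h1 : ν (x, y) ≤ 2 * (1 / 2) ^ k := by
    rcases Nat.eq_zero_or_pos k with h0 | h0
    · rw [h0, pow_zero, mul_one]
      refine le_trans (ENNReal.le_tsum y) ((hsum x).trans (by norm_num))
    · have h2 := not_lt.1 (hmin (k - 1) (by omega))
      refine h2.trans (le_of_eq ?_)
      obtain ⟨m, hm⟩ : ∃ m, k = m + 1 := ⟨k - 1, by omega⟩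
      rw [hm]
      simp only [Nat.add_sub_cancel]
      rw [pow_succ, mul_comm, mul_assoc, one_div,
        ENNReal.inv_mul_cancel (by norm_num) (by norm_num), mul_one]
  refine h1.trans ?_
  have h3 : M.length ≤ k + 2 + c := by omega
  have h4 : (1 / 2 : ℝ≥0∞) ^ (k + 2 + c) ≤ (1 / 2) ^ M.length :=
    pow_le_pow_right_of_le_one' (by rw [one_div]; exact ENNReal.one_half_lt_one.le) h3
  refine le_trans (le_of_eq ?_) (mul_le_mul_right h4 (2 ^ (c + 3)))
  have h5 : (2 : ℝ≥0∞) ^ (c + 3) = 2 * 2 ^ (2 + c) := by rw [← pow_succ']; congr 1; ring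
  have h6 : (2 : ℝ≥0∞) ^ (2 + c) * (1 / 2) ^ (2 + c) = 1 := by
    rw [← mul_pow, one_div, ENNReal.mul_inv_cancel (by norm_num) (by norm_num), one_pow]
  rw [h5, add_assoc k 2 c, pow_add (1 / 2 : ℝ≥0∞) k (2 + c)]
  calc (2 : ℝ≥0∞) * (1 / 2) ^ k = 2 * (1 / 2) ^ k * (2 ^ (2 + c) * (1 / 2) ^ (2 + c)) := by
        rw [h6, mul_one]
    _ = _ := by ring

end Pool.Agent.Mut
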