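import Pool.Agent.Mut.Kernel

/-!
# Destroying mutations
-/

open MeasureTheory
open scoped ENNReal NNReal
open Pool.Agent.Rand

namespace Pool.Agent.Mut

variable {U : List Bool → List Bool →. ℕ} {p : ℕ → List Bool}

lemma exists_program (hU : IsOptimal U) (y : ℕ) : ∃ M, y ∈ U M [] := by
  have h1 : LSC (fun q : List Bool × ℕ => (1 / 2 : ℝ≥0∞) ^ (q.2 + 1)) :=
    LSC.half_pow (comp_succ Computable.snd)
  obtain ⟨c, hc⟩ := coding hU h1 (fun x => by
    have := tsum_half_pow_add 0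
    simp only [add_zero, pow_zero] at this
    exact this.le)
  obtain ⟨M, hM, _⟩ := hc [] y (pow_ne_zero _ (by simp))
  exact ⟨M, hM⟩

/-- canonical organisms -/
lemma exists_canon (hU : IsOptimal U) (T : Stages U) :
    ∃ canon : ℕ → List Bool, Computable canon ∧ ∀ n, n ∈ U (canon n) [] := by
  classical
  let F : ℕ → ℕ → Option (List Bool) := fun n i =>
    (Encodable.decode₂ (List Bool) i.unpair.1).bind (fun M =>
      bif decide (T.W i.unpair.2 (M, []) = some n) then some M else none)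
  have hF : Computable₂ F := by
    have h0 : Computable (fun q : ℕ × ℕ => q.2.unpair) := Computable.unpair.comp Computable.snd
    refine Computable.option_bind (computable_decode₂.comp (Computable.fst.comp h0)) ?_
    refine Computable.cond ?_ (Computable.option_some.comp Computable.snd) (Computable.const none)
    exact comp_eq (T.comp_W (Computable.snd.comp (h0.comp Computable.fst)) Computable.snd
      (Computable.const [])) (Computable.option_some.comp (Computable.fst.comp Computable.fst))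
  have hFs : ∀ n i M, F n i = some M → n ∈ U M [] := by
    intro n i M h
    simp only [F] at h
    obtain ⟨M', hM', h2⟩ := Option.bind_eq_some_iff.1 h
    by_cases hc : T.W i.unpair.2 (M', []) = some n
    · rw [decide_eq_true hc, cond_true] at h2
      rw [← Option.some.inj h2]
      exact T.sound _ _ _ hc
    · rw [decide_eq_false hc, cond_false] at h2
      exact absurd h2 (by simp)
  have hdom : ∀ n, (Nat.rfindOpt (F n)).Dom := by
    intro n
    rw [Nat.rfindOpt_dom]
    obtain ⟨M, hM⟩ := exists_program hU n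
    obtain ⟨s, hs⟩ := T.complete (M, []) n hM
    refine ⟨Nat.pair (Encodable.encode M) s, M, ?_⟩
    simp only [F, Nat.unpair_pair, Encodable.encodek₂, Option.bind_some]
    rw [decide_eq_true hs, cond_true]
    exact Option.mem_some_self M
  refine ⟨fun n => (Nat.rfindOpt (F n)).get (hdom n), ?_, ?_⟩
  · exact Partrec.of_eq_tot (Partrec.rfindOpt hF) (fun n => Part.get_mem _)
  · intro n
    obtain ⟨i, hi⟩ := Nat.rfindOpt_spec (Part.get_mem (hdom n))
    exact hFs n i _ hi

variable (p) in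
/-- the part of the cell `(om n, om (n+1)]` in the interval of length `2^{-e}` to the right of
`om φ` -/
noncomputable def cw (e φ n : ℕ) : ℝ≥0 :=
  min (om p (n + 1)) (om p φ + (1 / 2) ^ e) - min (om p n) (om p φ + (1 / 2) ^ e)

lemma cw_add (e φ n : ℕ) : cw p e φ n + min (om p n) (om p φ + (1 / 2) ^ e) =
    min (om p (n + 1)) (om p φ + (1 / 2) ^ e) :=
  tsub_add_cancel_of_le (min_le_min_right _ (om_strictMono (Nat.lt_succ_self n)).le)

lemma sum_cw (e φ N : ℕ) : (∑ n ∈ Finset.range N, if φ ≤ n then cw p e φ n else 0) + om p φ =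
    min (om p (max N φ)) (om p φ + (1 / 2) ^ e) := by
  induction N with
  | zero =>
    rw [Finset.sum_range_zero, zero_add, Nat.zero_max]
    exact (min_eq_left le_self_add).symm
  | succ N ih =>
    rw [Finset.sum_range_succ, add_right_comm, ih]
    by_cases h : φ ≤ N
    · rw [if_pos h, max_eq_left h, max_eq_left (h.trans (Nat.le_succ N)), add_comm, cw_add]
    · rw [if_neg h, add_zero, max_eq_right (by omega), max_eq_right (by omega)]

lemma sum_cw_le (e φ N : ℕ) : (∑ n ∈ Finset.range N, if φ ≤ n then 2 ^ e * cw p e φ n else 0) ≤ 1 := by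
  have h1 := sum_cw (p := p) e φ N
  have h2 : (∑ n ∈ Finset.range N, if φ ≤ n then cw p e φ n else 0) + om p φ ≤
      (1 / 2) ^ e + om p φ := by
    rw [h1, add_comm]; exact min_le_right _ _
  have h3 := le_of_add_le_add_right h2
  calc (∑ n ∈ Finset.range N, if φ ≤ n then 2 ^ e * cw p e φ n else 0)
      = 2 ^ e * ∑ n ∈ Finset.range N, (if φ ≤ n then cw p e φ n else 0) := by
        rw [Finset.mul_sum]
        refine Finset.sum_congr rfl (fun n _ => ?_)
        split_ifs <;> simp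
    _ ≤ 2 ^ e * (1 / 2) ^ e := by gcongr
    _ = 1 := by rw [mul_comm]; exact half_mul_two_pow e

lemma tsum_cw_le (e φ : ℕ) :
    ∑' n, (if φ ≤ n then ((2 ^ e * cw p e φ n : ℝ≥0) : ℝ≥0∞) else 0) ≤ 1 := by
  refine ENNReal.tsum_le_of_sum_range_le (fun N => ?_)
  have := sum_cw_le (p := p) e φ N
  rw [← ENNReal.coe_le_coe, ENNReal.ofNNReal_finsetSum] at this
  refine le_trans (Finset.sum_le_sum (fun n _ => ?_)) this
  split_ifs <;> simp

lemma sum_scale_le (Δ : ℝ≥0) (E : ℕ) :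
    8 * (∑ e ∈ Finset.range E, if 2 ^ e * Δ ≤ 4 then Δ * 2 ^ e / 8 else 0) ≤
      min (2 ^ E * Δ) 8 := by
  induction E with
  | zero => simp
  | succ E ih =>
    rw [Finset.sum_range_succ, mul_add]
    by_cases h : 2 ^ E * Δ ≤ 4
    · rw [if_pos h]
      have h1 : (8 : ℝ≥0) * (Δ * 2 ^ E / 8) = 2 ^ E * Δ := by
        rw [mul_comm, div_mul_cancel₀ _ (by norm_num), mul_comm]
      rw [h1]
      have h2 := ih.trans (min_le_left _ _)
      refine le_min ?_ ?_
      · calc _ ≤ 2 ^ E * Δ + 2 ^ E * Δ := by gcongr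
          _ = _ := by rw [pow_succ]; ring
      · calc _ ≤ 2 ^ E * Δ + 2 ^ E * Δ := by gcongr
          _ ≤ 4 + 4 := by gcongr
          _ = 8 := by norm_num
    · rw [if_neg h, mul_zero, add_zero]
      refine ih.trans (min_le_min_right _ ?_)
      rw [pow_succ, mul_right_comm]
      exact le_mul_of_one_le_right zero_le (by norm_num)

lemma tsum_scale_le (Δ : ℝ≥0) :
    ∑' e : ℕ, (if 2 ^ e * Δ ≤ 4 then ((Δ * 2 ^ e / 8 : ℝ≥0) : ℝ≥0∞) else 0) ≤ 1 := by
  refine ENNReal.tsum_le_of_sum_range_le (fun E => ?_)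
  have h := (sum_scale_le Δ E).trans (min_le_right _ _)
  have h2 : (∑ e ∈ Finset.range E, if 2 ^ e * Δ ≤ 4 then Δ * 2 ^ e / 8 else 0) ≤ 1 := by
    have h3 : (8 : ℝ≥0) * (∑ e ∈ Finset.range E, if 2 ^ e * Δ ≤ 4 then Δ * 2 ^ e / 8 else 0) ≤
        8 * 1 := by rwa [mul_one]
    exact le_of_mul_le_mul_left h3 (by norm_num)
  rw [← ENNReal.coe_le_coe, ENNReal.ofNNReal_finsetSum] at h2
  refine le_trans (Finset.sum_le_sum (fun n _ => ?_)) h2
  split_ifs <;> simp

namespace Stages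

variable (T : Stages U)

/-- value computed at stage `z` for the fitness -/
def fz (z : ℕ) (A : List Bool) : ℕ := (T.W z (A, [])).getD 0

lemma comp_fz {α : Type*} [Primcodable α] {z : α → ℕ} {A : α → List Bool} (hz : Computable z)
    (hA : Computable A) : Computable (fun r => T.fz (z r) (A r)) :=
  Computable.option_getD (T.comp_W hz hA (Computable.const [])) (Computable.const 0)

lemma fz_eq {z : ℕ} {A : List Bool} {φ : ℕ} (hφ : φ ∈ U A []) {B : List Bool}
    (h : T.kap (A, (z, B)) ≠ 0) : T.fz z A = φ := by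
  obtain ⟨a, b, h1, _⟩ := T.kap_ne_zero h
  unfold fz
  rw [h1]
  exact Part.mem_unique (T.sound _ _ _ h1) hφ

/-- **Destroying mutations.** -/
theorem destroy (hU : IsOptimal U) (hp : IsEnumeration U p) {canon : ℕ → List Bool}
    (hcc : Computable canon) (hcn : ∀ n, n ∈ U (canon n) []) :
    ∃ c : ℕ, ∀ (A : List Bool) (φ e n : ℕ), φ ∈ U A [] → φ ≤ n → (1 / 2) ^ e ≤ gap p φ / 2 →
      gap p φ / 4 < (1 / 2) ^ e →
      (∑' q : ℕ × List Bool, T.kap (A, q) * (((om p q.1 - om p φ) / gap p φ : ℝ≥0) : ℝ≥0∞)) *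
        ((2 ^ e * cw p e φ n : ℝ≥0) : ℝ≥0∞) ≤
      2 ^ c * ∑' z : ℕ, T.kap (A, (z, canon (n + 1))) := by
  classical
  let cnd : List Bool → ℕ → ℕ → ℕ → ℕ → Prop := fun A y z e n =>
    2 ^ e * (om p z - om p (T.fz z A)) ≤ 4 ∧ T.fz z A ≤ n ∧ y = Encodable.encode (canon (n + 1))
  let wt : List Bool → ℕ → ℕ → ℕ → ℝ≥0 := fun A z e n =>
    (om p z - om p (T.fz z A)) * 2 ^ e / 8 * (2 ^ e * cw p e (T.fz z A) n)
  let ν : List Bool × ℕ → ℝ≥0∞ := fun a => ∑' q : ℕ × List Bool, T.kap (a.1, q) *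
    ∑' e : ℕ, ∑' n : ℕ, if cnd a.1 a.2 q.1 e n then ((wt a.1 q.1 e n : ℝ≥0) : ℝ≥0∞) else 0
  have hν : LSC ν := by
    refine LSC.tsum (f := fun a : (List Bool × ℕ) × (ℕ × List Bool) => T.kap (a.1.1, a.2) *
      ∑' e : ℕ, ∑' n : ℕ, if cnd a.1.1 a.1.2 a.2.1 e n then
        ((wt a.1.1 a.2.1 e n : ℝ≥0) : ℝ≥0∞) else 0) ?_
    refine LSC.mul (T.lsc_kap (z := fun a : (List Bool × ℕ) × (ℕ × List Bool) => a.2.1)
      (A := fun a => a.1.1) (B := fun a => a.2.2) (Computable.fst.comp Computable.snd)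
      (Computable.fst.comp Computable.fst) (Computable.snd.comp Computable.snd)) ?_
    refine LSC.tsum (f := fun a : ((List Bool × ℕ) × (ℕ × List Bool)) × ℕ =>
      ∑' n : ℕ, if cnd a.1.1.1 a.1.1.2 a.1.2.1 a.2 n then
        ((wt a.1.1.1 a.1.2.1 a.2 n : ℝ≥0) : ℝ≥0∞) else 0) ?_
    refine LSC.tsum (f := fun a : (((List Bool × ℕ) × (ℕ × List Bool)) × ℕ) × ℕ =>
      if cnd a.1.1.1.1 a.1.1.1.2 a.1.1.2.1 a.1.2 a.2 then
        ((wt a.1.1.1.1 a.1.1.2.1 a.1.2 a.2 : ℝ≥0) : ℝ≥0∞) else 0) ?_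
    have c0 : Computable (fun a : (((List Bool × ℕ) × (ℕ × List Bool)) × ℕ) × ℕ => a.1.1) :=
      Computable.fst.comp Computable.fst
    have cA : Computable (fun a : (((List Bool × ℕ) × (ℕ × List Bool)) × ℕ) × ℕ => a.1.1.1.1) :=
      Computable.fst.comp (Computable.fst.comp c0)
    have cy : Computable (fun a : (((List Bool × ℕ) × (ℕ × List Bool)) × ℕ) × ℕ => a.1.1.1.2) :=
      Computable.snd.comp (Computable.fst.comp c0)
    have cz : Computable (fun a : (((List Bool × ℕ) × (ℕ × List Bool)) × ℕ) × ℕ => a.1.1.2.1) :=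
      Computable.fst.comp (Computable.snd.comp c0)
    have ce : Computable (fun a : (((List Bool × ℕ) × (ℕ × List Bool)) × ℕ) × ℕ => a.1.2) :=
      Computable.snd.comp Computable.fst
    have cn : Computable (fun a : (((List Bool × ℕ) × (ℕ × List Bool)) × ℕ) × ℕ => a.2) :=
      Computable.snd
    have cf := T.comp_fz cz cA
    have qz : QC (fun a : (((List Bool × ℕ) × (ℕ × List Bool)) × ℕ) × ℕ => om p a.1.1.2.1) :=
      (qc_om hp).comp cz
    have qf : QC (fun a : (((List Bool × ℕ) × (ℕ × List Bool)) × ℕ) × ℕ =>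
        om p (T.fz a.1.1.2.1 a.1.1.1.1)) := (qc_om hp).comp cf
    have qn : QC (fun a : (((List Bool × ℕ) × (ℕ × List Bool)) × ℕ) × ℕ => om p a.2) :=
      (qc_om hp).comp cn
    have qn1 : QC (fun a : (((List Bool × ℕ) × (ℕ × List Bool)) × ℕ) × ℕ => om p (a.2 + 1)) :=
      (qc_om hp).comp (comp_succ cn)
    have q2e : QC (fun a : (((List Bool × ℕ) × (ℕ × List Bool)) × ℕ) × ℕ => (2 : ℝ≥0) ^ a.1.2) :=
      (QC.pow_const (c := 2) ce).of_eq (fun r => by push_cast; rfl)
    have q4 : QC (fun _ : (((List Bool × ℕ) × (ℕ × List Bool)) × ℕ) × ℕ => (4 : ℝ≥0)) :=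
      (QC.nat (Computable.const 4)).of_eq (fun r => by push_cast; rfl)
    have q8 : QC (fun _ : (((List Bool × ℕ) × (ℕ × List Bool)) × ℕ) × ℕ => (8 : ℝ≥0)) :=
      (QC.nat (Computable.const 8)).of_eq (fun r => by push_cast; rfl)
    have qΔ := qz.sub qf
    have qβ := qf.add (QC.half_pow ce)
    have qcw : QC (fun a : (((List Bool × ℕ) × (ℕ × List Bool)) × ℕ) × ℕ =>
        cw p a.1.2 (T.fz a.1.1.2.1 a.1.1.1.1) a.2) := (qn1.min qβ).sub (qn.min qβ)
    refine LSC.ite (p := fun a : (((List Bool × ℕ) × (ℕ × List Bool)) × ℕ) × ℕ =>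
      cnd a.1.1.1.1 a.1.1.1.2 a.1.1.2.1 a.1.2 a.2) ?_ ?_
    · have h1 := (q2e.mul qΔ).le q4
      have h2 := comp_le cf cn
      have h3 := comp_eq cy (Computable.encode.comp (hcc.comp (comp_succ cn)))
      refine (comp_and h1 (comp_and h2 h3)).of_eq (fun a => ?_)
      rw [Bool.eq_iff_iff]
      simp [cnd]
    · exact (((qΔ.mul q2e).div q8).mul (q2e.mul qcw)).lsc
  have hbnd : ∀ (A : List Bool) (z : ℕ), ∑' e : ℕ, ∑' n : ℕ, ∑' y : ℕ,
      (if cnd A y z e n then ((wt A z e n : ℝ≥0) : ℝ≥0∞) else 0) ≤ 1 := by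
    intro A z
    refine le_trans (ENNReal.tsum_le_tsum (fun e => ?_))
      (tsum_scale_le (om p z - om p (T.fz z A)))
    have h1 : ∀ n, ∑' y : ℕ, (if cnd A y z e n then ((wt A z e n : ℝ≥0) : ℝ≥0∞) else 0) ≤
        (if 2 ^ e * (om p z - om p (T.fz z A)) ≤ 4 then
          (((om p z - om p (T.fz z A)) * 2 ^ e / 8 : ℝ≥0) : ℝ≥0∞) else 0) *
          (if T.fz z A ≤ n then ((2 ^ e * cw p e (T.fz z A) n : ℝ≥0) : ℝ≥0∞) else 0) := by
      intro n
      by_cases h2 : 2 ^ e * (om p z - om p (T.fz z A)) ≤ 4 ∧ T.fz z A ≤ n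
      · rw [if_pos h2.1, if_pos h2.2, tsum_eq_single (Encodable.encode (canon (n + 1)))]
        · rw [if_pos (show cnd A _ z e n from ⟨h2.1, h2.2, rfl⟩), ← ENNReal.coe_mul]
        · intro y hy
          rw [if_neg]
          rintro ⟨_, _, h3⟩
          exact hy h3
      · rw [ENNReal.tsum_eq_zero.2]
        · exact zero_le
        · intro y
          rw [if_neg]
          rintro ⟨h3, h4, _⟩
          exact h2 ⟨h3, h4⟩
    refine (ENNReal.tsum_le_tsum h1).trans ?_
    rw [ENNReal.tsum_mul_left]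
    exact mul_le_of_le_one_right zero_le (tsum_cw_le e _)
  have hsum : ∀ A, ∑' y, ν (A, y) ≤ 1 := by
    intro A
    simp only [ν]
    rw [ENNReal.tsum_comm]
    simp only [ENNReal.tsum_mul_left]
    refine le_trans (ENNReal.tsum_le_tsum (fun q => ?_)) (T.tsum_kap_le_one hU.1 A)
    refine mul_le_of_le_one_right zero_le ?_
    refine le_trans (le_of_eq ?_) (hbnd A q.1)
    rw [ENNReal.tsum_comm]
    refine tsum_congr (fun e => ?_)
    rw [ENNReal.tsum_comm]
  obtain ⟨c, hc⟩ := coding hU hν hsum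
  refine ⟨c + 2, fun A φ e n hφ hφn he1 he2 => ?_⟩
  have hgap := gap_pos hU.1 hp φ
  -- lower bound for `ν`
  have hlow : (∑' q : ℕ × List Bool, T.kap (A, q) * (((om p q.1 - om p φ) / gap p φ : ℝ≥0) : ℝ≥0∞)) *
        ((2 ^ e * cw p e φ n : ℝ≥0) : ℝ≥0∞) ≤ 4 * ν (A, Encodable.encode (canon (n + 1))) := by
    simp only [ν]
    rw [← ENNReal.tsum_mul_right, ← ENNReal.tsum_mul_left]
    refine ENNReal.tsum_le_tsum (fun q => ?_)
    by_cases hq : T.kap (A, q) = 0
    · rw [hq]; simp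
    · have hf : T.fz q.1 A = φ := T.fz_eq hφ (B := q.2) hq
      have hgz : om p q.1 - om p φ ≤ gap p φ := by
        unfold gap
        exact tsub_le_tsub_right (om_lt_Om hU.1 hp q.1).le _
      have h2e : (2 : ℝ≥0) ^ e * gap p φ < 4 := by
        have h1 : gap p φ < 4 * (1 / 2) ^ e := by
          rw [div_lt_iff₀ (by norm_num)] at he2
          rwa [mul_comm]
        calc (2 : ℝ≥0) ^ e * gap p φ < 2 ^ e * (4 * (1 / 2) ^ e) := by gcongr
          _ = 4 * ((1 / 2) ^ e * 2 ^ e) := by ring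
          _ = 4 := by rw [half_mul_two_pow, mul_one]
      have hcnd : cnd A (Encodable.encode (canon (n + 1))) q.1 e n := by
        refine ⟨?_, ?_, rfl⟩
        · rw [hf]
          calc 2 ^ e * (om p q.1 - om p φ) ≤ 2 ^ e * gap p φ := by gcongr
            _ ≤ 4 := h2e.le
        · rw [hf]; exact hφn
      have hwt : (om p q.1 - om p φ) / gap p φ * (2 ^ e * cw p e φ n) ≤ 4 * wt A q.1 e n := by
        simp only [wt, hf]
        have h3 : (om p q.1 - om p φ) / gap p φ ≤ 4 * ((om p q.1 - om p φ) * 2 ^ e / 8) := by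
          have h4 : (1 : ℝ≥0) ≤ 2 ^ e * (gap p φ / 2) := by
            calc (1 : ℝ≥0) = (1 / 2) ^ e * 2 ^ e := (half_mul_two_pow e).symm
              _ ≤ (gap p φ / 2) * 2 ^ e := by gcongr
              _ = _ := mul_comm _ _
          rw [div_le_iff₀ hgap]
          calc om p q.1 - om p φ = (om p q.1 - om p φ) * 1 := (mul_one _).symm
            _ ≤ (om p q.1 - om p φ) * (2 ^ e * (gap p φ / 2)) := by gcongr
            _ = 4 * ((om p q.1 - om p φ) * 2 ^ e / 8) * gap p φ := by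
              field_simp
              ring
        calc (om p q.1 - om p φ) / gap p φ * (2 ^ e * cw p e φ n)
            ≤ (4 * ((om p q.1 - om p φ) * 2 ^ e / 8)) * (2 ^ e * cw p e φ n) := by gcongr
          _ = _ := by ring
      rw [mul_assoc, ← ENNReal.coe_mul]
      calc T.kap (A, q) * (((om p q.1 - om p φ) / gap p φ * (2 ^ e * cw p e φ n) : ℝ≥0) : ℝ≥0∞)
          ≤ T.kap (A, q) * ((4 * wt A q.1 e n : ℝ≥0) : ℝ≥0∞) :=
            mul_le_mul_right (ENNReal.coe_le_coe.2 hwt) _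
        _ = 4 * (T.kap (A, q) * ((wt A q.1 e n : ℝ≥0) : ℝ≥0∞)) := by
            rw [ENNReal.coe_mul]
            push_cast
            ring
        _ ≤ _ := by
            refine mul_le_mul_right (mul_le_mul_right ?_ _) _
            refine le_trans ?_ (ENNReal.le_tsum e)
            refine le_trans ?_ (ENNReal.le_tsum n)
            rw [if_pos hcnd]
  refine hlow.trans ?_
  by_cases h0 : ν (A, Encodable.encode (canon (n + 1))) = 0
  · rw [h0]; simp
  · obtain ⟨M, hM1, hM2⟩ := hc _ _ h0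
    have hacc : Accepts U A M (canon (n + 1)) := ⟨hM1, φ, hφ, n + 1, hcn _, by omega⟩
    have h1 := T.le_tsum_kap hacc
    calc 4 * ν (A, Encodable.encode (canon (n + 1))) ≤ 4 * (2 ^ c * (1 / 2) ^ M.length) :=
          mul_le_mul_right hM2 _
      _ ≤ 4 * (2 ^ c * ∑' z : ℕ, T.kap (A, (z, canon (n + 1)))) :=
          mul_le_mul_right (mul_le_mul_right h1 _) _
      _ = _ := by rw [pow_add, ← mul_assoc]; norm_num; ring

end Stages

end Pool.Agent.Mut
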