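import Pool.Agent.Mut.KC

/-!
# Optimal conditional prefix machines exist
-/

open Pool.Agent.Rand

namespace Pool.Agent.Mut

/-- stage `s` of the computation of the `e`-th partial function on the program `q` with input
`x` -/
def ev (e s : ℕ) (q x : List Bool) : Option ℕ :=
  Nat.Partrec.Code.evaln s (Denumerable.ofNat Nat.Partrec.Code e) (Encodable.encode (q, x))

/-- comparable strings -/
def cmpb (q q' : List Bool) : Bool :=
  decide (q.take q'.length = q') || decide (q'.take q.length = q)

/-- the computation on `q` halts at stage `s` for the first time, and no other comparable program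
halts by this stage -/
def okb (e s : ℕ) (q x : List Bool) : Bool :=
  (ev e s q x).isSome && !((ev e (s - 1) q x).isSome) &&
    (List.range s).all (fun i => (Encodable.decode₂ (List Bool) i).elim true (fun q' =>
      !(cmpb q q' && !(decide (q' = q)) && (ev e s q' x).isSome)))

lemma ev_mono {e s t : ℕ} (h : s ≤ t) {q x : List Bool} {y : ℕ} (hy : ev e s q x = some y) :
    ev e t q x = some y :=
  Nat.Partrec.Code.evaln_mono h hy

lemma ev_isSome_mono {e s t : ℕ} (h : s ≤ t) {q x : List Bool} (hy : (ev e s q x).isSome = true) :
    (ev e t q x).isSome = true := by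
  rw [Option.isSome_iff_exists] at hy ⊢
  obtain ⟨y, hy⟩ := hy
  exact ⟨y, ev_mono h hy⟩

lemma ev_bound {e s : ℕ} {q x : List Bool} (h : (ev e s q x).isSome = true) :
    Encodable.encode q < s := by
  rw [Option.isSome_iff_exists] at h
  obtain ⟨y, hy⟩ := h
  have h1 := Nat.Partrec.Code.evaln_bound hy
  refine lt_of_le_of_lt ?_ h1
  rw [Encodable.encode_prod_val]
  exact Nat.left_le_pair _ _

lemma cmpb_iff {q q' : List Bool} : cmpb q q' = true ↔ q' <+: q ∨ q <+: q' := by
  unfold cmpb
  rw [Bool.or_eq_true, decide_eq_true_eq, decide_eq_true_eq, List.prefix_iff_eq_take,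
    List.prefix_iff_eq_take]
  constructor
  · rintro (h | h)
    · exact Or.inl h.symm
    · exact Or.inr h.symm
  · rintro (h | h)
    · exact Or.inl h.symm
    · exact Or.inr h.symm

lemma okb_iff {e s : ℕ} {q x : List Bool} : okb e s q x = true ↔
    (ev e s q x).isSome = true ∧ (ev e (s - 1) q x).isSome = false ∧
      ∀ q', (q' <+: q ∨ q <+: q') → q' ≠ q → (ev e s q' x).isSome = false := by
  unfold okb
  rw [Bool.and_eq_true, Bool.and_eq_true, Bool.not_eq_true', and_assoc]
  refine and_congr_right (fun _ => and_congr_right (fun _ => ?_))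
  rw [List.all_eq_true]
  constructor
  · intro h q' hc hne
    by_contra hcon
    rw [Bool.not_eq_false] at hcon
    have h1 := h (Encodable.encode q') (List.mem_range.2 (ev_bound hcon))
    rw [Encodable.encodek₂] at h1
    simp only [Option.elim_some] at h1
    rw [cmpb_iff.2 hc, decide_eq_false hne, hcon] at h1
    simp at h1
  · intro h i _
    cases hd : Encodable.decode₂ (List Bool) i with
    | none => simp
    | some q' =>
      simp only [Option.elim_some]
      by_cases hc : cmpb q q' = true
      · by_cases hne : q' = q
        · simp [hne]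
        · rw [h q' (cmpb_iff.1 hc) hne]
          simp
      · rw [Bool.not_eq_true] at hc
        simp [hc]

lemma okb_unique_stage {e s t : ℕ} {q x : List Bool} (h : okb e s q x = true)
    (h' : okb e t q x = true) : s = t := by
  rw [okb_iff] at h h'
  have key : ∀ s t : ℕ, s < t → (ev e s q x).isSome = true → (ev e (t - 1) q x).isSome = false →
      False := by
    intro s t hst h1 h2
    have := ev_isSome_mono (show s ≤ t - 1 by omega) h1
    rw [this] at h2
    simp at h2
  rcases lt_trichotomy s t with hlt | hlt | hlt
  · exact (key s t hlt h.1 h'.2.1).elim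
  · exact hlt
  · exact (key t s hlt h'.1 h.2.1).elim

lemma okb_prefix {e s t : ℕ} {q q' x : List Bool} (h : okb e s q x = true)
    (h' : okb e t q' x = true) (hq : q <+: q') : q = q' := by
  by_contra hne
  rw [okb_iff] at h h'
  rcases le_total s t with hst | hst
  · have h1 := h'.2.2 q (Or.inl hq) hne
    have h2 := ev_isSome_mono hst h.1
    rw [h1] at h2
    simp at h2
  · have h1 := h.2.2 q' (Or.inr hq) (fun h => hne h.symm)
    have h2 := ev_isSome_mono hst h'.1
    rw [h1] at h2
    simp at h2

variable {α : Type*} [Primcodable α]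

lemma comp_ev {e s : α → ℕ} {q x : α → List Bool} (he : Computable e) (hs : Computable s)
    (hq : Computable q) (hx : Computable x) : Computable (fun a => ev (e a) (s a) (q a) (x a)) :=
  Nat.Partrec.Code.primrec_evaln.to_comp.comp
    ((hs.pair ((Computable.ofNat _).comp he)).pair (Computable.encode.comp (hq.pair hx)))

lemma comp_isSome {σ : Type*} [Primcodable σ] {f : α → Option σ} (hf : Computable f) :
    Computable (fun a => (f a).isSome) := Primrec.option_isSome.to_comp.comp hf

lemma comp_okb {e s : α → ℕ} {q x : α → List Bool} (he : Computable e) (hs : Computable s)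
    (hq : Computable q) (hx : Computable x) : Computable (fun a => okb (e a) (s a) (q a) (x a)) := by
  unfold okb
  refine comp_and (comp_and (comp_isSome (comp_ev he hs hq hx)) (comp_not (comp_isSome
    (comp_ev he (comp_sub hs (Computable.const 1)) hq hx)))) ?_
  refine computable_all (f := fun a => List.range (s a)) (p := fun a i =>
    (Encodable.decode₂ (List Bool) i).elim true (fun q' =>
      !(cmpb (q a) q' && !(decide (q' = q a)) && (ev (e a) (s a) q' (x a)).isSome)))
    (Primrec.list_range.to_comp.comp hs) ?_
  have h1 : Computable (fun r : α × ℕ => (Option.casesOn (Encodable.decode₂ (List Bool) r.2) true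
      (fun q' => !(cmpb (q r.1) q' && !(decide (q' = q r.1)) &&
        (ev (e r.1) (s r.1) q' (x r.1)).isSome)) : Bool)) := by
    refine Computable.option_casesOn (o := fun r : α × ℕ => Encodable.decode₂ (List Bool) r.2)
      (f := fun _ => true) (g := fun r q' => !(cmpb (q r.1) q' && !(decide (q' = q r.1)) &&
        (ev (e r.1) (s r.1) q' (x r.1)).isSome)) (computable_decode₂.comp Computable.snd)
      (Computable.const true) ?_
    have c1 : Computable (fun w : (α × ℕ) × List Bool => w.1.1) :=
      Computable.fst.comp Computable.fst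
    have c2 : Computable (fun w : (α × ℕ) × List Bool => w.2) := Computable.snd
    have cq := hq.comp c1
    refine comp_not (comp_and (comp_and ?_ (comp_not (comp_eq c2 cq)))
      (comp_isSome (comp_ev (he.comp c1) (hs.comp c1) c2 (hx.comp c1))))
    unfold cmpb
    exact comp_or (comp_eq (comp_take (Computable.list_length.comp c2) cq) c2)
      (comp_eq (comp_take (Computable.list_length.comp cq) c2) cq)
  refine h1.of_eq (fun r => ?_)
  beta_reduce
  cases Encodable.decode₂ (List Bool) r.2 with
  | none => rfl
  | some q' => rfl

/-- index coded at the beginning of a program -/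
def idx (r : List Bool) : ℕ := r.findIdx (fun b => b)

/-- the rest of the program -/
def rst (r : List Bool) : List Bool := r.drop (idx r + 1)

lemma comp_idx : Computable idx :=
  (Primrec.list_findIdx (p := fun (_ : List Bool) (b : Bool) => b) Primrec.id
    Primrec.snd).to_comp

lemma comp_rst : Computable rst :=
  Primrec.list_drop.to_comp.comp (comp_succ comp_idx) Computable.id

/-- search step of the universal machine -/
def ustep (a : List Bool × List Bool) (s : ℕ) : Option ℕ :=
  bif decide (idx a.1 < a.1.length) && okb (idx a.1) s (rst a.1) a.2 then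
    ev (idx a.1) s (rst a.1) a.2 else none

lemma comp_ustep : Computable₂ ustep := by
  unfold ustep
  have c1 : Computable (fun w : (List Bool × List Bool) × ℕ => w.1.1) :=
    Computable.fst.comp Computable.fst
  have c2 : Computable (fun w : (List Bool × List Bool) × ℕ => w.1.2) :=
    Computable.snd.comp Computable.fst
  have c3 : Computable (fun w : (List Bool × List Bool) × ℕ => w.2) := Computable.snd
  refine Computable.cond (comp_and (comp_lt (comp_idx.comp c1) (Computable.list_length.comp c1))
    (comp_okb (comp_idx.comp c1) c3 (comp_rst.comp c1) c2))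
    (comp_ev (comp_idx.comp c1) c3 (comp_rst.comp c1) c2) (Computable.const none)

lemma ustep_eq_some {a : List Bool × List Bool} {s y : ℕ} : ustep a s = some y ↔
    idx a.1 < a.1.length ∧ okb (idx a.1) s (rst a.1) a.2 = true ∧
      ev (idx a.1) s (rst a.1) a.2 = some y := by
  unfold ustep
  by_cases h : idx a.1 < a.1.length
  · by_cases h2 : okb (idx a.1) s (rst a.1) a.2 = true
    · simp [h, h2]
    · rw [Bool.not_eq_true] at h2
      simp [h2]
  · simp [h]

/-- a universal conditional prefix machine -/
def univ (q x : List Bool) : Part ℕ := Nat.rfindOpt (ustep (q, x))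

lemma idx_append {r r' : List Bool} (h : r <+: r') (hr : idx r < r.length) : idx r = idx r' := by
  obtain ⟨s, rfl⟩ := h
  unfold idx at hr ⊢
  rw [List.findIdx_append, if_pos hr]

theorem univ_isPrefixMachine : IsPrefixMachine univ := by
  refine ⟨Partrec.rfindOpt comp_ustep, ?_⟩
  intro x r r' hr hr' h
  obtain ⟨y, hy⟩ := Part.dom_iff_mem.1 hr
  obtain ⟨y', hy'⟩ := Part.dom_iff_mem.1 hr'
  obtain ⟨s, hs⟩ := Nat.rfindOpt_spec hy
  obtain ⟨s', hs'⟩ := Nat.rfindOpt_spec hy'
  obtain ⟨h1, h2, _⟩ := ustep_eq_some.1 hs
  obtain ⟨h1', h2', _⟩ := ustep_eq_some.1 hs'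
  have hidx := idx_append h h1
  simp only at h1 h2 h1' h2'
  rw [← hidx] at h2'
  have hrst : rst r <+: rst r' := by
    unfold rst
    rw [← hidx]
    exact h.drop _
  have heq := okb_prefix h2 h2' hrst
  have hlen : (rst r).length = (rst r').length := by rw [heq]
  unfold rst at hlen
  rw [List.length_drop, List.length_drop, ← hidx] at hlen
  rw [← hidx] at h1'
  exact h.eq_of_length (by omega)

/-- **Optimal conditional prefix machines exist.** -/
theorem exists_optimal : ∃ U, IsOptimal U := by
  refine ⟨univ, univ_isPrefixMachine, fun V hV => ?_⟩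
  obtain ⟨c, hc⟩ := Nat.Partrec.Code.exists_code.1 (Partrec.bind_decode₂_iff.1 hV.computable)
  have hev : ∀ a : List Bool × List Bool,
      Nat.Partrec.Code.eval c (Encodable.encode a) = V a.1 a.2 := by
    intro a
    rw [hc]
    simp only [Encodable.encodek₂, Part.coe_some, Part.bind_some]
    exact Part.map_id' (fun _ => rfl) _
  let e : ℕ := Encodable.encode c
  have hsound : ∀ s q x y, ev e s q x = some y → y ∈ V q x := by
    intro s q x y h
    rw [← hev (q, x)]
    unfold ev at h
    rw [Denumerable.ofNat_encode] at h
    exact Nat.Partrec.Code.evaln_sound h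
  have hcomplete : ∀ q x y, y ∈ V q x → ∃ s, ev e s q x = some y := by
    intro q x y h
    rw [← hev (q, x)] at h
    obtain ⟨s, hs⟩ := Nat.Partrec.Code.evaln_complete.1 h
    refine ⟨s, ?_⟩
    unfold ev
    rw [Denumerable.ofNat_encode]
    exact hs
  refine ⟨e + 1, fun q x y hy => ?_⟩
  classical
  obtain ⟨s0, hs0⟩ := hcomplete q x y hy
  have hex : ∃ s, (ev e s q x).isSome = true := ⟨s0, by rw [hs0]; rfl⟩
  obtain ⟨s, hs, hmin⟩ : ∃ s, (ev e s q x).isSome = true ∧
      ∀ t < s, ¬ (ev e t q x).isSome = true :=
    ⟨Nat.find hex, Nat.find_spec hex, fun t ht => Nat.find_min hex ht⟩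
  have hsy : ev e s q x = some y := by
    obtain ⟨z, hz⟩ := Option.isSome_iff_exists.1 hs
    rw [hz, Part.mem_unique (hsound s q x z hz) hy]
  have hspos : 0 < s := by
    have := ev_bound hs
    omega
  have hok : okb e s q x = true := by
    rw [okb_iff]
    refine ⟨hs, ?_, ?_⟩
    · have := hmin (s - 1) (by omega)
      simpa using this
    · intro q' hc' hne
      by_contra hcon
      rw [Bool.not_eq_false, Option.isSome_iff_exists] at hcon
      obtain ⟨z, hz⟩ := hcon
      have hd : (V q' x).Dom := Part.dom_iff_mem.2 ⟨z, hsound s q' x z hz⟩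
      have hd' : (V q x).Dom := Part.dom_iff_mem.2 ⟨y, hy⟩
      rcases hc' with h1 | h1
      · exact hne (hV.prefixFree x _ _ hd hd' h1)
      · exact hne (hV.prefixFree x _ _ hd' hd h1).symm
  -- the program of the universal machine
  set r : List Bool := List.replicate e false ++ true :: q with hr
  have hidx : idx r = e := by
    unfold idx
    rw [hr, List.findIdx_append]
    have h1 : (List.replicate e false).findIdx (fun b => b) = e := by
      rw [List.findIdx_eq_length.2]
      · simp
      · intro b hb
        rw [List.eq_of_mem_replicate hb]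
    rw [if_neg (by rw [h1]; simp)]
    simp [List.findIdx_cons]
  have hrst : rst r = q := by
    unfold rst
    rw [hidx, hr]
    rw [List.drop_append]
    simp
  have hlen : r.length = q.length + (e + 1) := by
    rw [hr]; simp; ring
  have hstep : ustep (r, x) s = some y := by
    rw [ustep_eq_some]
    simp only
    rw [hidx, hrst]
    exact ⟨by omega, hok, hsy⟩
  refine ⟨r, ?_, hlen.le⟩
  have hdom : (univ r x).Dom := Nat.rfindOpt_dom.2 ⟨s, y, hstep⟩
  obtain ⟨w, hw⟩ := Part.dom_iff_mem.1 hdom
  obtain ⟨t, ht⟩ := Nat.rfindOpt_spec hw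
  have ht' : ustep (r, x) t = some w := ht
  obtain ⟨_, h2, h3⟩ := ustep_eq_some.1 ht'
  simp only at h2 h3
  rw [hidx, hrst] at h2 h3
  have hst := okb_unique_stage hok h2
  rw [← hst, hsy] at h3
  rw [Option.some.inj h3]
  exact hw

end Pool.Agent.Mut
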