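import Pool.Agent.Mut.Destroy
import Pool.Agent.Mut.Universal

/-!
# Enumerations of the halting programs exist
-/

open Pool.Agent.Rand

namespace Pool.Agent.Mut

/-- a decidable infinite set of natural numbers has a computable increasing enumeration -/
lemma exists_increasing {P : ℕ → Bool} (hP : Computable P) (hinf : ∀ j, ∃ i, j ≤ i ∧ P i = true) :
    ∃ g : ℕ → ℕ, Computable g ∧ StrictMono g ∧ (∀ n, P (g n) = true) ∧
      ∀ i, P i = true → ∃ n, g n = i := by
  classical
  have hdom : ∀ j, (Nat.rfind (fun i => Part.some (decide (j ≤ i) && P i))).Dom := by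
    intro j
    obtain ⟨i, h1, h2⟩ := hinf j
    refine Nat.rfind_dom.2 ⟨i, ?_, fun _ => trivial⟩
    exact Part.mem_some_iff.2 (by rw [decide_eq_true h1, h2]; rfl)
  let nxt : ℕ → ℕ := fun j => (Nat.rfind (fun i => Part.some (decide (j ≤ i) && P i))).get (hdom j)
  have hnxt : ∀ j, nxt j ∈ Nat.rfind (fun i => Part.some (decide (j ≤ i) && P i)) :=
    fun j => Part.get_mem _
  have hc : Computable nxt := by
    refine Partrec.of_eq_tot (f := fun j => Nat.rfind (fun i => Part.some (decide (j ≤ i) && P i)))
      ?_ hnxt
    refine Partrec.rfind (p := fun (j : ℕ) (i : ℕ) => (Part.some (decide (j ≤ i) && P i) : Part Bool)) ?_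
    exact (comp_and (comp_le Computable.fst Computable.snd) (hP.comp Computable.snd)).partrec
  have h1 : ∀ j, j ≤ nxt j ∧ P (nxt j) = true := by
    intro j
    have h3 := Part.mem_some_iff.1 (Nat.mem_rfind.1 (hnxt j)).1
    have h4 := h3.symm
    rw [Bool.and_eq_true, decide_eq_true_eq] at h4
    exact h4
  have h2 : ∀ j i, j ≤ i → P i = true → nxt j ≤ i := by
    intro j i hji hi
    by_contra hcon
    push Not at hcon
    have h3 := Part.mem_some_iff.1 ((Nat.mem_rfind.1 (hnxt j)).2 hcon)
    rw [decide_eq_true hji, hi] at h3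
    simp at h3
  let g : ℕ → ℕ := fun n => Nat.rec (nxt 0) (fun _ r => nxt (r + 1)) n
  have hg0 : g 0 = nxt 0 := rfl
  have hgs : ∀ n, g (n + 1) = nxt (g n + 1) := fun n => rfl
  have hmono : StrictMono g := by
    refine strictMono_nat_of_lt_succ (fun n => ?_)
    rw [hgs]
    exact (h1 (g n + 1)).1
  refine ⟨g, ?_, hmono, ?_, ?_⟩
  · refine Computable.nat_rec (f := fun n : ℕ => n) (g := fun _ => nxt 0)
      (h := fun _ p => nxt (p.2 + 1)) Computable.id (Computable.const _) ?_
    exact hc.comp (comp_succ (Computable.snd.comp Computable.snd))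
  · intro n
    cases n with
    | zero => rw [hg0]; exact (h1 0).2
    | succ n => rw [hgs]; exact (h1 _).2
  · intro i hi
    have hex : ∃ n, i ≤ g n := ⟨i, hmono.id_le i⟩
    have hex2 : ∃ n, i ≤ g n ∧ ∀ m < n, ¬ i ≤ g m := by
      generalize g = g' at hex
      exact ⟨Nat.find hex, Nat.find_spec hex, fun m hm => Nat.find_min hex hm⟩
    obtain ⟨n, hn, hmin⟩ := hex2
    refine ⟨n, le_antisymm ?_ hn⟩
    cases n with
    | zero => rw [hg0]; exact h2 0 i (Nat.zero_le _) hi
    | succ n =>
      rw [hgs]
      have := hmin n (Nat.lt_succ_self n)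
      exact h2 _ i (by omega) hi

/-- **Computable enumerations without repetitions of the halting programs exist.** -/
theorem exists_enumeration {U : List Bool → List Bool →. ℕ} (hU : IsOptimal U) :
    ∃ p, IsEnumeration U p := by
  classical
  obtain ⟨T⟩ := exists_stages hU.1.computable
  -- first halting stage
  let fs : ℕ → List Bool → Bool := fun s M =>
    (T.W s (M, [])).isSome && !((T.W (s - 1) (M, [])).isSome)
  have hfs0 : ∀ M, (T.W 0 (M, [])).isSome = false := by
    intro M
    rw [Bool.eq_false_iff]
    intro h
    obtain ⟨y, hy⟩ := Option.isSome_iff_exists.1 h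
    exact absurd (T.bound _ _ _ hy) (Nat.not_lt_zero _)
  have hfsmono : ∀ s t M, s ≤ t → (T.W s (M, [])).isSome = true →
      (T.W t (M, [])).isSome = true := by
    intro s t M hst h
    obtain ⟨y, hy⟩ := Option.isSome_iff_exists.1 h
    exact Option.isSome_iff_exists.2 ⟨y, T.mono_le hst hy⟩
  have hfsu : ∀ s t M, fs s M = true → fs t M = true → s = t := by
    have key : ∀ s t M, s < t → fs s M = true → fs t M = true → False := by
      intro s t M hst h1 h2
      simp only [fs, Bool.and_eq_true, Bool.not_eq_true'] at h1 h2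
      have := hfsmono s (t - 1) M (by omega) h1.1
      rw [h2.2] at this
      simp at this
    intro s t M h1 h2
    rcases lt_trichotomy s t with h | h | h
    · exact (key s t M h h1 h2).elim
    · exact h
    · exact (key t s M h h2 h1).elim
  have hfse : ∀ M, (U M []).Dom → ∃ s, fs s M = true := by
    intro M hM
    obtain ⟨y, hy⟩ := Part.dom_iff_mem.1 hM
    obtain ⟨s0, hs0⟩ := T.complete (M, []) y hy
    have hex : ∃ s, (T.W s (M, [])).isSome = true := ⟨s0, by rw [hs0]; rfl⟩
    refine ⟨Nat.find hex, ?_⟩
    simp only [fs, Bool.and_eq_true, Bool.not_eq_true']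
    refine ⟨Nat.find_spec hex, ?_⟩
    rcases Nat.eq_zero_or_pos (Nat.find hex) with h0 | h0
    · rw [h0]; exact hfs0 M
    · have := Nat.find_min hex (show Nat.find hex - 1 < Nat.find hex by omega)
      simpa using this
  let P : ℕ → Bool := fun i => (Encodable.decode₂ (List Bool) i.unpair.1).elim false
    (fun M => fs i.unpair.2 M)
  have hPc : Computable P := by
    have c0 : Computable (fun i : ℕ => i.unpair) := Computable.unpair
    have h1 : Computable (fun i : ℕ => (Option.casesOn
        (Encodable.decode₂ (List Bool) i.unpair.1) false (fun M => fs i.unpair.2 M) : Bool)) := by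
      refine Computable.option_casesOn
        (o := fun i : ℕ => Encodable.decode₂ (List Bool) i.unpair.1) (f := fun _ => false)
        (g := fun i M => fs i.unpair.2 M) (computable_decode₂.comp (Computable.fst.comp c0))
        (Computable.const false) ?_
      have c2 : Computable (fun w : ℕ × List Bool => w.1.unpair.2) :=
        Computable.snd.comp (c0.comp Computable.fst)
      exact comp_and (comp_isSome (T.comp_W c2 Computable.snd (Computable.const [])))
        (comp_not (comp_isSome (T.comp_W (comp_sub c2 (Computable.const 1)) Computable.snd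
          (Computable.const []))))
    refine h1.of_eq (fun i => ?_)
    simp only [P]
    cases Encodable.decode₂ (List Bool) i.unpair.1 with
    | none => rfl
    | some M => rfl
  have hPi : ∀ i, P i = true → ∃ M, Encodable.decode₂ (List Bool) i.unpair.1 = some M ∧
      fs i.unpair.2 M = true := by
    intro i hi
    simp only [P] at hi
    rcases h : Encodable.decode₂ (List Bool) i.unpair.1 with _ | M
    · rw [h] at hi; simp at hi
    · rw [h] at hi
      exact ⟨M, rfl, hi⟩
  have hPm : ∀ M s, fs s M = true → P (Nat.pair (Encodable.encode M) s) = true := by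
    intro M s h
    simp only [P, Nat.unpair_pair, Encodable.encodek₂, Option.elim_some]
    exact h
  have hinf : ∀ j, ∃ i, j ≤ i ∧ P i = true := by
    intro j
    by_contra hcon
    push Not at hcon
    choose M hM using exists_program hU
    choose s hs using fun y => hfse (M y) (Part.dom_iff_mem.2 ⟨y, hM y⟩)
    let φ : ℕ → ℕ := fun y => Nat.pair (Encodable.encode (M y)) (s y)
    have hφ : Function.Injective φ := by
      intro y y' h
      have h1 : Encodable.encode (M y) = Encodable.encode (M y') := (Nat.pair_eq_pair.1 h).1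
      have h2 : M y = M y' := Encodable.encode_injective h1
      have h3 := hM y
      rw [h2] at h3
      exact Part.mem_unique h3 (hM y')
    have hlt : ∀ y, φ y < j := by
      intro y
      by_contra h
      push Not at h
      have := hcon (φ y) h
      rw [hPm (M y) (s y) (hs y)] at this
      exact this rfl
    have := Set.infinite_range_of_injective hφ
    exact this ((Set.finite_lt_nat j).subset (by rintro _ ⟨y, rfl⟩; exact hlt y))
  obtain ⟨g, hgc, hgm, hgP, hgs⟩ := exists_increasing hPc hinf
  let p : ℕ → List Bool := fun n => (Encodable.decode₂ (List Bool) (g n).unpair.1).getD []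
  have hp : ∀ n, ∃ M s, g n = Nat.pair (Encodable.encode M) s ∧ fs s M = true ∧ p n = M := by
    intro n
    obtain ⟨M, hM, hs⟩ := hPi (g n) (hgP n)
    refine ⟨M, (g n).unpair.2, ?_, hs, ?_⟩
    · rw [Encodable.mem_decode₂.1 hM, Nat.pair_unpair]
    · simp only [p]
      rw [hM]; rfl
  refine ⟨p, ?_, ?_, ?_⟩
  · exact Computable.option_getD (computable_decode₂.comp (Computable.fst.comp
      (Computable.unpair.comp hgc))) (Computable.const [])
  · intro m n h
    obtain ⟨M, s, h1, h2, h3⟩ := hp m
    obtain ⟨M', s', h1', h2', h3'⟩ := hp n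
    have hMM : M = M' := by rw [← h3, ← h3', h]
    subst hMM
    have hss := hfsu s s' M h2 h2'
    subst hss
    exact hgm.injective (h1.trans h1'.symm)
  · intro q
    constructor
    · rintro ⟨i, rfl⟩
      obtain ⟨M, s, _, h2, h3⟩ := hp i
      rw [h3]
      simp only [fs, Bool.and_eq_true] at h2
      obtain ⟨y, hy⟩ := Option.isSome_iff_exists.1 h2.1
      exact Part.dom_iff_mem.2 ⟨y, T.sound _ _ _ hy⟩
    · intro hq
      obtain ⟨s, hs⟩ := hfse q hq
      obtain ⟨n, hn⟩ := hgs _ (hPm q s hs)
      refine ⟨n, ?_⟩
      simp only [p]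
      rw [hn]
      simp

end Pool.Agent.Mut
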