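import Pool.Agent.Mut.Process

/-!
# The main theorem
-/

open MeasureTheory Filter
open scoped ENNReal NNReal Topology
open Pool.Agent.Rand

namespace Pool.Agent.Mut

/-- The halting probability `Ω = ∑ i, 2^{-|p i|}`. -/
noncomputable def Omega (p : ℕ → List Bool) : ℝ := ∑' i : ℕ, (1 / 2 : ℝ) ^ (p i).length

/-- Its partial sums `Ω_N = ∑ i < N, 2^{-|p i|}`. -/
noncomputable def OmegaN (p : ℕ → List Bool) (N : ℕ) : ℝ :=
  ∑ i ∈ Finset.range N, (1 / 2 : ℝ) ^ (p i).length

/-- `BB'(K)`: the least `N` such that `Ω_N` and `Ω` have the same first `K` binary digits. -/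
noncomputable def BB (p : ℕ → List Bool) (K : ℕ) : ℕ :=
  sInf {N : ℕ | ⌊(2 : ℝ) ^ K * OmegaN p N⌋ = ⌊(2 : ℝ) ^ K * Omega p⌋}

/-- The first mutation time at which the fitness of the current organism is at least `BB'(N)`
(infinite if there is none). -/
noncomputable def mutationTime (U : List Bool → List Bool →. ℕ) (p : ℕ → List Bool)
    (A : List Bool) (N : ℕ) (ω : Draws) : ℝ≥0∞ :=
  ⨅ t : ℕ, ⨅ _ : BB p N ≤ fitness U (walk U A ω t), (t : ℝ≥0∞)

variable {U : List Bool → List Bool →. ℕ} {p : ℕ → List Bool}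

lemma coe_om (N : ℕ) : ((om p N : ℝ≥0) : ℝ) = OmegaN p N := by
  unfold om OmegaN
  push_cast
  rfl

lemma coe_Om : ((Om p : ℝ≥0) : ℝ) = Omega p := by
  unfold Om Omega
  rw [NNReal.coe_tsum]
  push_cast
  rfl

/-- the halting probability is not a dyadic rational -/
lemma Om_ne_dyadic (hU : IsOptimal U) (hp : IsEnumeration U p) (a m : ℕ) :
    Om p ≠ (a : ℝ≥0) * (1 / 2) ^ m := by
  classical
  intro heq
  let isL : ℕ → ℕ → Prop := fun n k => (a : ℝ≥0) * (1 / 2) ^ m ≤ om p n + (1 / 2) ^ k ∧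
    ¬ (0 < n ∧ (a : ℝ≥0) * (1 / 2) ^ m ≤ om p (n - 1) + (1 / 2) ^ k)
  have hL : ∀ k n n', isL n k → isL n' k → n = n' := by
    intro k
    have key : ∀ n n', n < n' → isL n k → isL n' k → False := by
      intro n n' hlt h1 h2
      refine h2.2 ⟨by omega, h1.1.trans ?_⟩
      have : om p n ≤ om p (n' - 1) := om_strictMono.monotone (by omega)
      gcongr
    intro n n' h1 h2
    rcases lt_trichotomy n n' with hlt | hlt | hlt
    · exact (key n n' hlt h1 h2).elim
    · exact hlt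
    · exact (key n' n hlt h2 h1).elim
  let ν : ℕ × ℕ → ℝ≥0∞ := fun q => if isL q.1 q.2 then (1 / 4) * (3 / 4) ^ q.2 else 0
  have hν : LSC ν := by
    have qa : QC (fun _ : ℕ × ℕ => (a : ℝ≥0) * (1 / 2) ^ m) :=
      (QC.nat (Computable.const a)).mul (QC.half_pow (Computable.const m))
    have q1 : QC (fun q : ℕ × ℕ => om p q.1 + (1 / 2) ^ q.2) :=
      ((qc_om hp).comp Computable.fst).add (QC.half_pow Computable.snd)
    have q2 : QC (fun q : ℕ × ℕ => om p (q.1 - 1) + (1 / 2) ^ q.2) :=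
      ((qc_om hp).comp (comp_sub Computable.fst (Computable.const 1))).add
        (QC.half_pow Computable.snd)
    refine LSC.ite (p := fun q : ℕ × ℕ => isL q.1 q.2) ?_ ?_
    · refine (comp_and (qa.le q1) (comp_not (comp_and (comp_lt (Computable.const 0)
        Computable.fst) (qa.le q2)))).of_eq (fun q => ?_)
      rw [Bool.eq_iff_iff]
      simp [isL]
    · have h3 : QC (fun q : ℕ × ℕ => (1 / 4 : ℝ≥0) * (3 / 4) ^ q.2) := by
        refine QC.mul ?_ (qc_three_quarters Computable.snd)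
        refine ((QC.nat (Computable.const 1)).div (QC.nat (Computable.const 4))).of_eq
          (fun a => ?_)
        push_cast; rfl
      refine h3.lsc.of_eq (fun q => ?_)
      rw [ENNReal.coe_mul, ENNReal.coe_pow, ENNReal.coe_div (by norm_num),
        ENNReal.coe_div (by norm_num)]
      rfl
  have hsum : ∑' q, ν q ≤ 1 := by
    rw [ENNReal.tsum_prod', ENNReal.tsum_comm]
    refine le_trans (ENNReal.tsum_le_tsum (fun k => ?_)) tsum_geom_three_quarters.le
    have h1 := tsum_unique_le (P := fun n => isL n k) (c := (1 / 4 : ℝ≥0∞) * (3 / 4) ^ k)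
      (Q := True) (hL k) (fun _ _ => trivial)
    rw [if_pos trivial] at h1
    exact h1
  obtain ⟨c, hc⟩ := incompress hU hp hν hsum
  have hbound : ∀ k : ℕ, (1 / 4 : ℝ≥0∞) * (3 / 4) ^ k ≤ 2 ^ c * (1 / 2) ^ k := by
    intro k
    have hex : ∃ n, (a : ℝ≥0) * (1 / 2) ^ m ≤ om p n + (1 / 2) ^ k := by
      have h1 : Om p - (1 / 2) ^ k < Om p :=
        tsub_lt_self (lt_of_le_of_lt zero_le (om_lt_Om hU.1 hp 0)) (by positivity)
      obtain ⟨n, hn⟩ := ((tendsto_om hU.1 hp).eventually (lt_mem_nhds h1)).exists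
      refine ⟨n, ?_⟩
      rw [← heq, ← tsub_le_iff_right]
      exact le_of_lt hn
    obtain ⟨n, hn⟩ : ∃ n, isL n k := by
      refine ⟨Nat.find hex, Nat.find_spec hex, ?_⟩
      rintro ⟨h3, h4⟩
      exact Nat.find_min hex (by omega) h4
    refine le_trans ?_ (hc k)
    refine le_trans ?_ (ENNReal.le_tsum n)
    have hgap : gap p n * 2 ^ k < 4 := by
      have h3 : gap p n ≤ (1 / 2) ^ k := by
        unfold gap
        rw [tsub_le_iff_left, heq]
        exact hn.1
      calc gap p n * 2 ^ k ≤ (1 / 2) ^ k * 2 ^ k := by gcongr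
        _ = 1 := half_mul_two_pow k
        _ < 4 := by norm_num
    rw [if_pos hgap]
    simp only [ν]
    rw [if_pos hn]
  -- contradiction for large `k`
  have h1 : ∀ k : ℕ, (3 / 2 : ℝ) ^ k ≤ 4 * 2 ^ c := by
    intro k
    have h2 := hbound k
    have h3 : ((1 / 4 : ℝ≥0) * (3 / 4) ^ k : ℝ≥0) ≤ 2 ^ c * (1 / 2) ^ k := by
      rw [← ENNReal.coe_le_coe]
      rw [ENNReal.coe_mul, ENNReal.coe_pow, ENNReal.coe_div (by norm_num),
        ENNReal.coe_div (by norm_num), ENNReal.coe_mul, ENNReal.coe_pow, ENNReal.coe_pow,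
        coe_half]
      exact h2
    have h4 : ((1 : ℝ) / 4) * (3 / 4) ^ k ≤ 2 ^ c * (1 / 2) ^ k := by exact_mod_cast h3
    have h5 : (3 / 2 : ℝ) ^ k = (3 / 4) ^ k * 2 ^ k := by rw [← mul_pow]; norm_num
    have h6 : (1 / 2 : ℝ) ^ k * 2 ^ k = 1 := by rw [← mul_pow]; norm_num
    have h7 : (0 : ℝ) < 2 ^ k := by positivity
    rw [h5]
    have h8 := mul_le_mul_of_nonneg_right h4 h7.le
    calc (3 / 4 : ℝ) ^ k * 2 ^ k = 4 * ((1 / 4 * (3 / 4) ^ k) * 2 ^ k) := by ring
      _ ≤ 4 * ((2 ^ c * (1 / 2) ^ k) * 2 ^ k) := by linarith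
      _ = 4 * 2 ^ c * ((1 / 2) ^ k * 2 ^ k) := by ring
      _ = 4 * 2 ^ c := by rw [h6, mul_one]
  obtain ⟨k, hk⟩ := pow_unbounded_of_one_lt (4 * 2 ^ c : ℝ) (show (1 : ℝ) < 3 / 2 by norm_num)
  exact absurd (h1 k) (not_le.2 hk)

lemma BB_mem (hU : IsOptimal U) (hp : IsEnumeration U p) (K : ℕ) :
    ⌊(2 : ℝ) ^ K * OmegaN p (BB p K)⌋ = ⌊(2 : ℝ) ^ K * Omega p⌋ := by
  have hne : {N : ℕ | ⌊(2 : ℝ) ^ K * OmegaN p N⌋ = ⌊(2 : ℝ) ^ K * Omega p⌋}.Nonempty := by
    have hpos : (0 : ℝ) ≤ 2 ^ K * Omega p := by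
      rw [← coe_Om]; positivity
    set a : ℤ := ⌊(2 : ℝ) ^ K * Omega p⌋ with ha
    have ha0 : 0 ≤ a := Int.floor_nonneg.2 hpos
    have h1 : (a : ℝ) < 2 ^ K * Omega p := by
      refine lt_of_le_of_ne (Int.floor_le _) ?_
      intro heq
      obtain ⟨b, hb⟩ := Int.eq_ofNat_of_zero_le ha0
      refine Om_ne_dyadic hU hp b K ?_
      rw [← NNReal.coe_inj, coe_Om]
      push_cast
      have h2 : (b : ℝ) = 2 ^ K * Omega p := by
        rw [← heq, hb]; simp
      rw [h2, mul_assoc, mul_comm (Omega p), ← mul_assoc, ← mul_pow]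
      norm_num
    have h2 : (a : ℝ) / 2 ^ K < Omega p := by
      rw [div_lt_iff₀ (by positivity)]; linarith
    have h3 : Tendsto (fun n => OmegaN p n) atTop (𝓝 (Omega p)) := by
      have := (NNReal.tendsto_coe.2 (tendsto_om hU.1 hp))
      rw [coe_Om] at this
      refine this.congr (fun n => ?_)
      exact coe_om n
    obtain ⟨n, hn⟩ := (h3.eventually (lt_mem_nhds h2)).exists
    refine ⟨n, ?_⟩
    show ⌊(2 : ℝ) ^ K * OmegaN p n⌋ = a
    rw [Int.floor_eq_iff]
    constructor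
    · rw [div_lt_iff₀ (by positivity)] at hn
      linarith
    · have h4 : OmegaN p n ≤ Omega p := by
        rw [← coe_om, ← coe_Om]
        exact_mod_cast (om_lt_Om hU.1 hp n).le
      calc (2 : ℝ) ^ K * OmegaN p n ≤ 2 ^ K * Omega p := by gcongr
        _ < a + 1 := Int.lt_floor_add_one _
  exact Nat.sInf_mem hne

lemma gap_BB (hU : IsOptimal U) (hp : IsEnumeration U p) {K φ : ℕ} (h : BB p K ≤ φ) :
    gap p φ < (1 / 2) ^ K := by
  have h1 := BB_mem hU hp K
  have h2 := Int.abs_sub_lt_one_of_floor_eq_floor h1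
  rw [abs_sub_comm, ← mul_sub, abs_lt] at h2
  have h3 : (gap p (BB p K) : ℝ) = Omega p - OmegaN p (BB p K) := by
    unfold gap
    rw [NNReal.coe_sub (om_lt_Om hU.1 hp _).le, coe_om, coe_Om]
  have h4 : (gap p φ : ℝ) ≤ gap p (BB p K) := by exact_mod_cast gap_anti h
  rw [← NNReal.coe_lt_coe]
  push_cast
  rw [h3] at h4
  have h5 : (2 : ℝ) ^ K * gap p φ < 1 := by
    calc (2 : ℝ) ^ K * gap p φ ≤ 2 ^ K * (Omega p - OmegaN p (BB p K)) := by gcongr
      _ < 1 := h2.2
  have h6 : (1 / 2 : ℝ) ^ K * 2 ^ K = 1 := by rw [← mul_pow]; norm_num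
  have h7 : (0 : ℝ) < 2 ^ K := by positivity
  by_contra hcon
  push Not at hcon
  nlinarith [mul_le_mul_of_nonneg_right hcon h7.le]

lemma le_mI_of_BB (hU : IsOptimal U) (hp : IsEnumeration U p) {K : ℕ} {A : List Bool} {ζ : ℕ}
    (hv : Stages.Valid U p A ζ) (h : BB p K ≤ fitness U A) : K ≤ mI p ζ := by
  have h1 := gap_BB hU hp h
  have h2 := dl_lt_gap hU.1 hp hv
  have h3 := half_pow_le_dl hU.1 hp ζ
  by_contra hcon
  push Not at hcon
  have h4 : (1 / 2 : ℝ≥0) ^ K ≤ (1 / 2) ^ mI p ζ :=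
    pow_le_pow_right_of_le_one' (by rw [div_le_one (by norm_num)]; norm_num) hcon.le
  exact absurd (h1.trans_le (h4.trans (h3.trans h2.le))) (lt_irrefl _)

/-- fitness does not decrease -/
lemma fitness_step (hU : IsPrefixMachine U) (A : List Bool) (ω : Cantor) :
    fitness U A ≤ fitness U (step U A ω) := by
  by_cases h : ∃ M B, ω ∈ cyl M ∧ Accepts U A M B
  · obtain ⟨M, B, h1, h2⟩ := h
    rw [step_of_accepts hU h1 h2]
    obtain ⟨_, a, ha, b, hb, hab⟩ := h2
    rw [fitness_eq ha, fitness_eq hb]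
    exact hab.le
  · rw [step_of_not h]

lemma fitness_walk_mono (hU : IsPrefixMachine U) (A : List Bool) (ω : Draws) :
    Monotone (fun t => fitness U (walk U A ω t)) :=
  monotone_nat_of_le_succ (fun _ => fitness_step hU _ _)

open Classical in
/-- the expected mutation time is at least the expected number of early times -/
lemma acc_le_time (hU : IsPrefixMachine U) (T : Stages U) (A : List Bool) {N n0 : ℕ}
    (h : n0 ≤ BB p N) (T0 : ℕ) :
    T.acc (fun A => if fitness U A < n0 then 1 else 0) T0 A ≤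
      ∫⁻ ω, mutationTime U p A N ω ∂coins := by
  have h1 : ∀ ω, ∑ t ∈ Finset.range T0,
      (if fitness U (walk U A ω t) < n0 then (1 : ℝ≥0∞) else 0) ≤ mutationTime U p A N ω := by
    intro ω
    unfold mutationTime
    refine le_iInf (fun t' => le_iInf (fun ht' => ?_))
    have h2 : ∀ t ∈ Finset.range T0, (if fitness U (walk U A ω t) < n0 then (1 : ℝ≥0∞) else 0) ≤
        (if t < t' then 1 else 0) := by
      intro t _
      by_cases hlt : t < t'
      · rw [if_pos hlt]; split_ifs <;> simp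
      · rw [if_neg hlt, if_neg]
        push Not
        exact h.trans (ht'.trans (fitness_walk_mono hU A ω (not_lt.1 hlt)))
    refine (Finset.sum_le_sum h2).trans ?_
    rw [← Finset.sum_filter]
    simp only [Finset.sum_const, nsmul_eq_mul, mul_one]
    have h3 : (Finset.filter (fun t => t < t') (Finset.range T0)).card ≤ t' := by
      calc _ ≤ (Finset.range t').card := Finset.card_le_card (fun x hx => by
            simp at hx ⊢; exact hx.2)
        _ = t' := Finset.card_range t'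
    exact_mod_cast h3
  unfold Stages.acc
  calc ∑ t ∈ Finset.range T0, T.itP t (fun A => if fitness U A < n0 then 1 else 0) A
      = ∑ t ∈ Finset.range T0, ∫⁻ ω, (if fitness U (walk U A ω t) < n0 then (1 : ℝ≥0∞) else 0) ∂coins := by
        refine Finset.sum_congr rfl (fun t _ => ?_)
        exact (T.lintegral_walk hU (fun A => if fitness U A < n0 then 1 else 0) t A).symm
    _ = ∫⁻ ω, ∑ t ∈ Finset.range T0,
      (if fitness U (walk U A ω t) < n0 then (1 : ℝ≥0∞) else 0) ∂coins := by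
        rw [lintegral_finsetSum]
        intro t _
        exact measurable_comp_walk hU (fun A => if fitness U A < n0 then 1 else 0) A t
    _ ≤ _ := lintegral_mono h1

end Pool.Agent.Mut
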