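import Pool.Agent.Mut.Augment

/-!
# The guessing algorithm
-/

open MeasureTheory
open scoped ENNReal NNReal
open Pool.Agent.Rand

namespace Pool.Agent.Mut

variable {U : List Bool → List Bool →. ℕ} {p : ℕ → List Bool}

/-- states of the guessing algorithm: organism, threshold stage, scale -/
abbrev GS : Type := List Bool × (ℕ × ℕ)

lemma comp_isThr {α : Type*} [Primcodable α] (hp : IsEnumeration U p) {n z m : α → ℕ}
    (hn : Computable n) (hz : Computable z) (hm : Computable m)
    [∀ r, Decidable (isThr p (n r) (z r) (m r))] :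
    Computable (fun r => decide (isThr p (n r) (z r) (m r))) := by
  have q1 : QC (fun r => om p (z r) + (1 / 2) ^ m r) := ((qc_om hp).comp hz).add (QC.half_pow hm)
  have q2 : QC (fun r => om p (n r)) := (qc_om hp).comp hn
  have q3 : QC (fun r => om p (n r - 1)) := (qc_om hp).comp (comp_sub hn (Computable.const 1))
  refine (comp_and (q1.le q2) (comp_not (comp_and (comp_lt (Computable.const 0) hn)
    (q1.le q3)))).of_eq (fun r => ?_)
  rw [Bool.eq_iff_iff]
  simp [isThr]

lemma app_tsum {S ι : Type*} (K : S × S → ℝ≥0∞) (f : ι → S → ℝ≥0∞) (x : S) :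
    app K (fun y => ∑' i, f i y) x = ∑' i, app K (f i) x := by
  unfold app
  simp only [← ENNReal.tsum_mul_left]
  rw [ENNReal.tsum_comm]

lemma app_mono {S : Type*} (K : S × S → ℝ≥0∞) {f g : S → ℝ≥0∞} (h : ∀ y, f y ≤ g y) (x : S) :
    app K f x ≤ app K g x :=
  ENNReal.tsum_le_tsum (fun y => mul_le_mul_right (h y) _)

lemma iter_tsum {S ι : Type*} (K : S × S → ℝ≥0∞) (f : ι → S → ℝ≥0∞) (t : ℕ) :
    iter K t (fun y => ∑' i, f i y) = fun x => ∑' i, iter K t (f i) x := by
  induction t with
  | zero => rfl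
  | succ t ih =>
    funext x
    show app K (iter K t _) x = _
    rw [ih, app_tsum]
    rfl

lemma iter_const_mul {S : Type*} (K : S × S → ℝ≥0∞) (c : ℝ≥0∞) (f : S → ℝ≥0∞) (t : ℕ) :
    iter K t (fun y => c * f y) = fun x => c * iter K t f x := by
  induction t with
  | zero => rfl
  | succ t ih =>
    funext x
    show app K (iter K t _) x = c * app K (iter K t f) x
    rw [ih]
    unfold app
    rw [← ENNReal.tsum_mul_left]
    refine tsum_congr (fun y => ?_)
    ring

lemma iter_le_one {S : Type*} (K : S × S → ℝ≥0∞) (hK : ∀ x, app K (fun _ => 1) x ≤ 1) {f : S → ℝ≥0∞}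
    (hf : ∀ x, f x ≤ 1) (t : ℕ) : ∀ x, iter K t f x ≤ 1 := by
  induction t with
  | zero => exact hf
  | succ t ih => intro x; exact (app_mono K ih x).trans (hK x)

lemma qc_three_quarters {α : Type*} [Primcodable α] {g : α → ℕ} (hg : Computable g) :
    QC (fun a => (3 / 4 : ℝ≥0) ^ g a) := by
  refine ((QC.pow_const (c := 3) hg).div (QC.pow_const (c := 4) hg)).of_eq (fun a => ?_)
  rw [div_pow]; push_cast; rfl

lemma tsum_geom_three_quarters : ∑' j : ℕ, (1 / 4 : ℝ≥0∞) * (3 / 4) ^ j = 1 := by
  rw [ENNReal.tsum_mul_left, ENNReal.tsum_geometric]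
  have h1 : (1 : ℝ≥0∞) - 3 / 4 = 1 / 4 := by
    rw [ENNReal.sub_eq_of_eq_add (ENNReal.div_ne_top (by norm_num) (by norm_num))]
    rw [← ENNReal.add_div]
    norm_num
    exact (ENNReal.div_self (by norm_num) (by norm_num)).symm
  rw [h1, one_div, inv_inv, ENNReal.inv_mul_cancel (by norm_num) (by norm_num)]

namespace Stages

variable (T : Stages U)

/-- mass of the mutations verified before stage `n` -/
noncomputable def low (A : List Bool) (n : ℕ) : ℝ≥0∞ :=
  ∑' q : ℕ × List Bool, if q.1 < n then T.kap (A, q) else 0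

/-- some result is verified exactly at stage `z` -/
def zany (z : ℕ) (A M : List Bool) : Bool :=
  (T.W z (M, A)).elim false (fun y => (Encodable.decode₂ (List Bool) y).elim false
    (fun B => decide (T.Zst z A M B)))

lemma zany_iff {z : ℕ} {A M : List Bool} : T.zany z A M = true ↔ ∃ B, T.Zst z A M B := by
  unfold zany
  constructor
  · intro h
    rcases h1 : T.W z (M, A) with _ | y
    · rw [h1] at h; simp at h
    · rw [h1] at h
      simp only [Option.elim_some] at h
      rcases h2 : Encodable.decode₂ (List Bool) y with _ | B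
      · rw [h2] at h; simp at h
      · rw [h2] at h
        simp only [Option.elim_some, decide_eq_true_eq] at h
        exact ⟨B, h⟩
  · rintro ⟨B, hB⟩
    have h1 := (T.accb_iff.1 hB.1).1
    rw [h1]
    simp only [Option.elim_some, Encodable.encodek₂, decide_eq_true_eq]
    exact hB

lemma comp_zany {α : Type*} [Primcodable α] {z : α → ℕ} {A M : α → List Bool} (hz : Computable z)
    (hA : Computable A) (hM : Computable M) : Computable (fun r => T.zany (z r) (A r) (M r)) := by
  unfold zany
  have h1 : Computable (fun r => (Option.casesOn (T.W (z r) (M r, A r)) false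
      (fun y => (Option.casesOn (Encodable.decode₂ (List Bool) y) false
        (fun B => decide (T.Zst (z r) (A r) (M r) B)) : Bool)) : Bool)) := by
    refine Computable.option_casesOn (o := fun r => T.W (z r) (M r, A r)) (f := fun _ => false)
      (g := fun r y => (Option.casesOn (Encodable.decode₂ (List Bool) y) false
        (fun B => decide (T.Zst (z r) (A r) (M r) B)) : Bool))
      (T.comp_W hz hM hA) (Computable.const false) ?_
    refine Computable.option_casesOn (o := fun q : α × ℕ => Encodable.decode₂ (List Bool) q.2)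
      (f := fun _ => false) (g := fun q B => decide (T.Zst (z q.1) (A q.1) (M q.1) B))
      (computable_decode₂.comp Computable.snd) (Computable.const false) ?_
    have h2 : Computable (fun w : (α × ℕ) × List Bool => w.1.1) :=
      Computable.fst.comp Computable.fst
    exact T.comp_Zst (hz.comp h2) (hA.comp h2) (hM.comp h2) Computable.snd
  refine h1.of_eq (fun r => ?_)
  cases T.W (z r) (M r, A r) with
  | none => rfl
  | some y =>
    simp only [Option.elim_some]
    cases Encodable.decode₂ (List Bool) y with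
    | none => rfl
    | some B => rfl

/-- exact value of `kz` -/
noncomputable def kzF (z : ℕ) (A : List Bool) : ℝ≥0 :=
  ∑ i ∈ Finset.range z, (Encodable.decode₂ (List Bool) i).elim 0
    (fun M => if T.zany z A M = true then (1 / 2) ^ M.length else 0)

lemma kz_eq (z : ℕ) (A : List Bool) : T.kz z A = (T.kzF z A : ℝ≥0∞) := by
  unfold kzF
  rw [← tsum_eq_finite]
  · unfold kz kap
    rw [ENNReal.tsum_comm]
    refine tsum_congr (fun M => ?_)
    by_cases h : T.zany z A M = true
    · obtain ⟨B, hB⟩ := T.zany_iff.1 h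
      rw [if_pos h, tsum_eq_single B]
      · rw [if_pos hB, ENNReal.coe_pow, coe_half]
      · intro B' hB'
        rw [if_neg]
        intro h'
        exact hB' (T.Zst_unique hB h').2.symm
    · rw [if_neg h]
      rw [ENNReal.tsum_eq_zero.2]
      · rfl
      · intro B
        rw [if_neg]
        intro h'
        exact h (T.zany_iff.2 ⟨B, h'⟩)
  · intro M hM
    by_contra hcon
    rw [if_neg] at hM
    · exact hM rfl
    · intro h
      obtain ⟨B, hB⟩ := T.zany_iff.1 h
      exact hcon (T.Zst_encode_lt hB)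

lemma qc_kzF {α : Type*} [Primcodable α] {z : α → ℕ} {A : α → List Bool} (hz : Computable z)
    (hA : Computable A) : QC (fun r => T.kzF (z r) (A r)) := by
  unfold kzF
  refine QC.sum_range (f := fun q : α × ℕ => (Encodable.decode₂ (List Bool) q.2).elim 0
    (fun M => if T.zany (z q.1) (A q.1) M = true then (1 / 2) ^ M.length else 0)) (n := z) ?_ hz
  refine QC.option (f := fun w : (α × ℕ) × List Bool =>
    if T.zany (z w.1.1) (A w.1.1) w.2 = true then (1 / 2 : ℝ≥0) ^ w.2.length else 0) ?_
    (computable_decode₂.comp Computable.snd)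
  have h1 : Computable (fun w : (α × ℕ) × List Bool => w.1.1) := Computable.fst.comp Computable.fst
  exact QC.cond (T.comp_zany (hz.comp h1) (hA.comp h1) Computable.snd)
    (QC.half_pow (Computable.list_length.comp Computable.snd)) QC.zero

lemma low_eq (A : List Bool) (n : ℕ) :
    T.low A n = ((∑ z ∈ Finset.range n, T.kzF z A : ℝ≥0) : ℝ≥0∞) := by
  unfold low
  rw [ENNReal.tsum_prod', ENNReal.ofNNReal_finsetSum, tsum_eq_sum (s := Finset.range n)]
  · refine Finset.sum_congr rfl (fun z hz => ?_)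
    rw [← T.kz_eq]
    unfold kz
    refine tsum_congr (fun B => ?_)
    rw [if_pos (Finset.mem_range.1 hz)]
  · intro z hz
    rw [ENNReal.tsum_eq_zero]
    intro B
    rw [if_neg]
    intro h
    exact hz (Finset.mem_range.2 h)

lemma low_le (A : List Bool) (n : ℕ) : T.low A n ≤ ∑' q : ℕ × List Bool, T.kap (A, q) := by
  unfold low
  refine ENNReal.tsum_le_tsum (fun q => ?_)
  split_ifs
  · exact le_rfl
  · exact zero_le

open Classical in
/-- ordinary moves -/
noncomputable def Ka (r : GS × GS) : ℝ≥0∞ :=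
  if r.2.2 = r.1.2 then ∑' z : ℕ, (if z < r.1.2.1 then T.kap (r.1.1, (z, r.2.1)) else 0) else 0

open Classical in
/-- staying -/
noncomputable def Kb (r : GS × GS) : ℝ≥0∞ := if r.2 = r.1 then 1 - T.low r.1.1 r.1.2.1 else 0

open Classical in
/-- guessed moves -/
noncomputable def Kc (p : ℕ → List Bool) (r : GS × GS) : ℝ≥0∞ :=
  ∑' z : ℕ, if r.1.2.2 ≤ r.2.2.2 ∧ isThr p r.2.2.1 z r.2.2.2 then
    T.kap (r.1.1, (z, r.2.1)) * ((1 / 4) * (3 / 4) ^ (r.2.2.2 - r.1.2.2)) else 0

/-- the kernel of the guessing algorithm, with parameter `ε = 2^{-w}` -/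
noncomputable def KG (p : ℕ → List Bool) (w : ℕ) (r : GS × GS) : ℝ≥0∞ :=
  (1 - (1 / 2) ^ w) * (T.Ka r + T.Kb r) + (1 / 2) ^ w * T.Kc p r

lemma lsc_KG (hp : IsEnumeration U p) (w : ℕ) : LSC (T.KG p w) := by
  classical
  have c1 : Computable (fun r : GS × GS => r.1.1) := Computable.fst.comp Computable.fst
  have c12 : Computable (fun r : GS × GS => r.1.2) := Computable.snd.comp Computable.fst
  have cn : Computable (fun r : GS × GS => r.1.2.1) := Computable.fst.comp c12
  have cm : Computable (fun r : GS × GS => r.1.2.2) := Computable.snd.comp c12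
  have c2 : Computable (fun r : GS × GS => r.2.1) := Computable.fst.comp Computable.snd
  have c22 : Computable (fun r : GS × GS => r.2.2) := Computable.snd.comp Computable.snd
  have cn' : Computable (fun r : GS × GS => r.2.2.1) := Computable.fst.comp c22
  have cm' : Computable (fun r : GS × GS => r.2.2.2) := Computable.snd.comp c22
  have hKa : LSC T.Ka := by
    have h0 : LSC (fun r : GS × GS =>
        ∑' z : ℕ, (if z < r.1.2.1 then T.kap (r.1.1, (z, r.2.1)) else 0)) := by
      refine LSC.tsum (f := fun a : (GS × GS) × ℕ =>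
        if a.2 < a.1.1.2.1 then T.kap (a.1.1.1, (a.2, a.1.2.1)) else 0) ?_
      refine LSC.ite (p := fun a : (GS × GS) × ℕ => a.2 < a.1.1.2.1) ?_ ?_
      · exact comp_lt Computable.snd (cn.comp Computable.fst)
      · exact T.lsc_kap (z := fun a : (GS × GS) × ℕ => a.2) (A := fun a => a.1.1.1)
          (B := fun a => a.1.2.1) Computable.snd (c1.comp Computable.fst) (c2.comp Computable.fst)
    refine (LSC.ite (p := fun r : GS × GS => r.2.2 = r.1.2) (comp_eq c22 c12) h0).of_eq
      (fun r => ?_)
    unfold Ka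
    by_cases h : r.2.2 = r.1.2 <;> simp [h]
  have hlow : QC (fun r : GS × GS => ∑ z ∈ Finset.range r.1.2.1, T.kzF z r.1.1) := by
    refine QC.sum_range (f := fun a : (GS × GS) × ℕ => T.kzF a.2 a.1.1.1)
      (n := fun r => r.1.2.1) ?_ cn
    exact T.qc_kzF Computable.snd (c1.comp Computable.fst)
  have hKb : LSC T.Kb := by
    have h1 : QC (fun r : GS × GS => if r.2 = r.1 then
        (1 : ℝ≥0) - ∑ z ∈ Finset.range r.1.2.1, T.kzF z r.1.1 else 0) :=
      QC.ite (comp_eq Computable.snd Computable.fst) (QC.one.sub hlow) QC.zero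
    refine h1.lsc.of_eq (fun r => ?_)
    unfold Kb
    rw [T.low_eq]
    by_cases h : r.2 = r.1
    · rw [if_pos h, if_pos h, ENNReal.coe_sub]; rfl
    · rw [if_neg h, if_neg h]; rfl
  have hKc : LSC (T.Kc p) := by
    unfold Kc
    have h0 : LSC (fun a : (GS × GS) × ℕ => if a.1.1.2.2 ≤ a.1.2.2.2 ∧
        isThr p a.1.2.2.1 a.2 a.1.2.2.2 then T.kap (a.1.1.1, (a.2, a.1.2.1)) *
          ((1 / 4) * (3 / 4) ^ (a.1.2.2.2 - a.1.1.2.2)) else 0) := by
      refine LSC.ite (p := fun a : (GS × GS) × ℕ => a.1.1.2.2 ≤ a.1.2.2.2 ∧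
        isThr p a.1.2.2.1 a.2 a.1.2.2.2) ?_ ?_
      · have h1 := comp_le (cm.comp (Computable.fst (β := ℕ))) (cm'.comp (Computable.fst (β := ℕ)))
        have h2 := comp_isThr (α := (GS × GS) × ℕ) hp (cn'.comp Computable.fst) Computable.snd
          (cm'.comp Computable.fst)
        refine (comp_and h1 h2).of_eq (fun a => ?_)
        rw [Bool.eq_iff_iff]
        simp
      · refine LSC.mul (T.lsc_kap (z := fun a : (GS × GS) × ℕ => a.2) (A := fun a => a.1.1.1)
          (B := fun a => a.1.2.1) Computable.snd (c1.comp Computable.fst)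
          (c2.comp Computable.fst)) ?_
        have h3 : QC (fun a : (GS × GS) × ℕ => (1 / 4 : ℝ≥0) *
            (3 / 4) ^ (a.1.2.2.2 - a.1.1.2.2)) := by
          refine QC.mul ?_ (qc_three_quarters (comp_sub (cm'.comp Computable.fst)
            (cm.comp Computable.fst)))
          refine ((QC.nat (Computable.const 1)).div (QC.nat (Computable.const 4))).of_eq
            (fun a => ?_)
          push_cast; rfl
        refine h3.lsc.of_eq (fun a => ?_)
        rw [ENNReal.coe_mul, ENNReal.coe_pow, ENNReal.coe_div (by norm_num),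
          ENNReal.coe_div (by norm_num)]
        rfl
    exact LSC.tsum h0
  have hε : ∀ (β : Type) [Primcodable β], QC (fun _ : β => (1 / 2 : ℝ≥0) ^ w) :=
    fun β _ => QC.half_pow (Computable.const w)
  have h1ε : LSC (fun _ : GS × GS => (1 : ℝ≥0∞) - (1 / 2) ^ w) := by
    refine (QC.one.sub (hε (GS × GS))).lsc.of_eq (fun _ => ?_)
    rw [ENNReal.coe_sub, ENNReal.coe_pow, coe_half]; rfl
  have h2ε : LSC (fun _ : GS × GS => (1 / 2 : ℝ≥0∞) ^ w) := LSC.half_pow (Computable.const w)
  exact (h1ε.mul (hKa.add hKb)).add (h2ε.mul hKc)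

open Classical in
lemma app_KG (w : ℕ) (f : GS → ℝ≥0∞) (A : List Bool) (n m : ℕ) :
    app (T.KG p w) f (A, (n, m)) =
      (1 - (1 / 2) ^ w) * ((∑' q : ℕ × List Bool, if q.1 < n then
        T.kap (A, q) * f (q.2, (n, m)) else 0) + (1 - T.low A n) * f (A, (n, m))) +
      (1 / 2) ^ w * ∑' q : ℕ × List Bool, T.kap (A, q) * ∑' m' : ℕ, ∑' n' : ℕ,
        if m ≤ m' ∧ isThr p n' q.1 m' then (1 / 4) * (3 / 4) ^ (m' - m) * f (q.2, (n', m'))
        else 0 := by
  have e1 : ∑' y : GS, T.Ka ((A, (n, m)), y) * f y =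
      ∑' q : ℕ × List Bool, if q.1 < n then T.kap (A, q) * f (q.2, (n, m)) else 0 := by
    rw [ENNReal.tsum_prod', ENNReal.tsum_prod', ENNReal.tsum_comm (f := fun (z : ℕ) (B : List Bool) =>
      if z < n then T.kap (A, (z, B)) * f (B, (n, m)) else 0)]
    refine tsum_congr (fun B => ?_)
    rw [tsum_eq_single (n, m)]
    · unfold Ka
      rw [if_pos rfl, ← ENNReal.tsum_mul_right]
      refine tsum_congr (fun z => ?_)
      split_ifs <;> simp
    · intro b hb
      unfold Ka
      rw [if_neg (by simpa using hb), zero_mul]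
  have e2 : ∑' y : GS, T.Kb ((A, (n, m)), y) * f y = (1 - T.low A n) * f (A, (n, m)) := by
    rw [tsum_eq_single (A, (n, m))]
    · unfold Kb
      rw [if_pos rfl]
    · intro b hb
      unfold Kb
      rw [if_neg (by simpa using hb), zero_mul]
  have e3 : ∑' y : GS, T.Kc p ((A, (n, m)), y) * f y =
      ∑' q : ℕ × List Bool, T.kap (A, q) * ∑' m' : ℕ, ∑' n' : ℕ,
        if m ≤ m' ∧ isThr p n' q.1 m' then (1 / 4) * (3 / 4) ^ (m' - m) * f (q.2, (n', m'))
        else 0 := by
    unfold Kc
    simp only [← ENNReal.tsum_mul_right]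
    rw [ENNReal.tsum_comm, ENNReal.tsum_prod']
    refine tsum_congr (fun z => ?_)
    rw [ENNReal.tsum_prod']
    refine tsum_congr (fun B => ?_)
    rw [ENNReal.tsum_prod', ENNReal.tsum_comm, ← ENNReal.tsum_mul_left]
    refine tsum_congr (fun m' => ?_)
    rw [← ENNReal.tsum_mul_left]
    refine tsum_congr (fun n' => ?_)
    simp only
    split_ifs
    · ring
    · simp
  unfold app KG
  rw [← e1, ← e2, ← e3, ← ENNReal.tsum_add, ← ENNReal.tsum_mul_left, ← ENNReal.tsum_mul_left,
    ← ENNReal.tsum_add]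
  refine tsum_congr (fun y => ?_)
  ring

lemma app_KG_one (hU : IsPrefixMachine U) (w : ℕ) (x : GS) :
    app (T.KG p w) (fun _ => 1) x ≤ 1 := by
  classical
  obtain ⟨A, n, m⟩ := x
  rw [T.app_KG]
  have h1 : (∑' q : ℕ × List Bool, if q.1 < n then T.kap (A, q) * 1 else 0) + (1 - T.low A n) * 1
      = 1 := by
    simp only [mul_one]
    exact add_tsub_cancel_of_le ((T.low_le A n).trans (T.tsum_kap_le_one hU A))
  have h2 : ∀ z : ℕ, (∑' m' : ℕ, ∑' n' : ℕ, if m ≤ m' ∧ isThr p n' z m' then
      (1 / 4 : ℝ≥0∞) * (3 / 4) ^ (m' - m) * 1 else 0) ≤ 1 := by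
    intro z
    have h3 : ∀ m' : ℕ, (∑' n' : ℕ, if m ≤ m' ∧ isThr p n' z m' then
        (1 / 4 : ℝ≥0∞) * (3 / 4) ^ (m' - m) * 1 else 0) ≤
        if m ≤ m' then (1 / 4 : ℝ≥0∞) * (3 / 4) ^ (m' - m) * 1 else 0 := by
      intro m'
      refine tsum_unique_le ?_ ?_
      · intro s t hs ht; exact isThr_unique hs.2 ht.2
      · intro s hs; exact hs.1
    refine (ENNReal.tsum_le_tsum h3).trans ?_
    have e1 := Summable.sum_add_tsum_nat_add' (k := m) (f := fun m' : ℕ =>
      (if m ≤ m' then (1 / 4 : ℝ≥0∞) * (3 / 4) ^ (m' - m) * 1 else 0)) ENNReal.summable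
    rw [← e1, Finset.sum_eq_zero, zero_add]
    · refine le_trans (le_of_eq ?_) tsum_geom_three_quarters.le
      refine tsum_congr (fun j => ?_)
      rw [if_pos (Nat.le_add_left m j), Nat.add_sub_cancel, mul_one]
    · intro i hi
      rw [if_neg]
      have := Finset.mem_range.1 hi
      omega
  rw [h1, mul_one]
  calc _ ≤ (1 - (1 / 2 : ℝ≥0∞) ^ w) + (1 / 2) ^ w * ∑' q : ℕ × List Bool, T.kap (A, q) * 1 := by
        refine add_le_add le_rfl (mul_le_mul_right ?_ _)
        exact ENNReal.tsum_le_tsum (fun q => mul_le_mul_right (h2 q.1) _)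
    _ ≤ (1 - (1 / 2 : ℝ≥0∞) ^ w) + (1 / 2) ^ w * 1 := by
        refine add_le_add le_rfl (mul_le_mul_right ?_ _)
        simp only [mul_one]
        exact T.tsum_kap_le_one hU A
    _ = 1 := by
        rw [mul_one]
        exact tsub_add_cancel_of_le (pow_le_one' (by rw [one_div]; exact ENNReal.one_half_lt_one.le) _)

end Stages

end Pool.Agent.Mut
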