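import Pool.Agent.Mut.Guess

/-!
# The scale reached with few events
-/

open MeasureTheory
open scoped ENNReal NNReal
open Pool.Agent.Rand

namespace Pool.Agent.Mut

variable {U : List Bool → List Bool →. ℕ} {p : ℕ → List Bool}

/-- `2^{-w}` -/
noncomputable def eps (w : ℕ) : ℝ≥0∞ := (1 / 2) ^ w

lemma eps_le_one (w : ℕ) : eps w ≤ 1 := pow_le_one' (by rw [one_div]; exact ENNReal.one_half_lt_one.le) _

lemma eps_ne_zero (w : ℕ) : eps w ≠ 0 := pow_ne_zero _ (by simp)

lemma eps_ne_top (w : ℕ) : eps w ≠ ∞ := ENNReal.pow_ne_top (by simp)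

lemma tsum_eps (w : ℕ) : ∑' t : ℕ, eps w * (1 - eps w) ^ t = 1 := by
  rw [ENNReal.tsum_mul_left, ENNReal.tsum_geometric, ENNReal.sub_sub_cancel ENNReal.one_ne_top
    (eps_le_one w), ENNReal.mul_inv_cancel (eps_ne_zero w) (eps_ne_top w)]

open Classical in
/-- indicator of the true pairs at scale `m` -/
noncomputable def tr (p : ℕ → List Bool) (m : ℕ) (x : GS) : ℝ≥0∞ :=
  if x.2.2 = m ∧ gap p x.2.1 * 2 ^ m < 4 then 1 else 0

namespace Stages

variable (T : Stages U)

/-- the guessing algorithm finds true pairs at scale `m` with probability at most `O(2^{-m})` -/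
theorem guess_bound (hU : IsOptimal U) (hp : IsEnumeration U p) (w : ℕ) (x0 : GS) :
    ∃ c : ℕ, ∀ t m : ℕ, eps w * (1 - eps w) ^ t * iter (T.KG p w) t (tr p m) x0 ≤
      2 ^ c * (1 / 2) ^ m := by
  classical
  let ind : (ℕ × ℕ) → GS → ℝ≥0∞ := fun a x => if x.2 = a then 1 else 0
  let ν : ℕ × ℕ → ℝ≥0∞ := fun a => ∑' t : ℕ, eps w * (1 - eps w) ^ t *
    iter (T.KG p w) t (ind a) x0
  have hind : LSC (fun q : (ℕ × ℕ) × GS => ind q.1 q.2) := by
    have h1 : QC (fun q : (ℕ × ℕ) × GS => if q.2.2 = q.1 then (1 : ℝ≥0) else 0) :=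
      QC.ite (comp_eq (Computable.snd.comp Computable.snd) Computable.fst) QC.one QC.zero
    refine h1.lsc.of_eq (fun q => ?_)
    simp only [ind]
    split_ifs <;> rfl
  have hν : LSC ν := by
    refine LSC.tsum (f := fun a : (ℕ × ℕ) × ℕ => eps w * (1 - eps w) ^ a.2 *
      iter (T.KG p w) a.2 (ind a.1) x0) ?_
    refine LSC.mul ?_ ?_
    · have h2 : ∀ t : ℕ, (1 - (1 / 2 : ℝ≥0) ^ w) ^ t =
          ((2 ^ w - 1 : ℕ) : ℝ≥0) ^ t * (1 / 2) ^ (w * t) := by
        intro t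
        rw [pow_mul, ← mul_pow]
        congr 1
        have hc : ((2 ^ w - 1 : ℕ) : ℝ≥0) = 2 ^ w - 1 := by
          rw [Nat.cast_tsub]; push_cast; rfl
        rw [hc, tsub_mul, mul_comm (2 ^ w), half_mul_two_pow, one_mul]
      have h1 : QC (fun a : (ℕ × ℕ) × ℕ => (1 / 2 : ℝ≥0) ^ w * (1 - (1 / 2 : ℝ≥0) ^ w) ^ a.2) := by
        simp only [h2]
        exact (QC.half_pow (Computable.const w)).mul ((QC.pow_const (c := 2 ^ w - 1)
          Computable.snd).mul (QC.half_pow (comp_mul (Computable.const w) Computable.snd)))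
      refine h1.lsc.of_eq (fun a => ?_)
      rw [ENNReal.coe_mul, ENNReal.coe_pow, ENNReal.coe_pow, ENNReal.coe_sub, ENNReal.coe_pow,
        coe_half]
      rfl
    · exact (LSC.iter (T.lsc_KG hp w) hind).comp (h := fun a : (ℕ × ℕ) × ℕ => (a.1, (a.2, x0)))
        (Computable.fst.pair (Computable.snd.pair (Computable.const x0)))
  have hνsum : ∑' a, ν a ≤ 1 := by
    simp only [ν]
    rw [ENNReal.tsum_comm]
    simp only [ENNReal.tsum_mul_left]
    have h1 : ∀ t, ∑' a, iter (T.KG p w) t (ind a) x0 ≤ 1 := by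
      intro t
      have h2 := congrFun (iter_tsum (T.KG p w) ind t) x0
      rw [← h2]
      refine iter_le_one _ (T.app_KG_one hU.1 w) (fun x => ?_) t x0
      simp only [ind]
      rw [tsum_eq_single x.2]
      · rw [if_pos rfl]
      · intro b hb
        rw [if_neg (fun h => hb h.symm)]
    calc _ ≤ ∑' t, eps w * (1 - eps w) ^ t * 1 :=
          ENNReal.tsum_le_tsum (fun t => mul_le_mul_right (h1 t) _)
      _ = 1 := by simp only [mul_one]; exact tsum_eps w
  obtain ⟨c, hc⟩ := incompress hU hp hν hνsum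
  refine ⟨c, fun t m => ?_⟩
  refine le_trans ?_ (hc m)
  have h1 : tr p m = fun x => ∑' n : ℕ, (if gap p n * 2 ^ m < 4 then 1 else 0) * ind (n, m) x := by
    funext x
    unfold tr
    by_cases hx : x.2.2 = m
    · rw [tsum_eq_single x.2.1]
      · have h2 : ind (x.2.1, m) x = 1 := by
          simp only [ind]
          rw [if_pos]
          rw [← hx]
        rw [h2, mul_one]
        simp [hx]
      · intro n hn
        have h2 : ind (n, m) x = 0 := by
          simp only [ind]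
          rw [if_neg]
          intro h
          rw [h] at hn
          exact hn rfl
        rw [h2, mul_zero]
    · rw [if_neg (fun h => hx h.1)]
      symm
      rw [ENNReal.tsum_eq_zero]
      intro n
      have h2 : ind (n, m) x = 0 := by
        simp only [ind]
        rw [if_neg]
        intro h
        rw [h] at hx
        exact hx rfl
      rw [h2, mul_zero]
  rw [h1, iter_tsum]
  simp only [iter_const_mul]
  rw [← ENNReal.tsum_mul_left]
  refine ENNReal.tsum_le_tsum (fun n => ?_)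
  split_ifs
  · rw [one_mul]
    simp only [ν]
    exact ENNReal.le_tsum (f := fun t => eps w * (1 - eps w) ^ t *
      iter (T.KG p w) t (ind (n, m)) x0) t
  · simp

/-- the lift of a function on guessed states to true states -/
noncomputable def hat (p : ℕ → List Bool) (w : ℕ) (f : GS → ℝ≥0∞) (A : List Bool) (ζ k : ℕ) :
    ℝ≥0∞ := (eps w * (1 / 4)) ^ k * (3 / 4) ^ mI p ζ * f (A, (nI p ζ, mI p ζ))

lemma hat_step (hU : IsPrefixMachine U) (hp : IsEnumeration U p) (w : ℕ) (f : GS → ℝ≥0∞)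
    (A : List Bool) (ζ k : ℕ) :
    (1 - eps w) * T.opA p (hat p w f) A ζ k ≤ hat p w (app (T.KG p w) f) A ζ k := by
  classical
  have hkey : ∀ q : ℕ × List Bool, (1 - eps w) * (T.kap (A, q) *
      (if q.1 < nI p ζ then hat p w f q.2 ζ k else hat p w f q.2 q.1 (k + 1))) ≤
      (eps w * (1 / 4)) ^ k * (3 / 4) ^ mI p ζ *
      ((1 - eps w) * (if q.1 < nI p ζ then T.kap (A, q) * f (q.2, (nI p ζ, mI p ζ)) else 0) +
        eps w * (T.kap (A, q) * ∑' m' : ℕ, ∑' n' : ℕ,
          if mI p ζ ≤ m' ∧ isThr p n' q.1 m' then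
            (1 / 4) * (3 / 4) ^ (m' - mI p ζ) * f (q.2, (n', m')) else 0)) := by
    intro q
    by_cases hlt : q.1 < nI p ζ
    · rw [if_pos hlt, if_pos hlt]
      unfold hat
      calc _ = (eps w * (1 / 4)) ^ k * (3 / 4) ^ mI p ζ *
            ((1 - eps w) * (T.kap (A, q) * f (q.2, (nI p ζ, mI p ζ)))) := by ring
        _ ≤ _ := mul_le_mul_right le_self_add _
    · rw [if_neg hlt, if_neg hlt]
      have hle : mI p ζ ≤ mI p q.1 :=
        mI_mono hU hp ((lt_nI hU hp ζ).le.trans (not_lt.1 hlt))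
      have h1 : (1 / 4 : ℝ≥0∞) * (3 / 4) ^ (mI p q.1 - mI p ζ) * f (q.2, (nI p q.1, mI p q.1)) ≤
          ∑' m' : ℕ, ∑' n' : ℕ, if mI p ζ ≤ m' ∧ isThr p n' q.1 m' then
            (1 / 4) * (3 / 4) ^ (m' - mI p ζ) * f (q.2, (n', m')) else 0 := by
        refine le_trans ?_ (ENNReal.le_tsum (mI p q.1))
        refine le_trans ?_ (ENNReal.le_tsum (nI p q.1))
        rw [if_pos ⟨hle, isThr_nI hU hp _⟩]
      unfold hat
      rw [mul_zero, zero_add]
      have h2 : (3 / 4 : ℝ≥0∞) ^ mI p q.1 = (3 / 4) ^ mI p ζ * (3 / 4) ^ (mI p q.1 - mI p ζ) := by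
        rw [← pow_add]; congr 1; omega
      calc (1 - eps w) * (T.kap (A, q) * ((eps w * (1 / 4)) ^ (k + 1) * (3 / 4) ^ mI p q.1 *
            f (q.2, (nI p q.1, mI p q.1))))
          ≤ 1 * (T.kap (A, q) * ((eps w * (1 / 4)) ^ (k + 1) * (3 / 4) ^ mI p q.1 *
            f (q.2, (nI p q.1, mI p q.1)))) := mul_le_mul_left tsub_le_self _
        _ = (eps w * (1 / 4)) ^ k * (3 / 4) ^ mI p ζ * (eps w * (T.kap (A, q) *
            ((1 / 4) * (3 / 4) ^ (mI p q.1 - mI p ζ) * f (q.2, (nI p q.1, mI p q.1))))) := by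
            rw [h2, pow_succ]; ring
        _ ≤ _ := mul_le_mul_right (mul_le_mul_right (mul_le_mul_right h1 _) _) _
  have hlow : 1 - ∑' q : ℕ × List Bool, T.kap (A, q) ≤ 1 - T.low A (nI p ζ) :=
    tsub_le_tsub_left (T.low_le A _) _
  unfold opA
  rw [mul_add, ← ENNReal.tsum_mul_left]
  calc (∑' q : ℕ × List Bool, (1 - eps w) * (T.kap (A, q) *
        (if q.1 < nI p ζ then hat p w f q.2 ζ k else hat p w f q.2 q.1 (k + 1)))) +
        (1 - eps w) * ((1 - ∑' q : ℕ × List Bool, T.kap (A, q)) * hat p w f A ζ k)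
      ≤ (∑' q : ℕ × List Bool, (eps w * (1 / 4)) ^ k * (3 / 4) ^ mI p ζ *
      ((1 - eps w) * (if q.1 < nI p ζ then T.kap (A, q) * f (q.2, (nI p ζ, mI p ζ)) else 0) +
        eps w * (T.kap (A, q) * ∑' m' : ℕ, ∑' n' : ℕ,
          if mI p ζ ≤ m' ∧ isThr p n' q.1 m' then
            (1 / 4) * (3 / 4) ^ (m' - mI p ζ) * f (q.2, (n', m')) else 0))) +
        (1 - eps w) * ((1 - T.low A (nI p ζ)) * hat p w f A ζ k) :=
        add_le_add (ENNReal.tsum_le_tsum hkey) (mul_le_mul_right (mul_le_mul_left hlow _) _)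
    _ = hat p w (app (T.KG p w) f) A ζ k := by
        rw [ENNReal.tsum_mul_left, ENNReal.tsum_add, ENNReal.tsum_mul_left, ENNReal.tsum_mul_left]
        unfold hat
        rw [T.app_KG]
        unfold eps
        ring

lemma opA_mono' {F G : List Bool → ℕ → ℕ → ℝ≥0∞} (h : ∀ A ζ k, F A ζ k ≤ G A ζ k)
    (A : List Bool) (ζ k : ℕ) : T.opA p F A ζ k ≤ T.opA p G A ζ k := by
  unfold opA
  refine add_le_add (ENNReal.tsum_le_tsum (fun q => mul_le_mul_right ?_ _)) (mul_le_mul_right (h _ _ _) _)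
  split_ifs <;> exact h _ _ _

lemma hat_iter (hU : IsPrefixMachine U) (hp : IsEnumeration U p) (w : ℕ) (f : GS → ℝ≥0∞) (t : ℕ) :
    ∀ A ζ k, (1 - eps w) ^ t * T.itA p t (hat p w f) A ζ k ≤
      hat p w (iter (T.KG p w) t f) A ζ k := by
  induction t with
  | zero => intro A ζ k; simp [itA, iter]
  | succ t ih =>
    intro A ζ k
    rw [itA_succ, pow_succ, mul_comm ((1 - eps w) ^ t), mul_assoc, ← T.opA_const_mul]
    refine (mul_le_mul_right (T.opA_mono' ih A ζ k) _).trans ?_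
    exact T.hat_step hU hp w _ A ζ k

lemma itA_const_mul (c : ℝ≥0∞) (F : List Bool → ℕ → ℕ → ℝ≥0∞) (t : ℕ) :
    T.itA p t (fun A ζ k => c * F A ζ k) = fun A ζ k => c * T.itA p t F A ζ k := by
  induction t with
  | zero => rfl
  | succ t ih =>
    rw [itA_succ, ih]
    funext A ζ k
    rw [T.opA_const_mul, itA_succ]

lemma itA_mono' {F G : List Bool → ℕ → ℕ → ℝ≥0∞} (h : ∀ A ζ k, F A ζ k ≤ G A ζ k) (t : ℕ) :
    ∀ (A : List Bool) (ζ k : ℕ), T.itA p t F A ζ k ≤ T.itA p t G A ζ k := by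
  induction t with
  | zero => exact h
  | succ t ih => intro A ζ k; rw [itA_succ, itA_succ]; exact T.opA_mono' ih A ζ k

open Classical in
/-- reaching a large scale with few events is exponentially unlikely -/
theorem few_events (hU : IsOptimal U) (hp : IsEnumeration U p) (w : ℕ) (A0 : List Bool) (ζ0 : ℕ) :
    ∃ c : ℕ, ∀ t N K : ℕ, (eps w * (1 / 4)) ^ K * ((1 - eps w) ^ t) ^ 2 *
      T.itA p t (fun _ ζ k => if N ≤ mI p ζ ∧ k ≤ K then 1 else 0) A0 ζ0 0 ≤
      2 ^ c * (2 / 3) ^ N := by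
  obtain ⟨c, hc⟩ := T.guess_bound hU hp w (A0, (nI p ζ0, mI p ζ0))
  refine ⟨c + w + 2, fun t N K => ?_⟩
  set θ : ℝ≥0∞ := eps w * (1 / 4) with hθ
  have hθ1 : θ ≤ 1 := by
    rw [hθ]
    refine mul_le_one' (eps_le_one w) ?_
    rw [one_div]; exact ENNReal.inv_le_one.2 (by norm_num)
  -- decomposition according to the scale
  have h1 : ∀ (A : List Bool) (ζ k : ℕ),
      θ ^ K * (if N ≤ mI p ζ ∧ k ≤ K then (1 : ℝ≥0∞) else 0) ≤
      ∑' j : ℕ, (4 / 3) ^ (j + N) * hat p w (tr p (j + N)) A ζ k := by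
    intro A ζ k
    split_ifs with h
    · obtain ⟨j, hj⟩ := Nat.exists_eq_add_of_le' h.1
      refine le_trans ?_ (ENNReal.le_tsum j)
      unfold hat tr
      rw [← hj]
      simp only [true_and]
      rw [if_pos (gap_nI_lt hU.1 hp ζ), mul_one, mul_one]
      have h2 : θ ^ K ≤ θ ^ k := pow_le_pow_right_of_le_one' hθ1 h.2
      have h3 : (4 / 3 : ℝ≥0∞) ^ mI p ζ * (3 / 4) ^ mI p ζ = 1 := by
        rw [← mul_pow]
        have : (4 / 3 : ℝ≥0∞) * (3 / 4) = 1 := by
          rw [← ENNReal.inv_div (Or.inl (by norm_num)) (Or.inl (by norm_num))]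
          exact ENNReal.inv_mul_cancel (by simp) (ENNReal.div_ne_top (by norm_num) (by norm_num))
        rw [this, one_pow]
      calc θ ^ K ≤ θ ^ k := h2
        _ = (4 / 3) ^ mI p ζ * (3 / 4) ^ mI p ζ * θ ^ k := by rw [h3, one_mul]
        _ = _ := by ring
    · simp
  have h2 : θ ^ K * T.itA p t (fun _ ζ k => if N ≤ mI p ζ ∧ k ≤ K then 1 else 0) A0 ζ0 0 ≤
      ∑' j : ℕ, (4 / 3) ^ (j + N) * T.itA p t (hat p w (tr p (j + N))) A0 ζ0 0 := by
    have h3 := T.itA_mono' (p := p) h1 t A0 ζ0 0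
    rw [T.itA_const_mul, T.itA_tsum] at h3
    simp only [T.itA_const_mul] at h3
    exact h3
  have hm0 : (3 / 4 : ℝ≥0∞) ^ mI p ζ0 ≤ 1 := by
    refine pow_le_one' ?_ _
    rw [ENNReal.div_le_iff (by norm_num) (by norm_num)]
    norm_num
  have h4 : ∀ j : ℕ, (1 - eps w) ^ t * T.itA p t (hat p w (tr p (j + N))) A0 ζ0 0 ≤
      iter (T.KG p w) t (tr p (j + N)) (A0, (nI p ζ0, mI p ζ0)) := by
    intro j
    refine (T.hat_iter hU.1 hp w _ t A0 ζ0 0).trans ?_
    unfold hat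
    rw [pow_zero, one_mul]
    exact mul_le_of_le_one_left zero_le hm0
  have h5 : ∀ j : ℕ, eps w * ((1 - eps w) ^ t) ^ 2 * T.itA p t (hat p w (tr p (j + N))) A0 ζ0 0 ≤
      2 ^ c * (1 / 2) ^ (j + N) := by
    intro j
    refine le_trans (le_trans (le_of_eq ?_) (mul_le_mul_right (h4 j) (eps w * (1 - eps w) ^ t)))
      (hc t (j + N))
    ring
  have h6 : eps w * (θ ^ K * ((1 - eps w) ^ t) ^ 2 *
      T.itA p t (fun _ ζ k => if N ≤ mI p ζ ∧ k ≤ K then 1 else 0) A0 ζ0 0) ≤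
      2 ^ c * (4 * (2 / 3) ^ N) := by
    calc eps w * (θ ^ K * ((1 - eps w) ^ t) ^ 2 *
          T.itA p t (fun _ ζ k => if N ≤ mI p ζ ∧ k ≤ K then 1 else 0) A0 ζ0 0)
        = eps w * ((1 - eps w) ^ t) ^ 2 * (θ ^ K *
          T.itA p t (fun _ ζ k => if N ≤ mI p ζ ∧ k ≤ K then 1 else 0) A0 ζ0 0) := by ring
      _ ≤ eps w * ((1 - eps w) ^ t) ^ 2 * ∑' j : ℕ, (4 / 3) ^ (j + N) *
          T.itA p t (hat p w (tr p (j + N))) A0 ζ0 0 := mul_le_mul_right h2 _
      _ ≤ ∑' j : ℕ, 2 ^ c * ((2 / 3) ^ (j + N)) := by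
          rw [← ENNReal.tsum_mul_left]
          refine ENNReal.tsum_le_tsum (fun j => ?_)
          calc eps w * ((1 - eps w) ^ t) ^ 2 * ((4 / 3) ^ (j + N) *
                T.itA p t (hat p w (tr p (j + N))) A0 ζ0 0)
              = (4 / 3) ^ (j + N) * (eps w * ((1 - eps w) ^ t) ^ 2 *
                T.itA p t (hat p w (tr p (j + N))) A0 ζ0 0) := by ring
            _ ≤ (4 / 3) ^ (j + N) * (2 ^ c * (1 / 2) ^ (j + N)) := mul_le_mul_right (h5 j) _
            _ = 2 ^ c * ((4 / 3) ^ (j + N) * (1 / 2) ^ (j + N)) := by ring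
            _ = _ := by
              rw [← mul_pow]
              congr 2
              rw [ENNReal.div_eq_inv_mul, ENNReal.div_eq_inv_mul, mul_one, mul_assoc]
              rw [ENNReal.div_eq_inv_mul]
              congr 1
              rw [show (4 : ℝ≥0∞) = 2 * 2 by norm_num, mul_assoc,
                ENNReal.mul_inv_cancel (by norm_num) (by norm_num), mul_one]
      _ = 2 ^ c * ((2 / 3) ^ N * ∑' j : ℕ, (2 / 3 : ℝ≥0∞) ^ j) := by
          rw [ENNReal.tsum_mul_left, ← ENNReal.tsum_mul_left (a := (2 / 3 : ℝ≥0∞) ^ N)]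
          congr 1
          refine tsum_congr (fun j => ?_)
          rw [pow_add, mul_comm]
      _ ≤ 2 ^ c * (4 * (2 / 3) ^ N) := by
          rw [ENNReal.tsum_geometric, mul_comm 4]
          refine mul_le_mul_right (mul_le_mul_right ?_ _) _
          rw [ENNReal.inv_le_iff_inv_le]
          refine ENNReal.le_sub_of_add_le_right (ENNReal.div_ne_top (by norm_num) (by norm_num)) ?_
          rw [← ENNReal.toReal_le_toReal]
          · rw [ENNReal.toReal_add (by simp) (ENNReal.div_ne_top (by norm_num) (by norm_num))]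
            simp
            norm_num
          · exact ENNReal.add_ne_top.2 ⟨by simp, ENNReal.div_ne_top (by norm_num) (by norm_num)⟩
          · simp
  have h7 : (2 : ℝ≥0∞) ^ w * eps w = 1 := by
    unfold eps
    rw [← mul_pow, one_div, ENNReal.mul_inv_cancel (by norm_num) (by norm_num), one_pow]
  calc θ ^ K * ((1 - eps w) ^ t) ^ 2 *
      T.itA p t (fun _ ζ k => if N ≤ mI p ζ ∧ k ≤ K then 1 else 0) A0 ζ0 0
      = 2 ^ w * (eps w * (θ ^ K * ((1 - eps w) ^ t) ^ 2 *
        T.itA p t (fun _ ζ k => if N ≤ mI p ζ ∧ k ≤ K then 1 else 0) A0 ζ0 0)) := by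
        rw [← mul_assoc (2 ^ w) (eps w), h7, one_mul]
    _ ≤ 2 ^ w * (2 ^ c * (4 * (2 / 3) ^ N)) := mul_le_mul_right h6 _
    _ = _ := by rw [pow_add, pow_add]; norm_num; ring

end Stages

end Pool.Agent.Mut
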