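import Pool.Agent.Mut.Coding

/-!
# Halting probability and incompressibility
-/

open MeasureTheory
open scoped ENNReal NNReal
open Pool.Agent.Rand

namespace Pool.Agent.Mut

/-- `p` is a computable enumeration without repetitions of the programs on which `U` halts for the
empty input. -/
structure IsEnumeration (U : List Bool → List Bool →. ℕ) (p : ℕ → List Bool) : Prop where
  computable : Computable p
  injective : Function.Injective p
  range : ∀ q : List Bool, (∃ i, p i = q) ↔ (U q []).Dom

/-! ### Kraft's inequality -/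

lemma mem_cyl_iff_prefix {x : List Bool} {ω : Cantor} :
    ω ∈ cyl x ↔ ∃ n, x = initSeg ω n := by
  constructor
  · intro h; exact ⟨x.length, h.symm⟩
  · rintro ⟨n, rfl⟩
    rw [mem_cyl, length_initSeg]

lemma prefix_of_mem_cyl {x y : List Bool} {ω : Cantor} (hx : ω ∈ cyl x) (hy : ω ∈ cyl y) :
    x <+: y ∨ y <+: x := by
  rw [mem_cyl] at hx hy
  rcases le_total x.length y.length with h | h
  · left
    rw [← hx, ← hy, ← take_initSeg ω h]
    exact List.take_prefix _ _
  · right
    rw [← hx, ← hy, ← take_initSeg ω h]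
    exact List.take_prefix _ _

lemma mem_cyl_unique {U : List Bool → List Bool →. ℕ} (hU : IsPrefixMachine U) {x M M' : List Bool}
    {ω : Cantor} (h : ω ∈ cyl M) (h' : ω ∈ cyl M') (hd : (U M x).Dom) (hd' : (U M' x).Dom) :
    M = M' := by
  rcases prefix_of_mem_cyl h h' with h1 | h1
  · exact hU.prefixFree x _ _ hd hd' h1
  · exact (hU.prefixFree x _ _ hd' hd h1).symm

/-- integral over coin sequences of a function of the program read -/
lemma lintegral_programs (G : List Bool → ℝ≥0∞) :
    ∫⁻ ω, ∑' M, (cyl M).indicator (fun _ => G M) ω ∂unif = ∑' M : List Bool, (1 / 2) ^ M.length * G M := by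
  rw [lintegral_tsum]
  · refine tsum_congr (fun M => ?_)
    rw [lintegral_indicator_const (measurableSet_cyl M), unif_cyl, mul_comm]
  · intro M
    exact (measurable_const.indicator (measurableSet_cyl M)).aemeasurable

lemma kraft {U : List Bool → List Bool →. ℕ} (hU : IsPrefixMachine U) (x : List Bool)
    (G : List Bool → ℝ≥0∞) (hG1 : ∀ M, G M ≤ 1) (hG2 : ∀ M, ¬ (U M x).Dom → G M = 0) :
    ∑' M : List Bool, (1 / 2) ^ M.length * G M ≤ 1 := by
  rw [← lintegral_programs]
  have h1 : ∀ ω, ∑' M, (cyl M).indicator (fun _ => G M) ω ≤ 1 := by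
    intro ω
    by_cases h : ∃ M, ω ∈ cyl M ∧ (U M x).Dom
    · obtain ⟨M, hM1, hM2⟩ := h
      rw [tsum_eq_single M]
      · rw [Set.indicator_of_mem hM1]; exact hG1 M
      · intro M' hM'
        by_cases h2 : ω ∈ cyl M'
        · rw [Set.indicator_of_mem h2]
          refine hG2 M' (fun hd => hM' ?_)
          exact mem_cyl_unique hU h2 hM1 hd hM2
        · rw [Set.indicator_of_notMem h2]
    · push Not at h
      rw [ENNReal.tsum_eq_zero.2]
      · exact zero_le
      · intro M
        by_cases h2 : ω ∈ cyl M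
        · rw [Set.indicator_of_mem h2]
          exact hG2 M (h M h2)
        · rw [Set.indicator_of_notMem h2]
  calc ∫⁻ ω, ∑' M, (cyl M).indicator (fun _ => G M) ω ∂unif ≤ ∫⁻ _, 1 ∂unif := lintegral_mono h1
    _ = 1 := by simp

/-! ### Partial sums -/

/-- partial sums of the halting probability -/
noncomputable def om (p : ℕ → List Bool) (n : ℕ) : ℝ≥0 := ∑ i ∈ Finset.range n, (1 / 2) ^ (p i).length

/-- the halting probability -/
noncomputable def Om (p : ℕ → List Bool) : ℝ≥0 := ∑' i, (1 / 2 : ℝ≥0) ^ (p i).length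

section

variable {U : List Bool → List Bool →. ℕ} {p : ℕ → List Bool}

lemma coe_half : ((1 / 2 : ℝ≥0) : ℝ≥0∞) = 1 / 2 := by
  rw [ENNReal.coe_div (by norm_num)]; simp

lemma tsum_programs_le (hU : IsPrefixMachine U) (hp : IsEnumeration U p) :
    ∑' i, ((1 / 2 : ℝ≥0∞) ^ (p i).length) ≤ 1 := by
  classical
  have h := kraft hU [] (fun M => if (U M []).Dom then 1 else 0) (fun M => by split_ifs <;> simp)
    (fun M h => by simp [h])
  refine le_trans ?_ h
  have h2 : ∀ i, (1 / 2 : ℝ≥0∞) ^ (p i).length = (fun M : List Bool => (1 / 2 : ℝ≥0∞) ^ M.length *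
      (if (U M []).Dom then 1 else 0)) (p i) := by
    intro i
    have : (U (p i) []).Dom := (hp.range _).1 ⟨i, rfl⟩
    simp [this]
  rw [tsum_congr h2]
  exact ENNReal.tsum_comp_le_tsum_of_injective hp.injective _

lemma summable_programs (hU : IsPrefixMachine U) (hp : IsEnumeration U p) :
    Summable (fun i => (1 / 2 : ℝ≥0) ^ (p i).length) := by
  rw [← ENNReal.tsum_coe_ne_top_iff_summable]
  refine ne_of_lt (lt_of_le_of_lt (le_of_eq ?_) (lt_of_le_of_lt (tsum_programs_le hU hp)
    ENNReal.one_lt_top))
  refine tsum_congr (fun i => ?_)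
  rw [ENNReal.coe_pow, coe_half]

lemma om_succ (n : ℕ) : om p (n + 1) = om p n + (1 / 2) ^ (p n).length :=
  Finset.sum_range_succ _ _

lemma om_strictMono : StrictMono (om p) := by
  refine strictMono_nat_of_lt_succ (fun n => ?_)
  rw [om_succ]
  exact lt_add_of_pos_right _ (by positivity)

lemma om_lt_Om (hU : IsPrefixMachine U) (hp : IsEnumeration U p) (n : ℕ) : om p n < Om p := by
  refine lt_of_lt_of_le (om_strictMono (Nat.lt_succ_self n)) ?_
  exact (summable_programs hU hp).sum_le_tsum _ (fun i _ => zero_le)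

lemma Om_le_one (hU : IsPrefixMachine U) (hp : IsEnumeration U p) : Om p ≤ 1 := by
  rw [← ENNReal.coe_le_coe]
  unfold Om
  rw [ENNReal.coe_tsum (summable_programs hU hp)]
  refine le_trans (le_of_eq ?_) (tsum_programs_le hU hp)
  refine tsum_congr (fun i => ?_)
  rw [ENNReal.coe_pow, coe_half]

lemma tendsto_om (hU : IsPrefixMachine U) (hp : IsEnumeration U p) :
    Filter.Tendsto (om p) Filter.atTop (nhds (Om p)) :=
  (summable_programs hU hp).hasSum.tendsto_sum_nat

/-- the amount missing at stage `n` -/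
noncomputable def gap (p : ℕ → List Bool) (n : ℕ) : ℝ≥0 := Om p - om p n

lemma gap_pos (hU : IsPrefixMachine U) (hp : IsEnumeration U p) (n : ℕ) : 0 < gap p n :=
  tsub_pos_of_lt (om_lt_Om hU hp n)

lemma om_add_gap (hU : IsPrefixMachine U) (hp : IsEnumeration U p) (n : ℕ) :
    om p n + gap p n = Om p := add_tsub_cancel_of_le (om_lt_Om hU hp n).le

lemma gap_anti : Antitone (gap p) := fun _ _ h => tsub_le_tsub_left (om_strictMono.monotone h) _

lemma gap_strictAnti (hU : IsPrefixMachine U) (hp : IsEnumeration U p) : StrictAnti (gap p) := by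
  intro a b h
  have h1 := om_add_gap hU hp a
  have h2 := om_add_gap hU hp b
  have h3 : om p a < om p b := om_strictMono h
  by_contra h4
  push Not at h4
  have : om p a + gap p a < om p b + gap p b := add_lt_add_of_lt_of_le h3 h4
  rw [h1, h2] at this
  exact lt_irrefl _ this

lemma half_pow_le_gap (hU : IsPrefixMachine U) (hp : IsEnumeration U p) {n j : ℕ} (h : n ≤ j) :
    (1 / 2 : ℝ≥0) ^ (p j).length ≤ gap p n := by
  have h1 : om p j + (1 / 2) ^ (p j).length ≤ Om p := by
    rw [← om_succ]; exact (om_lt_Om hU hp _).le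
  have h2 : om p n ≤ om p j := om_strictMono.monotone h
  exact le_tsub_of_add_le_left ((add_le_add_left h2 _).trans h1)

lemma comp_sum_range {α : Type*} [Primcodable α] {f : α × ℕ → ℕ} (hf : Computable f) {n : α → ℕ}
    (hn : Computable n) : Computable (fun a => ∑ i ∈ Finset.range (n a), f (a, i)) := by
  have h : Computable (fun a => (List.range (n a)).foldl (fun acc i => acc + f (a, i)) 0) := by
    refine computable_foldl (f := fun a => List.range (n a)) (g := fun _ => 0)
      (h := fun a acc i => acc + f (a, i)) (Primrec.list_range.to_comp.comp hn)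
      (Computable.const 0) ?_
    exact comp_add (Computable.fst.comp Computable.snd)
      (hf.comp (Computable.fst.pair (Computable.snd.comp Computable.snd)))
  refine h.of_eq ?_
  intro a
  induction n a with
  | zero => simp
  | succ m ih =>
    rw [List.range_succ, List.foldl_append, ih, Finset.sum_range_succ]
    simp

lemma qc_om (hp : IsEnumeration U p) : QC (om p) := by
  unfold om
  exact QC.sum_range (f := fun q : ℕ × ℕ => (1 / 2) ^ (p q.2).length) (n := fun n => n)
    (QC.half_pow (Computable.list_length.comp (hp.computable.comp Computable.snd))) Computable.id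

/-- **Incompressibility** of the halting probability: a lower semicomputable semimeasure on pairs
gives weight at most `O(2 ^ (-m))` to the pairs `(n, m)` such that the stage `n` is within
`4 * 2 ^ (-m)` of the halting probability. -/
theorem incompress (hU : IsOptimal U) (hp : IsEnumeration U p) {ν : ℕ × ℕ → ℝ≥0∞} (hν : LSC ν)
    (hsum : ∑' q, ν q ≤ 1) :
    ∃ c : ℕ, ∀ m : ℕ, ∑' n : ℕ, (if gap p n * 2 ^ m < 4 then ν (n, m) else 0) ≤
      2 ^ c * (1 / 2) ^ m := by
  classical
  -- outputs of the programs
  have hdom : ∀ i, (U (p i) []).Dom := fun i => (hp.range _).1 ⟨i, rfl⟩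
  let o : ℕ → ℕ := fun i => (U (p i) []).get (hdom i)
  have ho : Computable o := Partrec.of_eq_tot
    (hU.1.computable.comp hp.computable (Computable.const [])) (fun i => Part.get_mem _)
  let yv : ℕ × ℕ → ℕ := fun q => (∑ i ∈ Finset.range q.1,
    if (p i).length + 2 ≤ q.2 then o i else 0) + 1
  have hyv : Computable yv := by
    refine comp_succ (comp_sum_range (f := fun a : (ℕ × ℕ) × ℕ =>
      if (p a.2).length + 2 ≤ a.1.2 then o a.2 else 0) ?_ Computable.fst)
    have hc : Computable (fun a : (ℕ × ℕ) × ℕ => decide ((p a.2).length + 2 ≤ a.1.2)) :=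
      comp_le (comp_add (Computable.list_length.comp (hp.computable.comp Computable.snd))
        (Computable.const 2)) (Computable.snd.comp Computable.fst)
    refine (Computable.cond hc (ho.comp Computable.snd) (Computable.const 0)).of_eq ?_
    intro a
    by_cases h : (p a.2).length + 2 ≤ a.1.2 <;> simp [h]
  -- long programs beyond a good stage
  have hlong : ∀ n m j, gap p n * 2 ^ m < 4 → n ≤ j → ¬ (p j).length + 2 ≤ m := by
    intro n m j h1 h2 h3
    have h4 := half_pow_le_gap hU.1 hp h2
    have h5 : (4 : ℝ≥0) ≤ (1 / 2) ^ (p j).length * 2 ^ m := by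
      obtain ⟨d, rfl⟩ := Nat.exists_eq_add_of_le h3
      have h6 : (1 / 2 : ℝ≥0) ^ (p j).length * 2 ^ ((p j).length + 2 + d) = 4 * 2 ^ d := by
        rw [pow_add, pow_add, ← mul_assoc, ← mul_assoc, half_mul_two_pow]
        norm_num
      rw [h6]
      exact le_mul_of_one_le_right (by norm_num) (one_le_pow₀ (by norm_num))
    have h7 : (1 / 2 : ℝ≥0) ^ (p j).length * 2 ^ m ≤ gap p n * 2 ^ m := by gcongr
    exact absurd (h5.trans h7) (not_le.2 h1)
  have hyeq : ∀ n n' m, n ≤ n' → gap p n * 2 ^ m < 4 → yv (n, m) = yv (n', m) := by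
    intro n n' m hnn h
    simp only [yv]
    congr 1
    refine Finset.sum_subset (Finset.range_mono hnn) ?_
    intro i _ hi
    rw [if_neg]
    exact hlong n m i h (by simpa using hi)
  have hynot : ∀ n m q, gap p n * 2 ^ m < 4 → yv (n, m) ∈ U q [] → ¬ q.length + 2 ≤ m := by
    intro n m q h hq hl
    obtain ⟨i, rfl⟩ := (hp.range q).2 (Part.dom_iff_mem.2 ⟨_, hq⟩)
    have hi : i < n := by
      by_contra hcon
      exact hlong n m i h (by omega) hl
    have h1 : o i = yv (n, m) := Part.mem_unique (Part.get_mem _) hq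
    have h2 : o i ≤ ∑ i ∈ Finset.range n, if (p i).length + 2 ≤ m then o i else 0 := by
      have := Finset.single_le_sum (f := fun i => if (p i).length + 2 ≤ m then o i else 0)
        (fun i _ => Nat.zero_le _) (Finset.mem_range.2 hi)
      simpa [hl] using this
    have h3 : yv (n, m) = (∑ i ∈ Finset.range n, if (p i).length + 2 ≤ m then o i else 0) + 1 := rfl
    omega
  -- push forward
  let ν' : List Bool × ℕ → ℝ≥0∞ := fun a => ∑' q : ℕ × ℕ, if yv q = a.2 then ν q else 0
  have hν' : LSC ν' := by
    refine LSC.tsum (f := fun a : (List Bool × ℕ) × (ℕ × ℕ) => if yv a.2 = a.1.2 then ν a.2 else 0) ?_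
    exact LSC.ite (p := fun a : (List Bool × ℕ) × (ℕ × ℕ) => yv a.2 = a.1.2)
      (comp_eq (hyv.comp Computable.snd) (Computable.snd.comp Computable.fst))
      (hν.comp Computable.snd)
  have hsum' : ∀ x, ∑' y, ν' (x, y) ≤ 1 := by
    intro x
    refine le_trans (le_of_eq ?_) hsum
    simp only [ν']
    rw [ENNReal.tsum_comm]
    refine tsum_congr (fun q => ?_)
    rw [tsum_eq_single (yv q)]
    · simp
    · intro y hy
      rw [if_neg (fun h => hy h.symm)]
  obtain ⟨c, hc⟩ := coding hU hν' hsum'
  refine ⟨c + 1, fun m => ?_⟩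
  by_cases hex : ∃ n, gap p n * 2 ^ m < 4
  · obtain ⟨n0, hn0⟩ := hex
    have h1 : ∑' n : ℕ, (if gap p n * 2 ^ m < 4 then ν (n, m) else 0) ≤ ν' ([], yv (n0, m)) := by
      simp only [ν']
      rw [ENNReal.tsum_prod']
      refine ENNReal.tsum_le_tsum (fun n => ?_)
      refine le_trans ?_ (ENNReal.le_tsum m)
      split_ifs with h2 h3 h3
      · exact le_rfl
      · exfalso
        apply h3
        rcases le_total n n0 with h4 | h4
        · exact hyeq n n0 m h4 h2
        · exact (hyeq n0 n m h4 hn0).symm
      · exact zero_le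
      · exact le_rfl
    refine h1.trans ?_
    by_cases h0 : ν' ([], yv (n0, m)) = 0
    · rw [h0]; exact zero_le
    · obtain ⟨M, hM1, hM2⟩ := hc [] (yv (n0, m)) h0
      have h2 := hynot n0 m M hn0 hM1
      refine hM2.trans ?_
      rw [pow_succ, mul_assoc]
      refine mul_le_mul_right ?_ _
      have h3 : m ≤ M.length + 1 := by omega
      have h4 : (1 / 2 : ℝ≥0∞) ^ (M.length + 1) ≤ (1 / 2) ^ m :=
        pow_le_pow_right_of_le_one' (by rw [one_div]; exact ENNReal.one_half_lt_one.le) h3
      calc (1 / 2 : ℝ≥0∞) ^ M.length = 2 * (1 / 2) ^ (M.length + 1) := by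
            rw [pow_succ, mul_comm, mul_assoc, one_div,
              ENNReal.inv_mul_cancel (by norm_num) (by norm_num), mul_one]
        _ ≤ _ := mul_le_mul_right h4 _
  · push Not at hex
    rw [ENNReal.tsum_eq_zero.2]
    · exact zero_le
    · intro n
      rw [if_neg (not_lt.2 (hex n))]

end

end Pool.Agent.Mut
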