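import Pool.Agent.Mut.Operator

/-!
# The total expected relative progress in a bounded number of steps is bounded
-/

open MeasureTheory
open scoped ENNReal NNReal
open Pool.Agent.Rand

namespace Pool.Agent.Mut

variable {U : List Bool → List Bool →. ℕ} {p : ℕ → List Bool}

lemma exists_scale {g : ℝ≥0} (h0 : 0 < g) (h1 : g ≤ 1) :
    ∃ e : ℕ, (1 / 2 : ℝ≥0) ^ e ≤ g / 2 ∧ g / 4 < (1 / 2) ^ e := by
  classical
  have hex : ∃ e : ℕ, (1 / 2 : ℝ≥0) ^ e ≤ g / 2 := by
    have ht : Filter.Tendsto (fun m : ℕ => (1 / 2 : ℝ≥0) ^ m) Filter.atTop (nhds 0) :=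
      tendsto_pow_atTop_nhds_zero_of_lt_one (by norm_num)
        (by rw [div_lt_one (by norm_num)]; norm_num)
    obtain ⟨e, he⟩ := (ht.eventually (gt_mem_nhds (show 0 < g / 2 by positivity))).exists
    exact ⟨e, le_of_lt he⟩
  obtain ⟨e, he, hmin⟩ : ∃ e : ℕ, (1 / 2 : ℝ≥0) ^ e ≤ g / 2 ∧
      ∀ m < e, ¬ (1 / 2 : ℝ≥0) ^ m ≤ g / 2 :=
    ⟨Nat.find hex, Nat.find_spec hex, fun m hm => Nat.find_min hex hm⟩
  refine ⟨e, he, ?_⟩
  cases e with
  | zero =>
    exfalso
    rw [pow_zero] at he
    have h2 : g / 2 ≤ 1 / 2 := by gcongr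
    have h3 : (1 : ℝ≥0) ≤ 1 / 2 := he.trans h2
    rw [le_div_iff₀ (by norm_num)] at h3
    norm_num at h3
  | succ e =>
    have h2 := not_le.1 (hmin e (Nat.lt_succ_self e))
    rw [pow_succ]
    calc g / 4 = g / 2 * (1 / 2) := by rw [div_mul_div_comm]; norm_num
      _ < _ := by gcongr

lemma one_le_tsum_cw (hU : IsPrefixMachine U) (hp : IsEnumeration U p) {e φ : ℕ}
    (h : (1 / 2 : ℝ≥0) ^ e ≤ gap p φ / 2) :
    1 ≤ ∑' n, (if φ ≤ n then ((2 ^ e * cw p e φ n : ℝ≥0) : ℝ≥0∞) else 0) := by
  have hg := gap_pos hU hp φ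
  have h1 : om p φ + (1 / 2) ^ e < Om p := by
    rw [← om_add_gap hU hp φ]
    have h2 : gap p φ / 2 < gap p φ := NNReal.half_lt_self hg.ne'
    have h3 := lt_of_le_of_lt h h2
    gcongr
  obtain ⟨N, hN⟩ := ((tendsto_om hU hp).eventually (lt_mem_nhds h1)).exists
  refine le_trans ?_ (ENNReal.sum_le_tsum (Finset.range N))
  have h2 := sum_cw (p := p) e φ N
  rw [min_eq_right (hN.le.trans (om_strictMono.monotone (le_max_left _ _))), add_comm] at h2
  have h3 := add_left_cancel h2
  have h4 : (∑ n ∈ Finset.range N, if φ ≤ n then 2 ^ e * cw p e φ n else 0) = 1 := by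
    calc (∑ n ∈ Finset.range N, if φ ≤ n then 2 ^ e * cw p e φ n else 0)
        = 2 ^ e * ∑ n ∈ Finset.range N, (if φ ≤ n then cw p e φ n else 0) := by
          rw [Finset.mul_sum]
          refine Finset.sum_congr rfl (fun n _ => ?_)
          split_ifs <;> simp
      _ = 2 ^ e * (1 / 2) ^ e := by rw [h3]
      _ = 1 := by rw [mul_comm]; exact half_mul_two_pow e
  have h5 : ((∑ n ∈ Finset.range N, if φ ≤ n then 2 ^ e * cw p e φ n else 0 : ℝ≥0) : ℝ≥0∞) = 1 := by
    rw [h4]; rfl
  rw [← h5, ENNReal.ofNNReal_finsetSum]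
  refine Finset.sum_le_sum (fun n _ => ?_)
  split_ifs <;> simp

lemma LSC.sum_range_const {α : Type*} [Primcodable α] {f : ℕ → α → ℝ≥0∞} (R : ℕ)
    (hf : ∀ t, LSC (f t)) : LSC (fun a => ∑ t ∈ Finset.range R, f t a) := by
  induction R with
  | zero => exact LSC.zero.of_eq (fun _ => by simp)
  | succ R ih =>
    refine (LSC.add ih (hf R)).of_eq (fun a => ?_)
    rw [Finset.sum_range_succ]

namespace Stages

variable (T : Stages U)

/-- comparison with a kernel below the transition kernel -/
lemma opP_destroy (hU : IsPrefixMachine U) (A : List Bool) (D : ℕ → ℝ≥0∞) (can : ℕ → List Bool)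
    (hinj : Function.Injective can) (hD : ∀ n, D n ≤ ∑' z : ℕ, T.kap (A, (z, can n)))
    (f : List Bool → ℝ≥0∞) (V : ℝ≥0∞) (hf : ∀ B, f B ≤ V) :
    T.opP f A + (∑' n, D n) * V ≤ V + ∑' n, D n * f (can n) := by
  classical
  let κ : List Bool → ℝ≥0∞ := fun B => ∑' z : ℕ, T.kap (A, (z, B))
  let D' : List Bool → ℝ≥0∞ := fun B => ∑' n, if can n = B then D n else 0
  have hD' : ∀ h : List Bool → ℝ≥0∞, ∑' B, D' B * h B = ∑' n, D n * h (can n) := by
    intro h
    simp only [D', ← ENNReal.tsum_mul_right]
    rw [ENNReal.tsum_comm]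
    refine tsum_congr (fun n => ?_)
    rw [tsum_eq_single (can n)]
    · rw [if_pos rfl]
    · intro B hB
      rw [if_neg (fun h => hB h.symm), zero_mul]
  have hDκ : ∀ B, D' B ≤ κ B := by
    intro B
    by_cases h : ∃ n, can n = B
    · obtain ⟨n, rfl⟩ := h
      simp only [D']
      rw [tsum_eq_single n]
      · rw [if_pos rfl]; exact hD n
      · intro m hm
        rw [if_neg (fun h => hm (hinj h))]
    · push Not at h
      simp only [D']
      rw [ENNReal.tsum_eq_zero.2]
      · exact zero_le
      · intro n; rw [if_neg (h n)]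
  have hκ : ∀ h : List Bool → ℝ≥0∞, ∑' q : ℕ × List Bool, T.kap (A, q) * h q.2 = ∑' B, κ B * h B := by
    intro h
    rw [ENNReal.tsum_prod', ENNReal.tsum_comm]
    refine tsum_congr (fun B => ?_)
    show ∑' z : ℕ, T.kap (A, (z, B)) * h B = (∑' z : ℕ, T.kap (A, (z, B))) * h B
    rw [ENNReal.tsum_mul_right]
  have hpt : ∀ B, κ B * f B + D' B * V ≤ κ B * V + D' B * f B := by
    intro B
    obtain ⟨r, hr⟩ := exists_add_of_le (hDκ B)
    rw [hr]
    have h1 : r * f B ≤ r * V := mul_le_mul_right (hf B) _
    calc (D' B + r) * f B + D' B * V = (D' B * f B + D' B * V) + r * f B := by ring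
      _ ≤ (D' B * f B + D' B * V) + r * V := by gcongr
      _ = _ := by ring
  have hsum : (∑' B, κ B * f B) + (∑' n, D n) * V ≤ (∑' B, κ B * V) + ∑' n, D n * f (can n) := by
    have h1 := hD' (fun _ => V)
    rw [ENNReal.tsum_mul_right (a := V) (f := D)] at h1
    rw [← h1, ← hD' f, ← ENNReal.tsum_add, ← ENNReal.tsum_add]
    exact ENNReal.tsum_le_tsum hpt
  have htot : (∑' B, κ B * V) + (1 - ∑' q : ℕ × List Bool, T.kap (A, q)) * V = V := by
    rw [← hκ (fun _ => V), ENNReal.tsum_mul_right, ← add_mul,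
      add_tsub_cancel_of_le (T.tsum_kap_le_one hU A), one_mul]
  unfold opP
  rw [hκ f]
  calc (∑' B, κ B * f B) + (1 - ∑' q : ℕ × List Bool, T.kap (A, q)) * f A + (∑' n, D n) * V
      = ((∑' B, κ B * f B) + (∑' n, D n) * V) + (1 - ∑' q : ℕ × List Bool, T.kap (A, q)) * f A := by
        ring
    _ ≤ ((∑' B, κ B * V) + ∑' n, D n * f (can n)) +
        (1 - ∑' q : ℕ × List Bool, T.kap (A, q)) * V :=
        add_le_add hsum (mul_le_mul_right (hf A) _)
    _ = ((∑' B, κ B * V) + (1 - ∑' q : ℕ × List Bool, T.kap (A, q)) * V) +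
        ∑' n, D n * f (can n) := by ring
    _ = _ := by rw [htot]

lemma prog_eq_zero {A : List Bool} (h : ¬ (U A []).Dom) : T.prog p A = 0 := by
  unfold prog
  rw [ENNReal.tsum_eq_zero]
  intro q
  by_cases hq : T.kap (A, q) = 0
  · rw [hq, zero_mul]
  · exact absurd (T.kap_fit (B := q.2) (z := q.1) hq).2.2.1 h

/-- **Bound on the expected progress**: in any bounded number of steps the total expected relative
progress made from organisms of large fitness is bounded by a universal constant. -/
theorem bound_prog (hU : IsOptimal U) (hp : IsEnumeration U p) :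
    ∃ V : ℝ≥0∞, V ≠ ∞ ∧ ∀ R : ℕ, ∃ n0 : ℕ, ∀ r ≤ R, ∀ A,
      T.acc (fun A => if n0 ≤ fitness U A then T.prog p A else 0) r A ≤ V := by
  classical
  obtain ⟨canon, hcc, hcn⟩ := exists_canon hU T
  obtain ⟨c, hc⟩ := T.destroy hU hp hcc hcn
  refine ⟨2 ^ c + 1, by
    exact ENNReal.add_ne_top.2 ⟨ENNReal.pow_ne_top (by simp), ENNReal.one_ne_top⟩, fun R => ?_⟩
  -- the family of semimeasures
  let ν : ℕ × ℕ → ℝ≥0∞ := fun a => (1 / 2) ^ R *
    ∑ t ∈ Finset.range R, T.itU t (T.kz a.2) (canon (a.1 + 1))
  have hν : LSC ν := by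
    refine LSC.mul (LSC.half_pow (Computable.const R)) ?_
    refine LSC.sum_range_const R (fun t => ?_)
    exact (T.lsc_itU_kz t).comp (h := fun a : ℕ × ℕ => (a.2, canon (a.1 + 1)))
      (Computable.snd.pair (hcc.comp (comp_succ Computable.fst)))
  have hsum : ∀ n, ∑' z, ν (n, z) ≤ 1 := by
    intro n
    simp only [ν]
    rw [ENNReal.tsum_mul_left]
    rw [Summable.tsum_finsetSum (fun _ _ => ENNReal.summable)]
    have h1 : ∑ t ∈ Finset.range R, ∑' z, T.itU t (T.kz z) (canon (n + 1)) ≤ 2 ^ R := by
      refine (Finset.sum_le_sum (fun t _ => T.tsum_itU_kz_le hU.1 t _)).trans ?_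
      clear hν ν
      induction R with
      | zero => simp
      | succ R ih =>
        rw [Finset.sum_range_succ, pow_succ, mul_two]
        exact add_le_add ih le_rfl
    calc _ ≤ (1 / 2 : ℝ≥0∞) ^ R * 2 ^ R := mul_le_mul_right h1 _
      _ = 1 := by
        rw [← mul_pow, one_div, ENNReal.inv_mul_cancel (by norm_num) (by norm_num), one_pow]
  obtain ⟨B, hB⟩ := typical hU hp hν hsum
  let S : ℕ → ℝ≥0∞ := fun n => ∑' z, ν (n, z) *
      (((1 / 2) ^ (p n).length * ((om p z - om p (n + 1)) / gap p (n + 1) ^ 2) : ℝ≥0) : ℝ≥0∞)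
  have hS : ∑' n, S n ≠ ∞ := ne_of_lt (lt_of_le_of_lt hB ENNReal.coe_lt_top)
  obtain ⟨n0, hn0⟩ : ∃ n0, ∑' k, S (k + n0) ≤ (4 * 2 ^ R)⁻¹ := by
    have h1 := ENNReal.tendsto_sum_nat_add S hS
    have h2 : (0 : ℝ≥0∞) < (4 * 2 ^ R)⁻¹ := by
      rw [ENNReal.inv_pos]
      exact ENNReal.mul_ne_top (by norm_num) (ENNReal.pow_ne_top (by norm_num))
    obtain ⟨n0, hn0⟩ := (h1.eventually (gt_mem_nhds h2)).exists
    exact ⟨n0, le_of_lt hn0⟩
  refine ⟨n0, fun r => ?_⟩
  set g : List Bool → ℝ≥0∞ := fun A => if n0 ≤ fitness U A then T.prog p A else 0 with hg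
  have hgle : ∀ A, g A ≤ T.prog p A := by
    intro A
    simp only [hg]
    split_ifs
    · exact le_rfl
    · exact zero_le
  induction r with
  | zero =>
    intro _ A
    simp [acc]
  | succ r ih =>
    intro hrR A
    have ih' := ih (by omega)
    rw [acc_succ]
    by_cases hA : n0 ≤ fitness U A ∧ (U A []).Dom
    · obtain ⟨hn, hdom⟩ := hA
      set φ := fitness U A with hφ
      have hφm : φ ∈ U A [] := by
        obtain ⟨a, ha⟩ := Part.dom_iff_mem.1 hdom
        rw [hφ, fitness_eq ha]
        exact ha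
      obtain ⟨e, he1, he2⟩ := exists_scale (gap_pos hU.1 hp φ)
        ((tsub_le_self).trans (Om_le_one hU.1 hp))
      have h2c : (2 : ℝ≥0∞) ^ c ≠ 0 := pow_ne_zero _ (by norm_num)
      have h2c' : (2 : ℝ≥0∞) ^ c ≠ ∞ := ENNReal.pow_ne_top (by norm_num)
      set b : ℝ≥0∞ := T.prog p A / 2 ^ c with hb
      let D : ℕ → ℝ≥0∞ := fun n => b * (if φ ≤ n then ((2 ^ e * cw p e φ n : ℝ≥0) : ℝ≥0∞) else 0)
      have hDle : ∀ n, D n ≤ ∑' z : ℕ, T.kap (A, (z, canon (n + 1))) := by
        intro n
        simp only [D]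
        by_cases h : φ ≤ n
        · rw [if_pos h, hb, ← ENNReal.mul_div_right_comm]
          refine ENNReal.div_le_of_le_mul ?_
          rw [mul_comm (∑' z : ℕ, T.kap (A, (z, canon (n + 1))))]
          exact hc A φ e n hφm h he1 he2
        · rw [if_neg h, mul_zero]; exact zero_le
      have hDsum : b ≤ ∑' n, D n := by
        simp only [D]
        rw [ENNReal.tsum_mul_left]
        calc b = b * 1 := (mul_one b).symm
          _ ≤ _ := mul_le_mul_right (one_le_tsum_cw hU.1 hp he1) _
      have hinj : Function.Injective (fun n => canon (n + 1)) := by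
        intro a b hab
        have h1 := hcn (a + 1)
        have h2 := hcn (b + 1)
        simp only at hab
        rw [hab] at h1
        have := Part.mem_unique h1 h2
        omega
      have hdes := T.opP_destroy hU.1 A D (fun n => canon (n + 1)) hinj hDle (T.acc g r)
        (2 ^ c + 1) ih'
      -- the contribution of the destroyed organisms is small
      have hsmall : ∑' n, D n * T.acc g r (canon (n + 1)) ≤ b := by
        have h2e : (2 : ℝ≥0) ^ e * gap p φ ≤ 4 := by
          have h1 : gap p φ ≤ 4 * (1 / 2) ^ e := by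
            rw [div_lt_iff₀ (by norm_num)] at he2
            rw [mul_comm]; exact he2.le
          calc (2 : ℝ≥0) ^ e * gap p φ ≤ 2 ^ e * (4 * (1 / 2) ^ e) := by gcongr
            _ = 4 * ((1 / 2) ^ e * 2 ^ e) := by ring
            _ = 4 := by rw [half_mul_two_pow, mul_one]
        have hterm : ∀ n, D n * T.acc g r (canon (n + 1)) ≤
            b * (4 * 2 ^ R) * (if φ ≤ n then S n else 0) := by
          intro n
          by_cases h : φ ≤ n
          · simp only [D, if_pos h]
            have hacc : T.acc g r (canon (n + 1)) ≤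
                ∑' z, 2 ^ R * ν (n, z) * ((upr p (n + 1) z : ℝ≥0) : ℝ≥0∞) := by
              calc T.acc g r (canon (n + 1)) ≤ T.acc (T.prog p) r (canon (n + 1)) :=
                    T.acc_mono_left hgle r _
                _ ≤ T.acc (T.prog p) R (canon (n + 1)) := T.acc_mono (by omega) _
                _ ≤ ∑ t ∈ Finset.range R, ∑' z, T.itU t (T.kz z) (canon (n + 1)) *
                      ((upr p (n + 1) z : ℝ≥0) : ℝ≥0∞) := by
                    refine Finset.sum_le_sum (fun t _ => ?_)
                    refine (T.itP_le_itU t _ _).trans ?_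
                    refine T.itU_prog_le hU.1 hp (n + 1) t _ ?_
                    rw [fitness_eq (hcn (n + 1))]
                _ = _ := by
                    rw [← Summable.tsum_finsetSum (fun _ _ => ENNReal.summable)]
                    refine tsum_congr (fun z => ?_)
                    simp only [ν]
                    rw [← mul_assoc (2 ^ R) ((1 / 2) ^ R), ← mul_pow, one_div,
                      ENNReal.mul_inv_cancel (by norm_num) (by norm_num), one_pow, one_mul,
                      Finset.sum_mul]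
            have hcwle : 2 ^ e * cw p e φ n ≤ 4 * ((1 / 2) ^ (p n).length / gap p (n + 1)) := by
              have hgn := gap_pos hU.1 hp (n + 1)
              have h3 : cw p e φ n ≤ (1 / 2) ^ (p n).length := by
                unfold cw
                rw [om_succ, tsub_le_iff_right]
                rcases le_total (om p n) (om p φ + (1 / 2) ^ e) with h4 | h4
                · rw [min_eq_left h4, add_comm]
                  exact min_le_left _ _
                · rw [min_eq_right h4]
                  exact (min_le_right _ _).trans le_add_self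
              have h5 : gap p (n + 1) ≤ gap p φ := gap_anti (by omega)
              rw [← mul_div_assoc, le_div_iff₀ hgn]
              calc 2 ^ e * cw p e φ n * gap p (n + 1) ≤
                    2 ^ e * (1 / 2) ^ (p n).length * gap p φ := by gcongr
                _ = (2 ^ e * gap p φ) * (1 / 2) ^ (p n).length := by ring
                _ ≤ _ := by gcongr
            calc b * ((2 ^ e * cw p e φ n : ℝ≥0) : ℝ≥0∞) * T.acc g r (canon (n + 1))
                ≤ b * ((4 * ((1 / 2) ^ (p n).length / gap p (n + 1)) : ℝ≥0) : ℝ≥0∞) *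
                  ∑' z, 2 ^ R * ν (n, z) * ((upr p (n + 1) z : ℝ≥0) : ℝ≥0∞) :=
                  mul_le_mul' (mul_le_mul_right (ENNReal.coe_le_coe.2 hcwle) _) hacc
              _ = _ := by
                  simp only [S]
                  rw [← ENNReal.tsum_mul_left, ← ENNReal.tsum_mul_left]
                  refine tsum_congr (fun z => ?_)
                  have h6 : (1 / 2) ^ (p n).length * ((om p z - om p (n + 1)) / gap p (n + 1) ^ 2) =
                      ((1 / 2) ^ (p n).length / gap p (n + 1)) * upr p (n + 1) z := by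
                    unfold upr
                    rw [pow_two, div_mul_div_comm, mul_div_assoc]
                  rw [h6, ENNReal.coe_mul, ENNReal.coe_mul]
                  push_cast
                  ring
          · simp only [D, if_neg h]
            simp
        refine (ENNReal.tsum_le_tsum hterm).trans ?_
        rw [ENNReal.tsum_mul_left]
        have h1 : ∑' n, (if φ ≤ n then S n else 0) ≤ (4 * 2 ^ R)⁻¹ := by
          refine le_trans ?_ hn0
          have e1 := Summable.sum_add_tsum_nat_add' (k := n0) (f := fun n =>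
            (if φ ≤ n then S n else 0)) ENNReal.summable
          rw [← e1, Finset.sum_eq_zero, zero_add]
          · refine ENNReal.tsum_le_tsum (fun k => ?_)
            split_ifs
            · exact le_rfl
            · exact zero_le
          · intro i hi
            have hi' := Finset.mem_range.1 hi
            rw [if_neg (by omega)]
        calc b * (4 * 2 ^ R) * ∑' n, (if φ ≤ n then S n else 0) ≤
              b * (4 * 2 ^ R) * (4 * 2 ^ R)⁻¹ := mul_le_mul_right h1 _
          _ = b := by
            rw [mul_assoc, ENNReal.mul_inv_cancel, mul_one]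
            · exact mul_ne_zero (by norm_num) (pow_ne_zero _ (by norm_num))
            · exact ENNReal.mul_ne_top (by norm_num) (ENNReal.pow_ne_top (by norm_num))
      have hbfin : b * (2 ^ c + 1) ≠ ∞ := by
        refine ENNReal.mul_ne_top ?_ ?_
        · rw [hb]
          refine ENNReal.div_ne_top ?_ h2c
          exact ne_of_lt (lt_of_le_of_lt (T.prog_le_one hU.1 hp A) ENNReal.one_lt_top)
        · exact ENNReal.add_ne_top.2 ⟨h2c', ENNReal.one_ne_top⟩
      have hbV : b * (2 ^ c + 1) = T.prog p A + b := by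
        rw [mul_add, mul_one, hb, ENNReal.div_mul_cancel h2c h2c']
      have hfinal : (g A + T.opP (T.acc g r) A) + b * (2 ^ c + 1) ≤
          (2 ^ c + 1) + b * (2 ^ c + 1) := by
        calc (g A + T.opP (T.acc g r) A) + b * (2 ^ c + 1)
            ≤ (g A + T.opP (T.acc g r) A) + (∑' n, D n) * (2 ^ c + 1) := by gcongr
          _ = g A + (T.opP (T.acc g r) A + (∑' n, D n) * (2 ^ c + 1)) := by ring
          _ ≤ T.prog p A + ((2 ^ c + 1) + b) :=
              add_le_add (hgle A) (hdes.trans (add_le_add le_rfl hsmall))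
          _ = _ := by rw [hbV]; ring
      exact ENNReal.le_of_add_le_add_right hbfin hfinal
    · have h0 : g A = 0 := by
        simp only [hg]
        by_cases h : n0 ≤ fitness U A
        · rw [if_pos h]
          exact T.prog_eq_zero (fun hd => hA ⟨h, hd⟩)
        · rw [if_neg h]
      rw [h0, zero_add]
      refine (T.opP_mono ih' A).trans ?_
      rw [T.opP_const hU.1]

end Stages

end Pool.Agent.Mut
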