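import Pool.Agent.Mut.Calc

/-!
# Prefix machines, a Kraft–Chaitin construction and the coding theorem
-/

open scoped ENNReal NNReal
open Pool.Agent.Rand

namespace Pool.Agent.Mut

/-- A conditional prefix machine: a partial computable function of a program and an input (both
binary strings) with values in the natural numbers, such that for every input the set of programs
on which it halts is prefix-free. -/
structure IsPrefixMachine (U : List Bool → List Bool →. ℕ) : Prop where
  computable : Partrec₂ U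
  prefixFree : ∀ x p q : List Bool, (U p x).Dom → (U q x).Dom → p <+: q → p = q

/-- An optimal (additively optimal) prefix machine. -/
def IsOptimal (U : List Bool → List Bool →. ℕ) : Prop :=
  IsPrefixMachine U ∧ ∀ V : List Bool → List Bool →. ℕ, IsPrefixMachine V →
    ∃ c : ℕ, ∀ (p x : List Bool) (y : ℕ), y ∈ V p x → ∃ q : List Bool, y ∈ U q x ∧
      q.length ≤ p.length + c

/-! ### Binary values -/

/-- binary value of a string -/
def bval (q : List Bool) : ℕ := q.foldl (fun acc b => 2 * acc + (bif b then 1 else 0)) 0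

lemma computable_bval : Computable bval := by
  unfold bval
  refine computable_foldl (f := fun q : List Bool => q) (g := fun _ => 0)
    (h := fun _ acc b => 2 * acc + (bif b then 1 else 0)) Computable.id (Computable.const 0) ?_
  exact comp_add (comp_mul (Computable.const 2) (Computable.fst.comp Computable.snd))
    (Computable.cond (Computable.snd.comp Computable.snd) (Computable.const 1)
      (Computable.const 0))

lemma bval_append_singleton (q : List Bool) (b : Bool) :
    bval (q ++ [b]) = 2 * bval q + (bif b then 1 else 0) := by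
  simp [bval, List.foldl_append]

lemma bval_lt (q : List Bool) : bval q < 2 ^ q.length := by
  induction q using List.reverseRecOn with
  | nil => simp [bval]
  | append_singleton q b ih =>
    rw [bval_append_singleton, List.length_append, List.length_singleton, pow_succ]
    cases b <;> simp <;> omega

lemma bval_append (q r : List Bool) : bval (q ++ r) = bval q * 2 ^ r.length + bval r := by
  induction r using List.reverseRecOn with
  | nil => simp [bval]
  | append_singleton r b ih =>
    rw [← List.append_assoc, bval_append_singleton, bval_append_singleton, ih, List.length_append,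
      List.length_singleton, pow_succ]
    ring

lemma exists_bval (n a : ℕ) (h : a < 2 ^ n) : ∃ q : List Bool, q.length = n ∧ bval q = a := by
  induction n generalizing a with
  | zero => exact ⟨[], rfl, by simp at h; simp [bval, h]⟩
  | succ n ih =>
    obtain ⟨q, hq, hqa⟩ := ih (a / 2) (by rw [pow_succ] at h; omega)
    refine ⟨q ++ [a % 2 == 1], by simp [hq], ?_⟩
    rw [bval_append_singleton, hqa]
    rcases Nat.mod_two_eq_zero_or_one a with h2 | h2
    · rw [h2]; simp; omega
    · rw [h2]; simp; omega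

/-- left endpoint of the dyadic interval of a string -/
noncomputable def lft (q : List Bool) : ℝ≥0 := (bval q : ℝ≥0) * (1 / 2) ^ q.length

/-- right endpoint of the dyadic interval of a string -/
noncomputable def rgt (q : List Bool) : ℝ≥0 := ((bval q : ℝ≥0) + 1) * (1 / 2) ^ q.length

lemma lft_lt_rgt (q : List Bool) : lft q < rgt q := by
  unfold lft rgt
  have : (0 : ℝ≥0) < (1 / 2) ^ q.length := by positivity
  nlinarith [this]

lemma half_mul_two_pow (n : ℕ) : (1 / 2 : ℝ≥0) ^ n * 2 ^ n = 1 := by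
  rw [← mul_pow]; simp

lemma lft_mono {q q' : List Bool} (h : q <+: q') : lft q ≤ lft q' := by
  obtain ⟨r, rfl⟩ := h
  unfold lft
  rw [bval_append, List.length_append, pow_add]
  push_cast
  have h1 := half_mul_two_pow r.length
  calc (bval q : ℝ≥0) * (1 / 2) ^ q.length
      = (bval q : ℝ≥0) * (1 / 2) ^ q.length * ((1 / 2) ^ r.length * 2 ^ r.length) := by
        rw [h1, mul_one]
    _ = ((bval q : ℝ≥0) * 2 ^ r.length) * ((1 / 2) ^ q.length * (1 / 2) ^ r.length) := by ring
    _ ≤ _ := by gcongr; exact le_self_add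

lemma rgt_anti {q q' : List Bool} (h : q <+: q') : rgt q' ≤ rgt q := by
  obtain ⟨r, rfl⟩ := h
  unfold rgt
  rw [bval_append, List.length_append, pow_add]
  have h1 := half_mul_two_pow r.length
  have h2 : ((bval q * 2 ^ r.length + bval r : ℕ) : ℝ≥0) + 1 ≤ ((bval q : ℝ≥0) + 1) * 2 ^ r.length := by
    have h3 : bval q * 2 ^ r.length + bval r + 1 ≤ (bval q + 1) * 2 ^ r.length := by
      have := bval_lt r
      rw [add_mul]
      omega
    exact_mod_cast h3
  calc (((bval q * 2 ^ r.length + bval r : ℕ) : ℝ≥0) + 1) * ((1 / 2) ^ q.length * (1 / 2) ^ r.length)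
      ≤ (((bval q : ℝ≥0) + 1) * 2 ^ r.length) * ((1 / 2) ^ q.length * (1 / 2) ^ r.length) := by
        gcongr
    _ = ((bval q : ℝ≥0) + 1) * (1 / 2) ^ q.length * ((1 / 2) ^ r.length * 2 ^ r.length) := by ring
    _ = _ := by rw [h1, mul_one]

/-! ### The machine of a sequence of requests -/

section KC

variable (r : ℕ × List Bool → Option (ℕ × ℕ))

/-- weight of a request -/
noncomputable def rw' (p : ℕ × List Bool) : ℝ≥0 := (r p).elim 0 (fun z => (1 / 2) ^ z.1)

/-- position of a request -/
noncomputable def pos (p : ℕ × List Bool) : ℝ≥0 := ∑ j ∈ Finset.range p.1, rw' r (j, p.2)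

/-- the string `q` may serve the request `i` -/
def serves (i : ℕ) (q x : List Bool) : Prop :=
  ∃ ℓ y, r (i, x) = some (ℓ, y) ∧ q.length = ℓ + 1 ∧ pos r (i, x) ≤ lft q ∧
    rgt q ≤ pos r (i + 1, x)

variable {r}

lemma qc_rw' (hr : Computable r) : QC (rw' r) := by
  unfold rw'
  exact QC.option (f := fun p : (ℕ × List Bool) × (ℕ × ℕ) => (1 / 2) ^ p.2.1)
    (QC.half_pow (Computable.fst.comp Computable.snd)) hr

lemma qc_pos (hr : Computable r) : QC (pos r) := by
  unfold pos
  exact QC.sum_range (f := fun p : (ℕ × List Bool) × ℕ => rw' r (p.2, p.1.2))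
    ((qc_rw' hr).comp (Computable.snd.pair (Computable.snd.comp Computable.fst))) Computable.fst

lemma pos_succ (i : ℕ) (x : List Bool) : pos r (i + 1, x) = pos r (i, x) + rw' r (i, x) := by
  unfold pos
  exact Finset.sum_range_succ (fun j => rw' r (j, x)) i

lemma pos_mono (x : List Bool) : Monotone (fun i => pos r (i, x)) := by
  refine monotone_nat_of_le_succ (fun i => ?_)
  rw [pos_succ]
  exact le_self_add

lemma serves_unique {i j : ℕ} {q q' x : List Bool} (h : serves r i q x) (h' : serves r j q' x)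
    (hq : q <+: q') : i = j := by
  obtain ⟨_, _, _, _, h1, h2⟩ := h
  obtain ⟨_, _, _, _, h3, h4⟩ := h'
  rcases lt_trichotomy i j with hij | hij | hij
  · exfalso
    have h5 : pos r (i + 1, x) ≤ pos r (j, x) := pos_mono x hij
    have h6 := lft_lt_rgt q'
    have h7 := rgt_anti hq
    exact absurd (h6.trans_le (h7.trans (h2.trans (h5.trans h3)))) (lt_irrefl _)
  · exact hij
  · exfalso
    have h5 : pos r (j + 1, x) ≤ pos r (i, x) := pos_mono x hij
    have h6 := lft_lt_rgt q'
    have h7 := lft_mono hq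
    exact absurd (h6.trans_le (h4.trans (h5.trans (h1.trans h7)))) (lt_irrefl _)

lemma exists_serves (hsum : ∀ (n : ℕ) (x : List Bool), pos r (n, x) ≤ 1) {i : ℕ} {x : List Bool}
    {ℓ y : ℕ} (h : r (i, x) = some (ℓ, y)) : ∃ q, serves r i q x := by
  have hw : rw' r (i, x) = (1 / 2) ^ ℓ := by simp [rw', h]
  set s := pos r (i, x) with hs
  set a := ⌈s * 2 ^ (ℓ + 1)⌉₊ with ha
  have h1 : s * 2 ^ (ℓ + 1) ≤ (a : ℝ≥0) := Nat.le_ceil _
  have h2 : (a : ℝ≥0) < s * 2 ^ (ℓ + 1) + 1 := Nat.ceil_lt_add_one (by positivity)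
  have hhalf := half_mul_two_pow (ℓ + 1)
  have hp : pos r (i + 1, x) = s + (1 / 2) ^ ℓ := by rw [pos_succ, hw]
  have h3 : (1 / 2 : ℝ≥0) ^ ℓ = (1 / 2) ^ (ℓ + 1) * 2 := by
    rw [pow_succ, mul_assoc]; simp
  have h4 : ((a : ℝ≥0) + 1) * (1 / 2) ^ (ℓ + 1) ≤ s + (1 / 2) ^ ℓ := by
    calc ((a : ℝ≥0) + 1) * (1 / 2) ^ (ℓ + 1) ≤ (s * 2 ^ (ℓ + 1) + 1 + 1) * (1 / 2) ^ (ℓ + 1) := by
          gcongr
      _ = s * ((1 / 2) ^ (ℓ + 1) * 2 ^ (ℓ + 1)) + (1 / 2) ^ (ℓ + 1) * 2 := by ring
      _ = _ := by rw [hhalf, mul_one, ← h3]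
  have h5 : a < 2 ^ (ℓ + 1) := by
    have h6 : ((a : ℝ≥0) + 1) * (1 / 2) ^ (ℓ + 1) ≤ 1 := by
      refine h4.trans ?_
      rw [← hp]
      exact hsum _ _
    have h7 : ((a : ℝ≥0) + 1) ≤ 2 ^ (ℓ + 1) := by
      calc ((a : ℝ≥0) + 1) = ((a : ℝ≥0) + 1) * ((1 / 2) ^ (ℓ + 1) * 2 ^ (ℓ + 1)) := by
            rw [hhalf, mul_one]
        _ = (((a : ℝ≥0) + 1) * (1 / 2) ^ (ℓ + 1)) * 2 ^ (ℓ + 1) := by ring
        _ ≤ 1 * 2 ^ (ℓ + 1) := by gcongr
        _ = _ := one_mul _
    have h8 : a + 1 ≤ 2 ^ (ℓ + 1) := by exact_mod_cast h7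
    omega
  obtain ⟨q, hq1, hq2⟩ := exists_bval (ℓ + 1) a h5
  refine ⟨q, ℓ, y, h, hq1, ?_, ?_⟩
  · unfold lft
    rw [hq1, hq2]
    calc s = s * ((1 / 2) ^ (ℓ + 1) * 2 ^ (ℓ + 1)) := by rw [hhalf, mul_one]
      _ = (s * 2 ^ (ℓ + 1)) * (1 / 2) ^ (ℓ + 1) := by ring
      _ ≤ _ := by gcongr
  · unfold rgt
    rw [hq1, hq2, hp]
    exact h4

/-- A Kraft–Chaitin type construction. -/
theorem kraft_chaitin (hr : Computable r) (hsum : ∀ (n : ℕ) (x : List Bool), pos r (n, x) ≤ 1) :
    ∃ V, IsPrefixMachine V ∧ ∀ i x ℓ y, r (i, x) = some (ℓ, y) →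
      ∃ q : List Bool, q.length = ℓ + 1 ∧ y ∈ V q x := by
  classical
  let F : List Bool × List Bool → ℕ → Option ℕ := fun p i =>
    (r (i, p.2)).bind (fun z => bif decide (p.1.length = z.1 + 1) &&
      decide (pos r (i, p.2) ≤ lft p.1) && decide (rgt p.1 ≤ pos r (i + 1, p.2))
      then some z.2 else none)
  have hF : Computable₂ F := by
    refine Computable.option_bind (hr.comp (Computable.snd.pair
      (Computable.snd.comp Computable.fst))) ?_
    -- p : ((List Bool × List Bool) × ℕ) × ℕ × ℕ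
    have a1 : Computable (fun p : ((List Bool × List Bool) × ℕ) × ℕ × ℕ => p.1.1.1) :=
      Computable.fst.comp (Computable.fst.comp Computable.fst)
    have a2 : Computable (fun p : ((List Bool × List Bool) × ℕ) × ℕ × ℕ => p.1.1.2) :=
      Computable.snd.comp (Computable.fst.comp Computable.fst)
    have a3 : Computable (fun p : ((List Bool × List Bool) × ℕ) × ℕ × ℕ => p.1.2) :=
      Computable.snd.comp Computable.fst
    have a4 : Computable (fun p : ((List Bool × List Bool) × ℕ) × ℕ × ℕ => p.2.1) :=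
      Computable.fst.comp Computable.snd
    have hb : QC (fun q : List Bool => (bval q : ℝ≥0)) := QC.nat computable_bval
    have hl : QC lft := hb.mul (QC.half_pow Computable.list_length)
    have hrg : QC rgt := (hb.add QC.one).mul (QC.half_pow Computable.list_length)
    refine Computable.cond (comp_and (comp_and ?_ ?_) ?_)
      (Computable.option_some.comp (Computable.snd.comp Computable.snd)) (Computable.const none)
    · exact comp_eq (Computable.list_length.comp a1) (comp_succ a4)
    · exact ((qc_pos hr).comp (a3.pair a2)).le (hl.comp a1)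
    · exact (hrg.comp a1).le ((qc_pos hr).comp ((comp_succ a3).pair a2))
  have hFs : ∀ q x i, (∃ y, F (q, x) i = some y) ↔ serves r i q x := by
    intro q x i
    simp only [F, serves]
    rcases h : r (i, x) with _ | ⟨ℓ, y⟩
    · simp
    · simp only [Option.bind_some, Option.some.injEq, Prod.mk.injEq]
      constructor
      · rintro ⟨y', hy'⟩
        by_cases hc : (decide (q.length = ℓ + 1) && decide (pos r (i, x) ≤ lft q) &&
            decide (rgt q ≤ pos r (i + 1, x))) = true
        · simp only [Bool.and_eq_true, decide_eq_true_eq] at hc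
          exact ⟨ℓ, y, ⟨rfl, rfl⟩, hc.1.1, hc.1.2, hc.2⟩
        · rw [Bool.not_eq_true] at hc
          rw [hc] at hy'
          simp at hy'
      · rintro ⟨ℓ', y', ⟨rfl, rfl⟩, h1, h2, h3⟩
        exact ⟨y, by simp [h1, h2, h3]⟩
  have hFy : ∀ q x i ℓ y y', r (i, x) = some (ℓ, y) → F (q, x) i = some y' → y' = y := by
    intro q x i ℓ y y' h1 h2
    simp only [F, h1, Option.bind_some] at h2
    by_cases hc : (decide (q.length = ℓ + 1) && decide (pos r (i, x) ≤ lft q) &&
        decide (rgt q ≤ pos r (i + 1, x))) = true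
    · rw [hc] at h2
      simpa using h2.symm
    · rw [Bool.not_eq_true] at hc
      rw [hc] at h2
      simp at h2
  let V : List Bool → List Bool →. ℕ := fun q x => Nat.rfindOpt (F (q, x))
  have hVdom : ∀ q x, (V q x).Dom → ∃ i, serves r i q x := by
    intro q x h
    obtain ⟨y, hy⟩ := Part.dom_iff_mem.1 h
    obtain ⟨i, hi⟩ := Nat.rfindOpt_spec hy
    exact ⟨i, (hFs q x i).1 ⟨y, hi⟩⟩
  refine ⟨V, ⟨Partrec.rfindOpt hF, ?_⟩, ?_⟩
  · intro x p q hp hq hpq
    obtain ⟨i, hi⟩ := hVdom p x hp
    obtain ⟨j, hj⟩ := hVdom q x hq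
    have hij := serves_unique hi hj hpq
    subst hij
    obtain ⟨ℓ, y, h1, h2, _⟩ := hi
    obtain ⟨ℓ', y', h1', h2', _⟩ := hj
    rw [h1] at h1'
    simp at h1'
    refine List.IsPrefix.eq_of_length hpq ?_
    rw [h2, h2', h1'.1]
  · intro i x ℓ y h
    obtain ⟨q, hq⟩ := exists_serves hsum h
    have hq' := hq
    obtain ⟨ℓ', y', h1, h2, _⟩ := hq
    rw [h] at h1
    simp at h1
    refine ⟨q, by rw [h2, h1.1], ?_⟩
    obtain ⟨z, hz⟩ := (hFs q x i).2 hq'
    have hdom : (V q x).Dom := Nat.rfindOpt_dom.2 ⟨i, z, hz⟩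
    obtain ⟨w, hw⟩ := Part.dom_iff_mem.1 hdom
    obtain ⟨j, hj⟩ := Nat.rfindOpt_spec hw
    have hjs := (hFs q x j).1 ⟨w, hj⟩
    have := serves_unique hq' hjs (List.prefix_refl q)
    subst this
    have hwy := hFy q x i ℓ y w h hj
    rw [hwy] at hw
    exact hw

end KC

end Pool.Agent.Mut
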