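import Pool.Agent.Mut.Typical2

/-!
# The transition kernel of the mutation process
-/

open MeasureTheory
open scoped ENNReal NNReal
open Pool.Agent.Rand

namespace Pool.Agent.Mut

/-- computable monotone approximations of a machine -/
structure Stages (U : List Bool → List Bool →. ℕ) where
  W : ℕ → List Bool × List Bool → Option ℕ
  comp : Computable₂ W
  mono : ∀ s a y, W s a = some y → W (s + 1) a = some y
  sound : ∀ s a y, W s a = some y → y ∈ U a.1 a.2
  bound : ∀ s a y, W s a = some y → Encodable.encode a < s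
  complete : ∀ a y, y ∈ U a.1 a.2 → ∃ s, W s a = some y

lemma exists_stages {U : List Bool → List Bool →. ℕ} (hU : Partrec₂ U) : Nonempty (Stages U) := by
  obtain ⟨c, hc⟩ := Nat.Partrec.Code.exists_code.1 (Partrec.bind_decode₂_iff.1 hU)
  have hev : ∀ a : List Bool × List Bool,
      Nat.Partrec.Code.eval c (Encodable.encode a) = U a.1 a.2 := by
    intro a
    rw [hc]
    simp only [Encodable.encodek₂, Part.coe_some, Part.bind_some]
    exact Part.map_id' (fun _ => rfl) _
  refine ⟨⟨fun s a => Nat.Partrec.Code.evaln s c (Encodable.encode a), ?_, ?_, ?_, ?_, ?_⟩⟩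
  · have h1 : Primrec (fun q : ℕ × (List Bool × List Bool) =>
        Nat.Partrec.Code.evaln q.1 c (Encodable.encode q.2)) :=
      Nat.Partrec.Code.primrec_evaln.comp
        ((Primrec.fst.pair (Primrec.const c)).pair (Primrec.encode.comp Primrec.snd))
    exact h1.to_comp
  · intro s a y h
    exact Nat.Partrec.Code.evaln_mono (Nat.le_succ s) h
  · intro s a y h
    rw [← hev]
    exact Nat.Partrec.Code.evaln_sound h
  · intro s a y h
    exact Nat.Partrec.Code.evaln_bound h
  · intro a y h
    rw [← hev] at h
    exact Nat.Partrec.Code.evaln_complete.1 h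

namespace Stages

variable {U : List Bool → List Bool →. ℕ} (T : Stages U)

lemma mono_le {s t : ℕ} (h : s ≤ t) {a : List Bool × List Bool} {y : ℕ} (hs : T.W s a = some y) :
    T.W t a = some y := by
  induction t, h using Nat.le_induction with
  | base => exact hs
  | succ t _ ih => exact T.mono t a y ih

lemma unique {s t : ℕ} {a : List Bool × List Bool} {y y' : ℕ} (h : T.W s a = some y)
    (h' : T.W t a = some y') : y = y' :=
  Part.mem_unique (T.sound s a y h) (T.sound t a y' h')

/-- `M` has been verified, at stage `z`, to be an improving mutation of `A` with result `B` -/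
def accb (z : ℕ) (A M B : List Bool) : Bool :=
  decide (T.W z (M, A) = some (Encodable.encode B)) &&
    ((T.W z (A, [])).elim false (fun a => (T.W z (B, [])).elim false
      (fun b => decide (a < b) && decide (b ≤ z))))

lemma accb_iff {z : ℕ} {A M B : List Bool} : T.accb z A M B = true ↔
    T.W z (M, A) = some (Encodable.encode B) ∧ ∃ a b, T.W z (A, []) = some a ∧
      T.W z (B, []) = some b ∧ a < b ∧ b ≤ z := by
  unfold accb
  rw [Bool.and_eq_true, decide_eq_true_eq]
  refine and_congr_right (fun _ => ?_)
  cases h1 : T.W z (A, []) with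
  | none => simp
  | some a =>
    cases h2 : T.W z (B, []) with
    | none => simp
    | some b => simp

lemma accb_mono {z z' : ℕ} (h : z ≤ z') {A M B : List Bool} (hz : T.accb z A M B = true) :
    T.accb z' A M B = true := by
  rw [accb_iff] at hz ⊢
  obtain ⟨h1, a, b, h2, h3, h4, h5⟩ := hz
  exact ⟨T.mono_le h h1, a, b, T.mono_le h h2, T.mono_le h h3, h4, h5.trans h⟩

/-- `z` is the verification stage of `M` at `A`, with result `B` -/
def Zst (z : ℕ) (A M B : List Bool) : Prop :=
  T.accb z A M B = true ∧ T.accb (z - 1) A M B = false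

instance (z : ℕ) (A M B : List Bool) : Decidable (T.Zst z A M B) := by
  unfold Zst; infer_instance

lemma Zst_unique {z z' : ℕ} {A M B B' : List Bool} (h : T.Zst z A M B) (h' : T.Zst z' A M B') :
    z = z' ∧ B = B' := by
  have hB : B = B' := by
    have h1 := (T.accb_iff.1 h.1).1
    have h2 := (T.accb_iff.1 h'.1).1
    exact Encodable.encode_injective (T.unique h1 h2)
  refine ⟨?_, hB⟩
  subst hB
  have key : ∀ z z', z < z' → T.Zst z A M B → T.Zst z' A M B → False := by
    intro z z' hlt h1 h2
    have h3 := T.accb_mono (show z ≤ z' - 1 by omega) h1.1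
    rw [h2.2] at h3
    exact absurd h3 (by simp)
  rcases lt_trichotomy z z' with hlt | hlt | hlt
  · exact (key z z' hlt h h').elim
  · exact hlt
  · exact (key z' z hlt h' h).elim

lemma accb_zero (A M B : List Bool) : T.accb 0 A M B = false := by
  rw [Bool.eq_false_iff]
  intro h
  have h1 := (T.accb_iff.1 h).1
  exact absurd (T.bound _ _ _ h1) (Nat.not_lt_zero _)

lemma exists_Zst_iff {n : ℕ} {A M B : List Bool} :
    (∃ z ≤ n, T.Zst z A M B) ↔ T.accb n A M B = true := by
  constructor
  · rintro ⟨z, hz, h⟩
    exact T.accb_mono hz h.1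
  · intro h
    classical
    have hex : ∃ z, T.accb z A M B = true := ⟨n, h⟩
    refine ⟨Nat.find hex, Nat.find_min' hex h, Nat.find_spec hex, ?_⟩
    rcases Nat.eq_zero_or_pos (Nat.find hex) with h0 | h0
    · rw [h0]; exact T.accb_zero A M B
    · have := Nat.find_min hex (show Nat.find hex - 1 < Nat.find hex by omega)
      simpa using this

/-- the improving mutations of `A` with result `B` -/
def _root_.Pool.Agent.Mut.Accepts (U : List Bool → List Bool →. ℕ) (A M B : List Bool) : Prop :=
  Encodable.encode B ∈ U M A ∧ ∃ a ∈ U A [], ∃ b ∈ U B [], a < b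

lemma accepts_iff {A M B : List Bool} : Accepts U A M B ↔ ∃ z, T.Zst z A M B := by
  constructor
  · rintro ⟨h1, a, ha, b, hb, hab⟩
    obtain ⟨s1, hs1⟩ := T.complete (M, A) _ h1
    obtain ⟨s2, hs2⟩ := T.complete (A, []) _ ha
    obtain ⟨s3, hs3⟩ := T.complete (B, []) _ hb
    have h2 : T.accb (max (max s1 s2) (max s3 b)) A M B = true := by
      rw [accb_iff]
      exact ⟨T.mono_le (by omega) hs1, a, b, T.mono_le (by omega) hs2, T.mono_le (by omega) hs3,
        hab, by omega⟩
    obtain ⟨z, _, hz⟩ := T.exists_Zst_iff.2 h2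
    exact ⟨z, hz⟩
  · rintro ⟨z, hz⟩
    obtain ⟨h1, a, b, h2, h3, h4, _⟩ := T.accb_iff.1 hz.1
    exact ⟨T.sound _ _ _ h1, a, T.sound _ _ _ h2, b, T.sound _ _ _ h3, h4⟩

lemma Zst_encode_lt {z : ℕ} {A M B : List Bool} (h : T.Zst z A M B) : Encodable.encode M < z := by
  have h1 := (T.accb_iff.1 h.1).1
  have h2 := T.bound _ _ _ h1
  refine lt_of_le_of_lt ?_ h2
  rw [Encodable.encode_prod_val]
  exact Nat.left_le_pair _ _

lemma Zst_fit {z : ℕ} {A M B : List Bool} (h : T.Zst z A M B) :
    ∃ a b, T.W z (A, []) = some a ∧ T.W z (B, []) = some b ∧ a < b ∧ b ≤ z :=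
  (T.accb_iff.1 h.1).2

/-! ### Computability -/

variable {α : Type*} [Primcodable α]

lemma comp_W {s : α → ℕ} {x y : α → List Bool} (hs : Computable s) (hx : Computable x)
    (hy : Computable y) : Computable (fun r => T.W (s r) (x r, y r)) :=
  T.comp.comp hs (hx.pair hy)

lemma comp_accb {z : α → ℕ} {A M B : α → List Bool} (hz : Computable z) (hA : Computable A)
    (hM : Computable M) (hB : Computable B) :
    Computable (fun r => T.accb (z r) (A r) (M r) (B r)) := by
  unfold accb
  refine comp_and (comp_eq (T.comp_W hz hM hA)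
    (Computable.option_some.comp (Computable.encode.comp hB))) ?_
  have h1 : Computable (fun r => (Option.casesOn (T.W (z r) (A r, [])) false
      (fun a => (Option.casesOn (T.W (z r) (B r, [])) false
        (fun b => decide (a < b) && decide (b ≤ z r)) : Bool)) : Bool)) := by
    refine Computable.option_casesOn (o := fun r => T.W (z r) (A r, [])) (f := fun _ => false)
      (g := fun r a => (Option.casesOn (T.W (z r) (B r, [])) false
        (fun b => decide (a < b) && decide (b ≤ z r)) : Bool))
      (T.comp_W hz hA (Computable.const [])) (Computable.const false) ?_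
    refine Computable.option_casesOn (o := fun q : α × ℕ => T.W (z q.1) (B q.1, []))
      (f := fun _ => false) (g := fun q b => decide (q.2 < b) && decide (b ≤ z q.1))
      (T.comp_W (hz.comp Computable.fst) (hB.comp Computable.fst) (Computable.const []))
      (Computable.const false) ?_
    exact comp_and (comp_lt (Computable.snd.comp Computable.fst) Computable.snd)
      (comp_le Computable.snd (hz.comp (Computable.fst.comp Computable.fst)))
  refine h1.of_eq (fun r => ?_)
  cases T.W (z r) (A r, []) with
  | none => rfl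
  | some a =>
    cases T.W (z r) (B r, []) with
    | none => rfl
    | some b => rfl

lemma comp_Zst {z : α → ℕ} {A M B : α → List Bool} (hz : Computable z) (hA : Computable A)
    (hM : Computable M) (hB : Computable B) :
    Computable (fun r => decide (T.Zst (z r) (A r) (M r) (B r))) := by
  refine (comp_and (T.comp_accb hz hA hM hB) (comp_not (T.comp_accb
    (comp_sub hz (Computable.const 1)) hA hM hB))).of_eq (fun r => ?_)
  rw [Bool.eq_iff_iff, decide_eq_true_iff, Bool.and_eq_true, Bool.not_eq_true']
  exact Iff.rfl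

/-- weight of the mutations of `A` with result `B` and verification stage `z` -/
noncomputable def kap (q : List Bool × (ℕ × List Bool)) : ℝ≥0∞ :=
  ∑' M : List Bool, if T.Zst q.2.1 q.1 M q.2.2 then (1 / 2) ^ M.length else 0

/-- the same as a finite sum -/
noncomputable def kapF (q : List Bool × (ℕ × List Bool)) : ℝ≥0 :=
  ∑ i ∈ Finset.range q.2.1, (Encodable.decode₂ (List Bool) i).elim 0
    (fun M => if T.Zst q.2.1 q.1 M q.2.2 then (1 / 2) ^ M.length else 0)

lemma tsum_eq_finite (G : List Bool → ℝ≥0) (n : ℕ) (hG : ∀ M, G M ≠ 0 → Encodable.encode M < n) :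
    ∑' M : List Bool, (G M : ℝ≥0∞) =
      ((∑ i ∈ Finset.range n, (Encodable.decode₂ (List Bool) i).elim 0 G : ℝ≥0) : ℝ≥0∞) := by
  rw [← tsum_atCode]
  rw [tsum_eq_sum (s := Finset.range n)]
  · rw [ENNReal.ofNNReal_finsetSum]
    refine Finset.sum_congr rfl (fun i _ => ?_)
    unfold atCode
    cases Encodable.decode₂ (List Bool) i with
    | none => simp
    | some M => simp
  · intro i hi
    unfold atCode
    rcases h : Encodable.decode₂ (List Bool) i with _ | M
    · simp
    · simp only [Option.elim_some, ENNReal.coe_eq_zero]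
      by_contra hne
      have h1 := hG M hne
      rw [Encodable.mem_decode₂.1 h] at h1
      exact hi (Finset.mem_range.2 h1)

lemma kap_eq (q : List Bool × (ℕ × List Bool)) : T.kap q = (T.kapF q : ℝ≥0∞) := by
  unfold kapF
  rw [← tsum_eq_finite]
  · unfold kap
    refine tsum_congr (fun M => ?_)
    split_ifs
    · rw [ENNReal.coe_pow, coe_half]
    · rfl
  · intro M hM
    by_contra hcon
    rw [if_neg] at hM
    · exact hM rfl
    · intro h
      exact hcon (T.Zst_encode_lt h)

lemma qc_kapF {z : α → ℕ} {A B : α → List Bool} (hz : Computable z) (hA : Computable A)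
    (hB : Computable B) : QC (fun r => T.kapF (A r, (z r, B r))) := by
  unfold kapF
  refine QC.sum_range (f := fun q : α × ℕ => (Encodable.decode₂ (List Bool) q.2).elim 0
    (fun M => if T.Zst (z q.1) (A q.1) M (B q.1) then (1 / 2) ^ M.length else 0)) (n := z) ?_ hz
  refine QC.option (f := fun w : (α × ℕ) × List Bool =>
    if T.Zst (z w.1.1) (A w.1.1) w.2 (B w.1.1) then (1 / 2 : ℝ≥0) ^ w.2.length else 0) ?_
    (computable_decode₂.comp Computable.snd)
  have h1 : Computable (fun w : (α × ℕ) × List Bool => w.1.1) := Computable.fst.comp Computable.fst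
  exact QC.ite (T.comp_Zst (hz.comp h1) (hA.comp h1) Computable.snd (hB.comp h1))
    (QC.half_pow (Computable.list_length.comp Computable.snd)) QC.zero

lemma lsc_kap {z : α → ℕ} {A B : α → List Bool} (hz : Computable z) (hA : Computable A)
    (hB : Computable B) : LSC (fun r => T.kap (A r, (z r, B r))) :=
  (T.qc_kapF hz hA hB).lsc.of_eq (fun _ => (T.kap_eq _).symm)

/-! ### Sums over mutations -/

lemma tsum_kap (A : List Bool) (f : ℕ × List Bool → ℝ≥0∞) :
    ∑' q : ℕ × List Bool, T.kap (A, q) * f q =
      ∑' M : List Bool, (1 / 2) ^ M.length *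
        ∑' q : ℕ × List Bool, if T.Zst q.1 A M q.2 then f q else 0 := by
  simp only [kap, ← ENNReal.tsum_mul_right, ← ENNReal.tsum_mul_left]
  rw [ENNReal.tsum_comm]
  refine tsum_congr (fun M => tsum_congr (fun q => ?_))
  split_ifs <;> simp

lemma tsum_Zst_eq {A M B : List Bool} {z : ℕ} (h : T.Zst z A M B) (f : ℕ × List Bool → ℝ≥0∞) :
    ∑' q : ℕ × List Bool, (if T.Zst q.1 A M q.2 then f q else 0) = f (z, B) := by
  rw [tsum_eq_single (z, B)]
  · rw [if_pos h]
  · intro q hq
    rw [if_neg]
    intro h'
    obtain ⟨h1, h2⟩ := T.Zst_unique h h'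
    exact hq (Prod.ext h1.symm h2.symm)

lemma tsum_kap_le_one (hU : IsPrefixMachine U) (A : List Bool) :
    ∑' q : ℕ × List Bool, T.kap (A, q) ≤ 1 := by
  have h := T.tsum_kap A (fun _ => 1)
  simp only [mul_one] at h
  rw [h]
  refine kraft hU A _ ?_ ?_
  · intro M
    by_cases hex : ∃ q : ℕ × List Bool, T.Zst q.1 A M q.2
    · obtain ⟨q, hq⟩ := hex
      rw [T.tsum_Zst_eq (z := q.1) (B := q.2) hq]
    · push Not at hex
      rw [ENNReal.tsum_eq_zero.2]
      · exact zero_le
      · intro q; rw [if_neg (hex q)]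
  · intro M hM
    rw [ENNReal.tsum_eq_zero]
    intro q
    rw [if_neg]
    intro h
    exact hM (Part.dom_iff_mem.2 ⟨_, (T.accepts_iff.2 ⟨_, h⟩).1⟩)

/-- the kernel is supported on triples with the expected properties -/
lemma kap_ne_zero {A B : List Bool} {z : ℕ} (h : T.kap (A, (z, B)) ≠ 0) :
    ∃ a b, T.W z (A, []) = some a ∧ T.W z (B, []) = some b ∧ a < b ∧ b ≤ z := by
  unfold kap at h
  obtain ⟨M, hM⟩ : ∃ M, (if T.Zst z A M B then (1 / 2 : ℝ≥0∞) ^ M.length else 0) ≠ 0 := by
    by_contra hcon
    push Not at hcon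
    exact h (ENNReal.tsum_eq_zero.2 hcon)
  have hZ : T.Zst z A M B := by
    by_contra hcon
    rw [if_neg hcon] at hM
    exact hM rfl
  exact T.Zst_fit hZ

/-- lower bound for the probability of a transition -/
lemma le_tsum_kap {A M B : List Bool} (h : Accepts U A M B) :
    (1 / 2) ^ M.length ≤ ∑' z : ℕ, T.kap (A, (z, B)) := by
  obtain ⟨z, hz⟩ := T.accepts_iff.1 h
  refine le_trans ?_ (ENNReal.le_tsum z)
  unfold kap
  refine le_trans ?_ (ENNReal.le_tsum M)
  rw [if_pos hz]

end Stages

end Pool.Agent.Mut
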