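import Pool.Agent.Mut.Final

/-!
# The main theorem, final combination
-/

open MeasureTheory Filter
open scoped ENNReal NNReal Topology
open Pool.Agent.Rand

namespace Pool.Agent.Mut

variable {U : List Bool → List Bool →. ℕ} {p : ℕ → List Bool}

lemma eps_coe (w : ℕ) : eps w = (((1 / 2) ^ w : ℝ≥0) : ℝ≥0∞) := by
  unfold eps
  rw [ENNReal.coe_pow, coe_half]

lemma nine_tenths_le (L : ℕ) : (9 / 10 : ℝ≥0∞) ≤ (1 - eps (40 * L)) ^ (4 * L) := by
  have h1 : (9 / 10 : ℝ≥0∞) = ((9 / 10 : ℝ≥0) : ℝ≥0∞) := by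
    rw [ENNReal.coe_div (by norm_num)]; rfl
  rw [h1, eps_coe, ← ENNReal.coe_one, ← ENNReal.coe_sub, ← ENNReal.coe_pow, ENNReal.coe_le_coe,
    ← NNReal.coe_le_coe]
  have h2 : ((1 / 2 : ℝ≥0) ^ (40 * L)) ≤ 1 := pow_le_one' (by
    rw [div_le_one (by norm_num)]; norm_num) _
  rw [NNReal.coe_pow, NNReal.coe_sub h2]
  push_cast
  rcases Nat.eq_zero_or_pos L with h0 | h0
  · subst h0; norm_num
  · have h3 := one_add_mul_le_pow (show (-2 : ℝ) ≤ -((1 / 2 : ℝ) ^ (40 * L)) by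
      have : (1 / 2 : ℝ) ^ (40 * L) ≤ 1 := pow_le_one₀ (by norm_num) (by norm_num)
      linarith) (4 * L)
    have h4 : ((4 * L : ℕ) : ℝ) * (1 / 2) ^ (40 * L) ≤ 1 / 10 := by
      have h5 : (40 * L : ℕ) < 2 ^ (40 * L) := Nat.lt_two_pow_self
      have h6 : ((40 * L : ℕ) : ℝ) ≤ 2 ^ (40 * L) := by exact_mod_cast h5.le
      have h7 : (1 / 2 : ℝ) ^ (40 * L) * 2 ^ (40 * L) = 1 := by rw [← mul_pow]; norm_num
      have h8 : (0 : ℝ) < (1 / 2) ^ (40 * L) := by positivity
      have h9 : ((40 * L : ℕ) : ℝ) * (1 / 2) ^ (40 * L) ≤ 1 := by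
        calc _ ≤ (2 : ℝ) ^ (40 * L) * (1 / 2) ^ (40 * L) := by gcongr
          _ = 1 := by rw [mul_comm]; exact h7
      push_cast at h9 ⊢
      linarith
    have h10 : (1 : ℝ) + ((4 * L : ℕ) : ℝ) * -(1 / 2) ^ (40 * L) ≤ (1 - (1 / 2) ^ (40 * L)) ^ (4 * L) := by
      rw [sub_eq_add_neg]; exact h3
    linarith

namespace Stages

variable (T : Stages U)

open Classical in
/-- few events -/
lemma few_le (hU : IsOptimal U) (hp : IsEnumeration U p) (A0 : List Bool) (ζ0 L : ℕ) :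
    ∃ q : ℕ, 0 < q ∧ ∀ᶠ N : ℕ in atTop,
      T.itA p (2 * L * N) (fun _ ζ k => if N ≤ mI p ζ ∧ k ≤ N / q then 1 else 0) A0 ζ0 0 ≤ 1 / 4 := by
  obtain ⟨c, hc⟩ := T.few_events hU hp (40 * L) A0 ζ0
  set θ : ℝ≥0∞ := eps (40 * L) * (1 / 4) with hθ
  have hθ0 : θ ≠ 0 := mul_ne_zero (eps_ne_zero _) (by simp)
  have h910 : (9 / 10 : ℝ≥0∞) < 1 := by
    rw [ENNReal.div_lt_iff (by norm_num) (by norm_num)]; norm_num
  obtain ⟨q0, hq0⟩ : ∃ q : ℕ, (9 / 10 : ℝ≥0∞) ^ q < θ := by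
    have h := ENNReal.tendsto_pow_atTop_nhds_zero_of_lt_one h910
    exact (h.eventually (gt_mem_nhds (pos_iff_ne_zero.2 hθ0))).exists
  refine ⟨q0 + 1, Nat.succ_pos _, ?_⟩
  -- the real estimate
  have hev : ∀ᶠ N : ℕ in atTop, (2 : ℝ≥0∞) ^ c * (2 / 3) ^ N ≤ (81 / 100) ^ N * (1 / 4) := by
    have h1 : Tendsto (fun N : ℕ => (200 / 243 : ℝ) ^ N) atTop (𝓝 0) :=
      tendsto_pow_atTop_nhds_zero_of_lt_one (by norm_num) (by norm_num)
    have h2 : (0 : ℝ) < 1 / (4 * 2 ^ c) := by positivity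
    filter_upwards [h1.eventually (gt_mem_nhds h2)] with N hN
    have h3 : (2 : ℝ) ^ c * (2 / 3) ^ N ≤ (81 / 100) ^ N * (1 / 4) := by
      have h4 : (2 / 3 : ℝ) ^ N = (200 / 243) ^ N * (81 / 100) ^ N := by
        rw [← mul_pow]; norm_num
      have h5 : (0 : ℝ) < (81 / 100) ^ N := by positivity
      rw [h4]
      have h6 : (2 : ℝ) ^ c * (200 / 243) ^ N ≤ 1 / 4 := by
        have h7 : (0 : ℝ) < 4 * 2 ^ c := by positivity
        rw [lt_div_iff₀ h7] at hN
        linarith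
      calc (2 : ℝ) ^ c * ((200 / 243) ^ N * (81 / 100) ^ N)
          = ((2 : ℝ) ^ c * (200 / 243) ^ N) * (81 / 100) ^ N := by ring
        _ ≤ (1 / 4) * (81 / 100) ^ N := by gcongr
        _ = _ := by ring
    have h8 : ((2 ^ c * (2 / 3) ^ N : ℝ≥0)) ≤ (81 / 100) ^ N * (1 / 4) := by
      rw [← NNReal.coe_le_coe]; push_cast; exact h3
    rw [← ENNReal.coe_le_coe] at h8
    rw [ENNReal.coe_mul, ENNReal.coe_mul, ENNReal.coe_pow, ENNReal.coe_pow, ENNReal.coe_pow,
      ENNReal.coe_div (by norm_num), ENNReal.coe_div (by norm_num),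
      ENNReal.coe_div (by norm_num)] at h8
    exact h8
  filter_upwards [hev] with N hN
  set y := T.itA p (2 * L * N) (fun _ ζ k => if N ≤ mI p ζ ∧ k ≤ N / (q0 + 1) then 1 else 0)
    A0 ζ0 0 with hy
  have h1 := hc (2 * L * N) N (N / (q0 + 1))
  rw [← hy] at h1
  have h2 : (9 / 10 : ℝ≥0∞) ^ N ≤ θ ^ (N / (q0 + 1)) := by
    calc (9 / 10 : ℝ≥0∞) ^ N ≤ (9 / 10) ^ ((q0 + 1) * (N / (q0 + 1))) :=
          pow_le_pow_right_of_le_one' h910.le (Nat.mul_div_le N (q0 + 1))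
      _ = ((9 / 10) ^ (q0 + 1)) ^ (N / (q0 + 1)) := by rw [pow_mul]
      _ ≤ θ ^ (N / (q0 + 1)) := by
          refine pow_le_pow_left' ?_ _
          refine le_trans ?_ hq0.le
          exact pow_le_pow_right_of_le_one' h910.le (Nat.le_succ q0)
  have h3 : (9 / 10 : ℝ≥0∞) ^ N ≤ ((1 - eps (40 * L)) ^ (2 * L * N)) ^ 2 := by
    rw [← pow_mul, show 2 * L * N * 2 = 4 * L * N by ring, pow_mul]
    exact pow_le_pow_left' (nine_tenths_le L) _
  have h4 : (81 / 100 : ℝ≥0∞) ^ N = (9 / 10) ^ N * (9 / 10) ^ N := by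
    rw [← mul_pow]
    congr 1
    have : ((81 / 100 : ℝ≥0) : ℝ≥0∞) = ((9 / 10 : ℝ≥0) : ℝ≥0∞) * ((9 / 10 : ℝ≥0) : ℝ≥0∞) := by
      rw [← ENNReal.coe_mul]; congr 1; rw [div_mul_div_comm]; norm_num
    rw [ENNReal.coe_div (by norm_num), ENNReal.coe_div (by norm_num)] at this
    exact this
  have h5 : (81 / 100 : ℝ≥0∞) ^ N * y ≤ (81 / 100) ^ N * (1 / 4) := by
    refine le_trans ?_ (h1.trans hN)
    rw [h4]
    exact mul_le_mul_left (mul_le_mul' h2 h3) _
  refine (ENNReal.mul_le_mul_iff_right ?_ ?_).1 h5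
  · exact pow_ne_zero _ (by simp)
  · exact ENNReal.pow_ne_top (ENNReal.div_ne_top (by norm_num) (by norm_num))

open Classical in
/-- many events -/
lemma many_le (hU : IsOptimal U) (hp : IsEnumeration U p) (A0 : List Bool)
    (hZ : ∀ n0 : ℕ, ∃ Z : ℕ, ∀ t, T.acc (fun A => if fitness U A < n0 then 1 else 0) t A0 ≤ Z)
    {ζ0 : ℕ} (hv : Valid U p A0 ζ0) (L q : ℕ) (hq : 0 < q) :
    ∀ᶠ N : ℕ in atTop,
      T.itA p (2 * L * N) (fun _ _ k => if N / q < k then 1 else 0) A0 ζ0 0 ≤ 1 / 4 := by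
  obtain ⟨V, hV, hVR⟩ := T.bound_prog hU hp
  obtain ⟨v, hv'⟩ := ENNReal.exists_nat_gt hV
  obtain ⟨n0, hn0⟩ := hVR (64 * (v * L * q) + 1)
  obtain ⟨Z, hZ'⟩ := hZ n0
  obtain ⟨b, hb⟩ := ENNReal.exists_nat_gt (show Phi U p A0 ζ0 0 ≠ ∞ by
    unfold Phi; exact ENNReal.add_ne_top.2 ⟨ENNReal.natCast_ne_top _, ENNReal.coe_ne_top⟩)
  set R := 64 * (v * L * q) + 1 with hR
  set D := q * (b + 4 * v + 4 * Z) with hD
  filter_upwards [eventually_ge_atTop (8 * D + 1)] with N hN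
  set Tm := 2 * L * N with hTm
  set x := T.itA p Tm (fun _ _ k => if N / q < k then 1 else 0) A0 ζ0 0 with hx
  -- expected number of events
  have h1 : ((N / q + 1 : ℕ) : ℝ≥0∞) * x ≤ Phi U p A0 ζ0 0 + 4 * T.acc (T.prog p) Tm A0 := by
    refine le_trans ?_ (T.itA_Phi hU.1 hp Tm A0 ζ0 0 hv)
    have h2 := congrFun (congrFun (congrFun (T.itA_const_mul (p := p) ((N / q + 1 : ℕ) : ℝ≥0∞)
      (fun _ _ k => if N / q < k then 1 else 0) Tm) A0) ζ0) 0
    rw [hx, ← h2]
    refine T.itA_mono' (fun A ζ k => ?_) Tm A0 ζ0 0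
    split_ifs with h3
    · rw [mul_one]
      unfold Phi
      refine le_trans ?_ le_self_add
      exact_mod_cast h3
    · simp
  have h2 : T.acc (T.prog p) Tm A0 ≤ v * ((Tm / R : ℕ) + 1) + Z := by
    have h3 : ∀ A, T.prog p A ≤ (if n0 ≤ fitness U A then T.prog p A else 0) +
        (if fitness U A < n0 then 1 else 0) := by
      intro A
      by_cases h : n0 ≤ fitness U A
      · rw [if_pos h]; exact le_self_add
      · rw [if_neg h, if_pos (not_le.1 h), zero_add]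
        exact T.prog_le_one hU.1 hp A
    refine (T.acc_mono_left h3 Tm A0).trans ?_
    unfold acc
    simp only [T.itP_add]
    rw [Finset.sum_add_distrib]
    refine add_le_add ?_ (hZ' Tm)
    refine (T.acc_le_blocks hU.1 (Nat.succ_pos _) hn0 Tm A0).trans ?_
    exact mul_le_mul_left hv'.le _
  -- arithmetic
  have h3 : (N : ℝ≥0∞) * x ≤ (D : ℝ≥0∞) + ((4 * v * q * (Tm / R) : ℕ) : ℝ≥0∞) := by
    have h4 : N ≤ q * (N / q + 1) := by
      have := Nat.lt_mul_div_succ N hq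
      exact this.le
    calc (N : ℝ≥0∞) * x ≤ ((q * (N / q + 1) : ℕ) : ℝ≥0∞) * x :=
          mul_le_mul_left (by exact_mod_cast h4) _
      _ = q * (((N / q + 1 : ℕ) : ℝ≥0∞) * x) := by push_cast; ring
      _ ≤ q * (b + 4 * (v * ((Tm / R : ℕ) + 1) + Z)) := by
          refine mul_le_mul_right (h1.trans (add_le_add hb.le (mul_le_mul_right h2 _))) _
      _ = _ := by rw [hD]; push_cast; ring
  have h5 : 8 * (4 * v * q * (Tm / R)) ≤ N := by
    have h6 : Tm / R * R ≤ Tm := Nat.div_mul_le_self _ _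
    rw [hTm, hR] at h6
    by_contra hcon
    push Not at hcon
    -- 32 v q X > N and X (64 v L q + 1) ≤ 2 L N
    set X := Tm / R with hX
    have h7 : X * (64 * (v * L * q)) ≤ 2 * L * N := by
      calc X * (64 * (v * L * q)) ≤ X * (64 * (v * L * q) + 1) := by
            exact Nat.mul_le_mul_left _ (Nat.le_succ _)
        _ ≤ _ := h6
    rcases Nat.eq_zero_or_pos L with h0 | h0
    · -- then X = 0
      have h8 : X = 0 := by
        rw [hX, hTm, h0]; simp
      rw [h8] at hcon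
      simp at hcon
    · have h8 : 2 * L * N < 2 * L * (8 * (4 * v * q * X)) :=
        Nat.mul_lt_mul_of_pos_left hcon (by omega)
      have h9 : 2 * L * (8 * (4 * v * q * X)) = X * (64 * (v * L * q)) := by ring
      omega
  have hN0 : (N : ℝ≥0∞) ≠ 0 := by
    have : N ≠ 0 := by omega
    exact_mod_cast this
  have h6 : (N : ℝ≥0∞) * (4 * x) ≤ N * 1 := by
    have h7 : 4 * (D + 4 * v * q * (Tm / R)) ≤ N := by omega
    calc (N : ℝ≥0∞) * (4 * x) = 4 * (N * x) := by ring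
      _ ≤ 4 * ((D : ℝ≥0∞) + ((4 * v * q * (Tm / R) : ℕ) : ℝ≥0∞)) := mul_le_mul_right h3 _
      _ = ((4 * (D + 4 * v * q * (Tm / R)) : ℕ) : ℝ≥0∞) := by push_cast; ring
      _ ≤ (N : ℝ≥0∞) := by exact_mod_cast h7
      _ = _ := (mul_one _).symm
  have h7 : 4 * x ≤ 1 := (ENNReal.mul_le_mul_iff_right hN0 (ENNReal.natCast_ne_top _)).1 h6
  rw [ENNReal.le_div_iff_mul_le (Or.inl (by norm_num)) (Or.inl (by norm_num)), mul_comm]
  exact h7

open Classical in
/-- the probability of small fitness decreases with time -/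
lemma itP_small_anti (hU : IsPrefixMachine U) (n0 : ℕ) (A : List Bool) :
    Antitone (fun t => T.itP t (fun A => if fitness U A < n0 then 1 else 0) A) := by
  refine antitone_nat_of_succ_le (fun t => ?_)
  rw [T.itP_succ']
  refine T.itP_mono t (fun B => ?_) A
  unfold opP
  have h1 : ∀ q : ℕ × List Bool, T.kap (B, q) * (if fitness U q.2 < n0 then (1 : ℝ≥0∞) else 0) ≤
      T.kap (B, q) * (if fitness U B < n0 then 1 else 0) := by
    intro q
    by_cases hq : T.kap (B, q) = 0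
    · rw [hq]; simp
    · have h2 := T.kap_fit (B := q.2) (z := q.1) hq
      refine mul_le_mul_right ?_ _
      split_ifs with h3 h4 h4
      · exact le_rfl
      · exact absurd (h2.1.trans h3) h4
      · exact zero_le
      · exact le_rfl
  calc _ ≤ (∑' q : ℕ × List Bool, T.kap (B, q) * (if fitness U B < n0 then (1 : ℝ≥0∞) else 0)) +
        (1 - ∑' q : ℕ × List Bool, T.kap (B, q)) * (if fitness U B < n0 then 1 else 0) :=
        add_le_add (ENNReal.tsum_le_tsum h1) le_rfl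
    _ = _ := by
        rw [ENNReal.tsum_mul_right, ← add_mul,
          add_tsub_cancel_of_le (T.tsum_kap_le_one hU B), one_mul]

end Stages

open Classical in
/-- superlinear growth -/
theorem superlinear (hU : IsOptimal U) (hp : IsEnumeration U p) (A0 : List Bool) (L : ℕ) :
    ∀ᶠ N : ℕ in atTop, (L : ℝ≥0∞) * N ≤ ∫⁻ ω, mutationTime U p A0 N ω ∂coins := by
  obtain ⟨T⟩ := exists_stages hU.1.computable
  -- `BB` tends to infinity
  have hBB : ∀ n0 : ℕ, ∀ᶠ N : ℕ in atTop, n0 ≤ BB p N := by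
    intro n0
    have h1 : Tendsto (fun m : ℕ => (1 / 2 : ℝ≥0) ^ m) atTop (𝓝 0) :=
      tendsto_pow_atTop_nhds_zero_of_lt_one (by norm_num)
        (by rw [div_lt_one (by norm_num)]; norm_num)
    filter_upwards [h1.eventually (gt_mem_nhds (gap_pos hU.1 hp n0))] with N hN
    by_contra hcon
    push Not at hcon
    have h2 := gap_BB hU hp (le_refl (BB p N))
    have h3 : gap p n0 ≤ gap p (BB p N) := gap_anti hcon.le
    exact absurd (h3.trans_lt (h2.trans hN)) (lt_irrefl _)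
  by_cases hZ : ∀ n0 : ℕ, ∃ Z : ℕ, ∀ t,
      T.acc (fun A => if fitness U A < n0 then 1 else 0) t A0 ≤ Z
  · set ζ0 := fitness U A0 with hζ0
    have hv : Stages.Valid U p A0 ζ0 := lt_nI hU.1 hp _
    obtain ⟨q, hq, hfew⟩ := T.few_le hU hp A0 ζ0 L
    have hmany := T.many_le hU hp A0 hZ hv L q hq
    filter_upwards [hfew, hmany] with N h1 h2
    set Tm := 2 * L * N with hTm
    set f : List Bool → ℝ≥0∞ := fun A => if fitness U A < BB p N then 1 else 0 with hf
    set g : List Bool → ℝ≥0∞ := fun A => if BB p N ≤ fitness U A then 1 else 0 with hg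
    have hg2 : T.itP Tm g A0 ≤ 1 / 2 := by
      rw [← T.itA_proj (p := p) Tm g A0 ζ0 0]
      refine (T.itA_mono hU.1 hp Tm (G := fun _ ζ k => (if N ≤ mI p ζ ∧ k ≤ N / q then 1 else 0) +
        (if N / q < k then 1 else 0)) ?_ A0 ζ0 0 hv).trans ?_
      · intro A ζ k hAv
        simp only [hg]
        by_cases h3 : BB p N ≤ fitness U A
        · rw [if_pos h3]
          have h4 := le_mI_of_BB hU hp hAv h3
          by_cases h5 : N / q < k
          · rw [if_pos h5]; exact le_add_self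
          · rw [if_pos ⟨h4, not_lt.1 h5⟩]; exact le_self_add
        · rw [if_neg h3]; exact zero_le
      · rw [T.itA_add]
        refine (add_le_add h1 h2).trans (le_of_eq ?_)
        rw [← ENNReal.add_div]
        rw [ENNReal.div_eq_div_iff (by norm_num) (by norm_num) (by norm_num) (by norm_num)]
        norm_num
    have hfg : T.itP Tm f A0 + T.itP Tm g A0 = 1 := by
      rw [← T.itP_add]
      have h3 : (fun B => f B + g B) = fun _ => (1 : ℝ≥0∞) := by
        funext B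
        simp only [hf, hg]
        by_cases h4 : fitness U B < BB p N
        · rw [if_pos h4, if_neg (not_le.2 h4), add_zero]
        · rw [if_neg h4, if_pos (not_lt.1 h4), zero_add]
      rw [h3, T.itP_const hU.1]
    have hf2 : 1 / 2 ≤ T.itP Tm f A0 := by
      have h3 : (1 / 2 : ℝ≥0∞) + 1 / 2 ≤ T.itP Tm f A0 + 1 / 2 := by
        calc (1 / 2 : ℝ≥0∞) + 1 / 2 = 1 := ENNReal.add_halves 1
          _ = T.itP Tm f A0 + T.itP Tm g A0 := hfg.symm
          _ ≤ _ := add_le_add le_rfl hg2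
      exact ENNReal.le_of_add_le_add_right (by simp) h3
    refine le_trans ?_ (acc_le_time hU.1 T A0 (le_refl (BB p N)) Tm)
    unfold Stages.acc
    calc (L : ℝ≥0∞) * N = ((Tm : ℕ) : ℝ≥0∞) * (1 / 2) := by
          rw [hTm]
          push_cast
          have h3 : (2 : ℝ≥0∞) * (1 / 2) = 1 := by
            rw [one_div, ENNReal.mul_inv_cancel (by norm_num) (by norm_num)]
          calc (L : ℝ≥0∞) * N = L * N * (2 * (1 / 2)) := by rw [h3, mul_one]
            _ = _ := by ring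
      _ ≤ ((Tm : ℕ) : ℝ≥0∞) * T.itP Tm f A0 := mul_le_mul_right hf2 _
      _ = ∑ t ∈ Finset.range Tm, T.itP Tm f A0 := by simp
      _ ≤ ∑ t ∈ Finset.range Tm, T.itP t f A0 :=
          Finset.sum_le_sum (fun t ht =>
            T.itP_small_anti hU.1 (BB p N) A0 (Finset.mem_range.1 ht).le)
  · push Not at hZ
    obtain ⟨n0, hn0⟩ := hZ
    filter_upwards [hBB n0] with N hN
    obtain ⟨t, ht⟩ := hn0 (L * N)
    refine le_trans ?_ (acc_le_time hU.1 T A0 hN t)
    refine le_trans ?_ ht.le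
    push_cast
    exact le_rfl

/-- **Main theorem.** For every optimal prefix machine, every computable enumeration of its halting
programs and every starting organism, the expected mutation time to reach fitness `BB'(N)` grows
faster than linearly. -/
theorem main (U : List Bool → List Bool →. ℕ) (hU : IsOptimal U) (p : ℕ → List Bool)
    (hp : IsEnumeration U p) (A : List Bool) :
    Tendsto (fun N : ℕ => (∫⁻ ω, mutationTime U p A N ω ∂coins) / (N : ℝ≥0∞)) atTop (𝓝 ∞) ∧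
    limsup (fun N : ℕ => (∫⁻ ω, mutationTime U p A N ω ∂coins) / (N : ℝ≥0∞)) atTop = ∞ := by
  have h : Tendsto (fun N : ℕ => (∫⁻ ω, mutationTime U p A N ω ∂coins) / (N : ℝ≥0∞)) atTop (𝓝 ∞) := by
    rw [ENNReal.tendsto_nhds_top_iff_nat]
    intro L
    filter_upwards [superlinear hU hp A (L + 1), eventually_ge_atTop 1] with N hN hN1
    have hN0 : (N : ℝ≥0∞) ≠ 0 := by
      have : N ≠ 0 := by omega
      exact_mod_cast this
    refine lt_of_lt_of_le ?_ ((ENNReal.le_div_iff_mul_le (Or.inl hN0)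
      (Or.inl (ENNReal.natCast_ne_top _))).2 hN)
    exact_mod_cast Nat.lt_succ_self L
  exact ⟨h, h.limsup_eq⟩

end Pool.Agent.Mut
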