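import Pool.Agent.Mut.Destroy

/-!
# The transition operator and the expected relative progress
-/

open MeasureTheory
open scoped ENNReal NNReal
open Pool.Agent.Rand

namespace Pool.Agent.Mut

variable {U : List Bool → List Bool →. ℕ} {p : ℕ → List Bool}

open Classical in
/-- The fitness of an organism: the number it outputs for the empty input (zero if there is
none). -/
noncomputable def fitness (U : List Bool → List Bool →. ℕ) (A : List Bool) : ℕ :=
  if h : (U A []).Dom then (U A []).get h else 0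

lemma fitness_eq {A : List Bool} {φ : ℕ} (h : φ ∈ U A []) : fitness U A = φ := by
  have hd : (U A []).Dom := Part.dom_iff_mem.2 ⟨φ, h⟩
  unfold fitness
  rw [dif_pos hd]
  exact Part.mem_unique (Part.get_mem _) h

/-- relative progress -/
noncomputable def upr (p : ℕ → List Bool) (n z : ℕ) : ℝ≥0 := (om p z - om p n) / gap p n

lemma upr_le_one (hU : IsPrefixMachine U) (hp : IsEnumeration U p) (n z : ℕ) : upr p n z ≤ 1 := by
  unfold upr
  rw [div_le_one (gap_pos hU hp n)]
  unfold gap
  exact tsub_le_tsub_right (om_lt_Om hU hp z).le _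

lemma upr_add (hU : IsPrefixMachine U) (hp : IsEnumeration U p) {n z : ℕ} (h : n ≤ z) :
    upr p n z + gap p z / gap p n = 1 := by
  unfold upr
  rw [← add_div, div_eq_one_iff_eq (gap_pos hU hp n).ne']
  unfold gap
  have h1 : om p n ≤ om p z := om_strictMono.monotone h
  have h2 : om p z ≤ Om p := (om_lt_Om hU hp z).le
  rw [← NNReal.coe_inj, NNReal.coe_add, NNReal.coe_sub h1, NNReal.coe_sub h2,
    NNReal.coe_sub (h1.trans h2)]
  ring

lemma upr_anti (hU : IsPrefixMachine U) (hp : IsEnumeration U p) {n φ : ℕ} (h : n ≤ φ) (z : ℕ) :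
    upr p φ z ≤ upr p n z := by
  rcases le_total z φ with hz | hz
  · unfold upr
    rw [tsub_eq_zero_of_le (om_strictMono.monotone hz), zero_div]
    exact zero_le
  · have h1 := upr_add hU hp hz
    have h2 := upr_add hU hp (h.trans hz)
    have h3 : gap p z / gap p n ≤ gap p z / gap p φ :=
      div_le_div_of_nonneg_left zero_le (gap_pos hU hp φ) (gap_anti h)
    have h4 : upr p φ z + gap p z / gap p n ≤ upr p n z + gap p z / gap p n := by
      rw [h2, ← h1]; gcongr
    exact le_of_add_le_add_right h4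

namespace Stages

variable (T : Stages U)

/-- the transition operator of the mutation process -/
noncomputable def opP (f : List Bool → ℝ≥0∞) (A : List Bool) : ℝ≥0∞ :=
  (∑' q : ℕ × List Bool, T.kap (A, q) * f q.2) + (1 - ∑' q : ℕ × List Bool, T.kap (A, q)) * f A

/-- an upper bound of the transition operator -/
noncomputable def opU (f : List Bool → ℝ≥0∞) (A : List Bool) : ℝ≥0∞ :=
  f A + ∑' q : ℕ × List Bool, T.kap (A, q) * f q.2

lemma opP_mono {f g : List Bool → ℝ≥0∞} (h : ∀ A, f A ≤ g A) (A : List Bool) :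
    T.opP f A ≤ T.opP g A :=
  add_le_add (ENNReal.tsum_le_tsum (fun q => mul_le_mul_right (h _) _)) (mul_le_mul_right (h _) _)

lemma opU_mono {f g : List Bool → ℝ≥0∞} (h : ∀ A, f A ≤ g A) (A : List Bool) :
    T.opU f A ≤ T.opU g A :=
  add_le_add (h A) (ENNReal.tsum_le_tsum (fun q => mul_le_mul_right (h _) _))

lemma opP_le_opU (f : List Bool → ℝ≥0∞) (A : List Bool) : T.opP f A ≤ T.opU f A := by
  unfold opP opU
  rw [add_comm]
  exact add_le_add (mul_le_of_le_one_left zero_le tsub_le_self) le_rfl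

lemma opP_const (hU : IsPrefixMachine U) (V : ℝ≥0∞) (A : List Bool) : T.opP (fun _ => V) A = V := by
  unfold opP
  rw [ENNReal.tsum_mul_right, ← add_mul, add_tsub_cancel_of_le (T.tsum_kap_le_one hU A), one_mul]

lemma opP_add (f g : List Bool → ℝ≥0∞) (A : List Bool) :
    T.opP (fun B => f B + g B) A = T.opP f A + T.opP g A := by
  unfold opP
  simp only [mul_add, ENNReal.tsum_add]
  ring

lemma opP_const_mul (c : ℝ≥0∞) (f : List Bool → ℝ≥0∞) (A : List Bool) :
    T.opP (fun B => c * f B) A = c * T.opP f A := by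
  unfold opP
  rw [mul_add, ← ENNReal.tsum_mul_left]
  congr 1
  · refine tsum_congr (fun q => ?_); ring
  · ring

/-- iterates of the transition operator -/
noncomputable def itP (t : ℕ) (f : List Bool → ℝ≥0∞) : List Bool → ℝ≥0∞ := (T.opP)^[t] f

/-- iterates of the upper bound -/
noncomputable def itU (t : ℕ) (f : List Bool → ℝ≥0∞) : List Bool → ℝ≥0∞ := (T.opU)^[t] f

lemma itP_succ (t : ℕ) (f : List Bool → ℝ≥0∞) : T.itP (t + 1) f = T.opP (T.itP t f) :=
  Function.iterate_succ_apply' _ _ _

lemma itU_succ (t : ℕ) (f : List Bool → ℝ≥0∞) : T.itU (t + 1) f = T.opU (T.itU t f) :=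
  Function.iterate_succ_apply' _ _ _

lemma itP_succ' (t : ℕ) (f : List Bool → ℝ≥0∞) : T.itP (t + 1) f = T.itP t (T.opP f) :=
  Function.iterate_succ_apply _ _ _

lemma itP_zero (f : List Bool → ℝ≥0∞) : T.itP 0 f = f := rfl

lemma itU_zero (f : List Bool → ℝ≥0∞) : T.itU 0 f = f := rfl

lemma itP_le_itU (t : ℕ) (f : List Bool → ℝ≥0∞) : ∀ A, T.itP t f A ≤ T.itU t f A := by
  induction t with
  | zero => intro A; exact le_rfl
  | succ t ih =>
    intro A
    rw [itP_succ, itU_succ]
    exact (T.opP_le_opU _ A).trans (T.opU_mono ih A)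

lemma itP_mono (t : ℕ) {f g : List Bool → ℝ≥0∞} (h : ∀ A, f A ≤ g A) :
    ∀ A, T.itP t f A ≤ T.itP t g A := by
  induction t with
  | zero => exact h
  | succ t ih => intro A; rw [itP_succ, itP_succ]; exact T.opP_mono ih A

lemma itU_mono (t : ℕ) {f g : List Bool → ℝ≥0∞} (h : ∀ A, f A ≤ g A) :
    ∀ A, T.itU t f A ≤ T.itU t g A := by
  induction t with
  | zero => exact h
  | succ t ih => intro A; rw [itU_succ, itU_succ]; exact T.opU_mono ih A

lemma itP_const (hU : IsPrefixMachine U) (t : ℕ) (V : ℝ≥0∞) : ∀ A, T.itP t (fun _ => V) A = V := by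
  induction t with
  | zero => intro A; rfl
  | succ t ih =>
    intro A
    rw [itP_succ, funext ih]
    exact T.opP_const hU V A

lemma itP_add_time (s t : ℕ) (f : List Bool → ℝ≥0∞) : T.itP (s + t) f = T.itP s (T.itP t f) :=
  Function.iterate_add_apply _ _ _ _

lemma itP_add (t : ℕ) (f g : List Bool → ℝ≥0∞) :
    ∀ A, T.itP t (fun B => f B + g B) A = T.itP t f A + T.itP t g A := by
  induction t with
  | zero => intro A; rfl
  | succ t ih =>
    intro A
    rw [itP_succ, itP_succ, itP_succ, funext ih]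
    exact T.opP_add _ _ A

/-- expected sum of `g` over the first `r` steps -/
noncomputable def acc (g : List Bool → ℝ≥0∞) (r : ℕ) (A : List Bool) : ℝ≥0∞ :=
  ∑ t ∈ Finset.range r, T.itP t g A

lemma opP_finset_sum {ι : Type*} (s : Finset ι) (f : ι → List Bool → ℝ≥0∞) (A : List Bool) :
    T.opP (fun B => ∑ i ∈ s, f i B) A = ∑ i ∈ s, T.opP (f i) A := by
  classical
  induction s using Finset.induction_on with
  | empty => simp [opP]
  | insert i s hi ih =>
    simp only [Finset.sum_insert hi]
    rw [T.opP_add, ih]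

lemma itP_finset_sum {ι : Type*} (s : Finset ι) (f : ι → List Bool → ℝ≥0∞) (t : ℕ) :
    ∀ A, T.itP t (fun B => ∑ i ∈ s, f i B) A = ∑ i ∈ s, T.itP t (f i) A := by
  induction t with
  | zero => intro A; rfl
  | succ t ih =>
    intro A
    simp only [itP_succ]
    rw [funext ih]
    exact T.opP_finset_sum s (fun i => T.itP t (f i)) A

lemma acc_succ (g : List Bool → ℝ≥0∞) (r : ℕ) (A : List Bool) :
    T.acc g (r + 1) A = g A + T.opP (T.acc g r) A := by
  unfold acc
  rw [Finset.sum_range_succ', add_comm, T.opP_finset_sum]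
  congr 1
  refine Finset.sum_congr rfl (fun t _ => ?_)
  rw [itP_succ]

lemma acc_add (g : List Bool → ℝ≥0∞) (r s : ℕ) (A : List Bool) :
    T.acc g (r + s) A = T.acc g r A + T.itP r (T.acc g s) A := by
  unfold acc
  rw [Finset.sum_range_add, T.itP_finset_sum]
  congr 1
  refine Finset.sum_congr rfl (fun t _ => ?_)
  rw [T.itP_add_time]

lemma acc_mono_left {g h : List Bool → ℝ≥0∞} (hgh : ∀ A, g A ≤ h A) (r : ℕ) (A : List Bool) :
    T.acc g r A ≤ T.acc h r A :=
  Finset.sum_le_sum (fun t _ => T.itP_mono t hgh A)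

lemma acc_mono {g : List Bool → ℝ≥0∞} {r s : ℕ} (h : r ≤ s) (A : List Bool) :
    T.acc g r A ≤ T.acc g s A :=
  Finset.sum_le_sum_of_subset (Finset.range_mono h)

/-- uniform bounds on blocks give a bound on all times -/
lemma acc_le_blocks (hU : IsPrefixMachine U) {g : List Bool → ℝ≥0∞} {V : ℝ≥0∞} {R : ℕ} (hR : 0 < R)
    (h : ∀ r ≤ R, ∀ A, T.acc g r A ≤ V) : ∀ r A, T.acc g r A ≤ V * ((r / R : ℕ) + 1) := by
  intro r
  induction r using Nat.strong_induction_on with
  | _ r ih =>
    intro A
    rcases lt_or_ge r R with hr | hr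
    · rw [Nat.div_eq_of_lt hr]
      simpa using h r hr.le A
    · obtain ⟨s, rfl⟩ := Nat.exists_eq_add_of_le hr
      rw [acc_add]
      have h1 : T.itP R (T.acc g s) A ≤ V * ((s / R : ℕ) + 1) := by
        refine (T.itP_mono R (ih s (by omega)) A).trans ?_
        rw [T.itP_const hU]
      have h2 : (R + s) / R = s / R + 1 := by
        rw [Nat.add_div_left _ hR]
      rw [h2]
      calc _ ≤ V + V * ((s / R : ℕ) + 1) := add_le_add (h R le_rfl A) h1
        _ = _ := by push_cast; ring

/-! ### Expected relative progress of one step -/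

/-- expected relative progress of one step -/
noncomputable def prog (p : ℕ → List Bool) (A : List Bool) : ℝ≥0∞ :=
  ∑' q : ℕ × List Bool, T.kap (A, q) * ((upr p (fitness U A) q.1 : ℝ≥0) : ℝ≥0∞)

lemma prog_le_one (hU : IsPrefixMachine U) (hp : IsEnumeration U p) (A : List Bool) :
    T.prog p A ≤ 1 := by
  refine le_trans (ENNReal.tsum_le_tsum (fun q => ?_)) (T.tsum_kap_le_one hU A)
  refine mul_le_of_le_one_right zero_le ?_
  exact_mod_cast upr_le_one hU hp _ _

/-- weight of the mutations of `A` with verification stage `z` -/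
noncomputable def kz (z : ℕ) (A : List Bool) : ℝ≥0∞ := ∑' B : List Bool, T.kap (A, (z, B))

lemma kap_fit {A B : List Bool} {z : ℕ} (h : T.kap (A, (z, B)) ≠ 0) :
    fitness U A < fitness U B ∧ fitness U B ≤ z ∧ (U A []).Dom ∧ (U B []).Dom := by
  obtain ⟨a, b, h1, h2, h3, h4⟩ := T.kap_ne_zero h
  have ha := T.sound _ _ _ h1
  have hb := T.sound _ _ _ h2
  rw [fitness_eq ha, fitness_eq hb]
  exact ⟨h3, h4, Part.dom_iff_mem.2 ⟨_, ha⟩, Part.dom_iff_mem.2 ⟨_, hb⟩⟩

lemma itU_prog_le (hU : IsPrefixMachine U) (hp : IsEnumeration U p) (n t : ℕ) :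
    ∀ A, n ≤ fitness U A →
      T.itU t (T.prog p) A ≤ ∑' z, T.itU t (T.kz z) A * ((upr p n z : ℝ≥0) : ℝ≥0∞) := by
  induction t with
  | zero =>
    intro A hA
    simp only [itU_zero]
    unfold prog kz
    rw [ENNReal.tsum_prod']
    refine ENNReal.tsum_le_tsum (fun z => ?_)
    rw [← ENNReal.tsum_mul_right]
    refine ENNReal.tsum_le_tsum (fun B => ?_)
    refine mul_le_mul_right ?_ _
    exact_mod_cast upr_anti hU hp hA z
  | succ t ih =>
    intro A hA
    simp only [itU_succ]
    unfold opU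
    simp only [add_mul, ENNReal.tsum_add]
    refine add_le_add (ih A hA) ?_
    simp only [← ENNReal.tsum_mul_right]
    rw [ENNReal.tsum_comm]
    refine ENNReal.tsum_le_tsum (fun q => ?_)
    by_cases hq : T.kap (A, q) = 0
    · rw [hq]; simp
    · have h1 := T.kap_fit (B := q.2) (z := q.1) hq
      refine (mul_le_mul_right (ih q.2 (hA.trans h1.1.le)) _).trans (le_of_eq ?_)
      rw [← ENNReal.tsum_mul_left]
      refine tsum_congr (fun z => ?_)
      rw [mul_assoc]

lemma tsum_kz (A : List Bool) : ∑' z, T.kz z A = ∑' q : ℕ × List Bool, T.kap (A, q) := by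
  unfold kz
  rw [ENNReal.tsum_prod']

lemma tsum_itU_kz_le (hU : IsPrefixMachine U) (t : ℕ) :
    ∀ A, ∑' z, T.itU t (T.kz z) A ≤ 2 ^ t := by
  induction t with
  | zero =>
    intro A
    simp only [itU_zero, pow_zero]
    rw [tsum_kz]
    exact T.tsum_kap_le_one hU A
  | succ t ih =>
    intro A
    simp only [itU_succ]
    unfold opU
    rw [ENNReal.tsum_add, ENNReal.tsum_comm, pow_succ, mul_two]
    refine add_le_add (ih A) ?_
    simp only [ENNReal.tsum_mul_left]
    calc _ ≤ ∑' q : ℕ × List Bool, T.kap (A, q) * 2 ^ t :=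
          ENNReal.tsum_le_tsum (fun q => mul_le_mul_right (ih q.2) _)
      _ = (∑' q : ℕ × List Bool, T.kap (A, q)) * 2 ^ t := ENNReal.tsum_mul_right
      _ ≤ 1 * 2 ^ t := mul_le_mul_left (T.tsum_kap_le_one hU A) _
      _ = _ := one_mul _

lemma lsc_itU_kz (t : ℕ) : LSC (fun r : ℕ × List Bool => T.itU t (T.kz r.1) r.2) := by
  induction t with
  | zero =>
    simp only [itU_zero]
    unfold kz
    refine LSC.tsum (f := fun a : (ℕ × List Bool) × List Bool => T.kap (a.1.2, (a.1.1, a.2))) ?_
    exact T.lsc_kap (z := fun a : (ℕ × List Bool) × List Bool => a.1.1) (A := fun a => a.1.2)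
      (B := fun a => a.2) (Computable.fst.comp Computable.fst) (Computable.snd.comp Computable.fst)
      Computable.snd
  | succ t ih =>
    simp only [itU_succ]
    unfold opU
    refine LSC.add ih ?_
    refine LSC.tsum (f := fun a : (ℕ × List Bool) × (ℕ × List Bool) =>
      T.kap (a.1.2, a.2) * T.itU t (T.kz a.1.1) a.2.2) ?_
    refine LSC.mul (T.lsc_kap (z := fun a : (ℕ × List Bool) × (ℕ × List Bool) => a.2.1)
      (A := fun a => a.1.2) (B := fun a => a.2.2) (Computable.fst.comp Computable.snd)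
      (Computable.snd.comp Computable.fst) (Computable.snd.comp Computable.snd)) ?_
    exact ih.comp (h := fun a : (ℕ × List Bool) × (ℕ × List Bool) => (a.1.1, a.2.2))
      ((Computable.fst.comp Computable.fst).pair (Computable.snd.comp Computable.snd))

end Stages

end Pool.Agent.Mut
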