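import Pool.Agent.Mut.Guess2

/-!
# The mutation process on the space of coin tosses
-/

open MeasureTheory
open scoped ENNReal NNReal
open Pool.Agent.Rand

namespace Pool.Agent.Mut

/-- The space of draws: one infinite sequence of coin tosses for every mutation time. -/
abbrev Draws : Type := ℕ → Cantor

/-- The law of the draws: independent fair coins. -/
noncomputable def coins : Measure Draws := Measure.infinitePi (fun _ : ℕ => unif)

open Classical in
/-- One step of the random walk: the mutation drawn is the initial segment of the coin tosses on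
which the machine, with the current organism `A` as input, halts (if there is one); the organism is
replaced if and only if the mutation is improving. -/
noncomputable def step (U : List Bool → List Bool →. ℕ) (A : List Bool) (ω : Cantor) : List Bool :=
  if h : ∃ B : List Bool, ∃ n : ℕ, Accepts U A (initSeg ω n) B then h.choose else A

/-- The random walk started at the organism `A`. -/
noncomputable def walk (U : List Bool → List Bool →. ℕ) (A : List Bool) (ω : Draws) : ℕ → List Bool
  | 0 => A
  | t + 1 => step U (walk U A ω t) (ω t)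

instance : IsProbabilityMeasure coins := by
  unfold coins
  infer_instance

/-- put one more draw in front -/
def consD (q : Cantor × Draws) : Draws := fun i => Nat.casesOn i q.1 (fun j => q.2 j)

lemma measurable_consD : Measurable consD := by
  refine measurable_pi_lambda _ (fun i => ?_)
  cases i with
  | zero => exact measurable_fst
  | succ j => exact (measurable_pi_apply j).comp measurable_snd

lemma map_consD : (unif.prod coins).map consD = coins := by
  classical
  refine Measure.eq_infinitePi (fun _ : ℕ => unif) ?_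
  intro s t ht
  rw [Measure.map_apply measurable_consD (MeasurableSet.pi s.countable_toSet (fun i _ => ht i))]
  let s' : Finset ℕ := s.preimage Nat.succ (Nat.succ_injective.injOn)
  have hpre : consD ⁻¹' (Set.pi (s : Set ℕ) t) =
      (if 0 ∈ s then t 0 else Set.univ) ×ˢ (Set.pi (s' : Set ℕ) (fun j => t (j + 1))) := by
    ext ⟨x, y⟩
    simp only [Set.mem_preimage, Set.mem_pi, Set.mem_prod]
    constructor
    · intro h
      refine ⟨?_, ?_⟩
      · split_ifs with h0
        · exact h 0 h0
        · trivial
      · intro j hj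
        have hj' : j + 1 ∈ s := by simpa [s'] using hj
        exact h (j + 1) hj'
    · rintro ⟨h1, h2⟩ i hi
      cases i with
      | zero =>
        have hi' : 0 ∈ s := hi
        rw [if_pos hi'] at h1
        exact h1
      | succ j =>
        refine h2 j ?_
        have hi' : j + 1 ∈ s := hi
        simpa [s'] using hi'
  rw [hpre, Measure.prod_prod]
  have h2 : coins (Set.pi (s' : Set ℕ) (fun j => t (j + 1))) = ∏ j ∈ s', unif (t (j + 1)) := by
    unfold coins
    rw [Measure.infinitePi_pi]
    intro j _
    exact ht _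
  rw [h2]
  by_cases h0 : 0 ∈ s
  · rw [if_pos h0, ← Finset.mul_prod_erase s (fun i => unif (t i)) h0]
    congr 1
    have h3 : s' = (s.erase 0).preimage Nat.succ (Nat.succ_injective.injOn) := by
      ext j; simp [s']
    rw [h3]
    refine Finset.prod_preimage Nat.succ (s.erase 0) (Nat.succ_injective.injOn)
      (fun i => unif (t i)) ?_
    intro x hx hx2
    exfalso
    apply hx2
    have hx0 : x ≠ 0 := (Finset.mem_erase.1 hx).1
    exact ⟨x - 1, by show x - 1 + 1 = x; omega⟩
  · rw [if_neg h0, measure_univ, one_mul]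
    refine Finset.prod_preimage Nat.succ s (Nat.succ_injective.injOn) (fun i => unif (t i)) ?_
    intro x hx hx2
    exfalso
    apply hx2
    have hx0 : x ≠ 0 := fun h => h0 (h ▸ hx)
    exact ⟨x - 1, by show x - 1 + 1 = x; omega⟩

lemma lintegral_coins (F : Draws → ℝ≥0∞) (hF : Measurable F) :
    ∫⁻ ω, F ω ∂coins = ∫⁻ x, ∫⁻ y, F (consD (x, y)) ∂coins ∂unif := by
  conv_lhs => rw [← map_consD]
  rw [lintegral_map hF measurable_consD, lintegral_prod]
  exact (hF.comp measurable_consD).aemeasurable

variable {U : List Bool → List Bool →. ℕ} {p : ℕ → List Bool}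

lemma walk_consD (A : List Bool) (x : Cantor) (y : Draws) (t : ℕ) :
    walk U A (consD (x, y)) (t + 1) = walk U (step U A x) y t := by
  induction t with
  | zero => rfl
  | succ t ih =>
    show step U (walk U A (consD (x, y)) (t + 1)) (y t) = _
    rw [ih]
    rfl

lemma Accepts.unique (hU : IsPrefixMachine U) {A M M' B B' : List Bool} {ω : Cantor}
    (h : ω ∈ cyl M) (h' : ω ∈ cyl M') (ha : Accepts U A M B) (ha' : Accepts U A M' B') :
    M = M' ∧ B = B' := by
  have hM : M = M' := mem_cyl_unique hU h h' (Part.dom_iff_mem.2 ⟨_, ha.1⟩)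
    (Part.dom_iff_mem.2 ⟨_, ha'.1⟩)
  subst hM
  exact ⟨rfl, Encodable.encode_injective (Part.mem_unique ha.1 ha'.1)⟩

lemma exists_initSeg_iff {A B : List Bool} {ω : Cantor} :
    (∃ n, Accepts U A (initSeg ω n) B) ↔ ∃ M, ω ∈ cyl M ∧ Accepts U A M B := by
  constructor
  · rintro ⟨n, h⟩
    exact ⟨initSeg ω n, mem_cyl_iff_prefix.2 ⟨n, rfl⟩, h⟩
  · rintro ⟨M, h1, h2⟩
    obtain ⟨n, rfl⟩ := mem_cyl_iff_prefix.1 h1
    exact ⟨n, h2⟩

lemma step_of_accepts (hU : IsPrefixMachine U) {A M B : List Bool} {ω : Cantor} (h : ω ∈ cyl M)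
    (ha : Accepts U A M B) : step U A ω = B := by
  have hex : ∃ B : List Bool, ∃ n : ℕ, Accepts U A (initSeg ω n) B :=
    ⟨B, exists_initSeg_iff.2 ⟨M, h, ha⟩⟩
  unfold step
  rw [dif_pos hex]
  obtain ⟨M', h', ha'⟩ := exists_initSeg_iff.1 hex.choose_spec
  exact (Accepts.unique hU h' h ha' ha).2

lemma step_of_not {A : List Bool} {ω : Cantor}
    (h : ¬ ∃ M B, ω ∈ cyl M ∧ Accepts U A M B) : step U A ω = A := by
  unfold step
  rw [dif_neg]
  rintro ⟨B, hB⟩
  obtain ⟨M, h1, h2⟩ := exists_initSeg_iff.1 hB
  exact h ⟨M, B, h1, h2⟩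

section measurability

local instance : MeasurableSpace (List Bool) := ⊤

lemma measurable_step (hU : IsPrefixMachine U) (A : List Bool) : Measurable (step U A) := by
  refine measurable_to_countable' (fun B => ?_)
  have h1 : MeasurableSet {ω : Cantor | ∃ M, ω ∈ cyl M ∧ Accepts U A M B} := by
    have : {ω : Cantor | ∃ M, ω ∈ cyl M ∧ Accepts U A M B} =
        ⋃ M : {M : List Bool // Accepts U A M B}, cyl M.1 := by
      ext ω
      simp only [Set.mem_ofPred_eq, Set.mem_iUnion, Subtype.exists, exists_prop]
      exact exists_congr (fun M => and_comm)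
    rw [this]
    exact MeasurableSet.iUnion (fun M => measurableSet_cyl _)
  have h2 : MeasurableSet {ω : Cantor | ∃ M B, ω ∈ cyl M ∧ Accepts U A M B} := by
    have : {ω : Cantor | ∃ M B, ω ∈ cyl M ∧ Accepts U A M B} =
        ⋃ M : {M : List Bool // ∃ B, Accepts U A M B}, cyl M.1 := by
      ext ω
      simp only [Set.mem_ofPred_eq, Set.mem_iUnion, Subtype.exists, exists_prop]
      constructor
      · rintro ⟨M, B, h1, h2⟩; exact ⟨M, ⟨B, h2⟩, h1⟩
      · rintro ⟨M, ⟨B, h2⟩, h1⟩; exact ⟨M, B, h1, h2⟩
    rw [this]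
    exact MeasurableSet.iUnion (fun M => measurableSet_cyl _)
  have h3 : step U A ⁻¹' {B} = {ω : Cantor | ∃ M, ω ∈ cyl M ∧ Accepts U A M B} ∪
      ({ω : Cantor | ∃ M B, ω ∈ cyl M ∧ Accepts U A M B}ᶜ ∩ {_ω : Cantor | A = B}) := by
    ext ω
    simp only [Set.mem_preimage, Set.mem_singleton_iff, Set.mem_union, Set.mem_ofPred_eq,
      Set.mem_inter_iff, Set.mem_compl_iff]
    constructor
    · intro h
      by_cases hex : ∃ M B, ω ∈ cyl M ∧ Accepts U A M B
      · obtain ⟨M, B', h4, h5⟩ := hex
        have := step_of_accepts hU h4 h5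
        rw [h] at this
        subst this
        exact Or.inl ⟨M, h4, h5⟩
      · have := step_of_not hex
        exact Or.inr ⟨hex, this.symm.trans h⟩
    · rintro (⟨M, h4, h5⟩ | ⟨h4, h5⟩)
      · exact step_of_accepts hU h4 h5
      · rw [step_of_not h4, h5]
  rw [h3]
  exact h1.union (h2.compl.inter (MeasurableSet.const _))

lemma measurable_walk (hU : IsPrefixMachine U) (A : List Bool) (t : ℕ) :
    Measurable (fun ω => walk U A ω t) := by
  induction t with
  | zero => exact measurable_const
  | succ t ih =>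
    have h1 : Measurable (fun q : List Bool × Cantor => step U q.1 q.2) :=
      measurable_from_prod_countable_right (fun B => measurable_step hU B)
    exact h1.comp (ih.prodMk (measurable_pi_apply t))

lemma measurable_comp_walk (hU : IsPrefixMachine U) (f : List Bool → ℝ≥0∞) (A : List Bool) (t : ℕ) :
    Measurable (fun ω => f (walk U A ω t)) :=
  (Measurable.of_discrete (f := f)).comp (measurable_walk hU A t)

lemma measurable_comp_step (hU : IsPrefixMachine U) (f : List Bool → ℝ≥0∞) (A : List Bool) :
    Measurable (fun ω => f (step U A ω)) :=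
  (Measurable.of_discrete (f := f)).comp (measurable_step hU A)

end measurability

namespace Stages

variable (T : Stages U)

/-- the law of one step -/
lemma lintegral_step (hU : IsPrefixMachine U) (f : List Bool → ℝ≥0∞) (A : List Bool) :
    ∫⁻ ω, f (step U A ω) ∂unif = T.opP f A := by
  classical
  let g : (List Bool → ℝ≥0∞) → List Bool → ℝ≥0∞ := fun f M =>
    ∑' q : ℕ × List Bool, if T.Zst q.1 A M q.2 then f q.2 else 0
  let G : (List Bool → ℝ≥0∞) → Cantor → ℝ≥0∞ := fun f ω =>
    ∑' M, (cyl M).indicator (fun _ => g f M) ω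
  have hGm : ∀ f, Measurable (G f) := by
    intro f
    exact Measurable.tsum (fun M => measurable_const.indicator (measurableSet_cyl M))
  have hGint : ∀ f, ∫⁻ ω, G f ω ∂unif = ∑' q : ℕ × List Bool, T.kap (A, q) * f q.2 := by
    intro f
    rw [lintegral_programs, T.tsum_kap A (fun q => f q.2)]
  have hGacc : ∀ f ω M B, ω ∈ cyl M → Accepts U A M B → G f ω = f B := by
    intro f ω M B h1 h2
    simp only [G]
    rw [tsum_eq_single M]
    · rw [Set.indicator_of_mem h1]
      obtain ⟨z, hz⟩ := T.accepts_iff.1 h2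
      exact T.tsum_Zst_eq hz (fun q => f q.2)
    · intro M' hM'
      by_cases h3 : ω ∈ cyl M'
      · rw [Set.indicator_of_mem h3]
        simp only [g]
        rw [ENNReal.tsum_eq_zero]
        intro q
        rw [if_neg]
        intro hq
        exact hM' (Accepts.unique hU h3 h1 (T.accepts_iff.2 ⟨_, hq⟩) h2).1
      · rw [Set.indicator_of_notMem h3]
  have hGnot : ∀ f ω, (¬ ∃ M B, ω ∈ cyl M ∧ Accepts U A M B) → G f ω = 0 := by
    intro f ω h
    simp only [G]
    rw [ENNReal.tsum_eq_zero]
    intro M
    by_cases h3 : ω ∈ cyl M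
    · rw [Set.indicator_of_mem h3]
      simp only [g]
      rw [ENNReal.tsum_eq_zero]
      intro q
      rw [if_neg]
      intro hq
      exact h ⟨M, q.2, h3, T.accepts_iff.2 ⟨_, hq⟩⟩
    · rw [Set.indicator_of_notMem h3]
  have hpt : ∀ ω, f (step U A ω) = G f ω + (1 - G (fun _ => 1) ω) * f A := by
    intro ω
    by_cases h : ∃ M B, ω ∈ cyl M ∧ Accepts U A M B
    · obtain ⟨M, B, h1, h2⟩ := h
      rw [step_of_accepts hU h1 h2, hGacc f ω M B h1 h2, hGacc (fun _ => 1) ω M B h1 h2]
      simp
    · rw [step_of_not h, hGnot f ω h, hGnot (fun _ => 1) ω h]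
      simp
  have hG1 : ∀ ω, G (fun _ => 1) ω ≤ 1 := by
    intro ω
    by_cases h : ∃ M B, ω ∈ cyl M ∧ Accepts U A M B
    · obtain ⟨M, B, h1, h2⟩ := h
      rw [hGacc (fun _ => 1) ω M B h1 h2]
    · rw [hGnot (fun _ => 1) ω h]; exact zero_le
  have hI1 : ∫⁻ ω, G (fun _ => 1) ω ∂unif = ∑' q : ℕ × List Bool, T.kap (A, q) := by
    rw [hGint (fun _ => 1)]
    simp
  have hm : Measurable (fun ω => 1 - G (fun _ => 1) ω) := measurable_const.sub (hGm (fun _ => 1))
  have hI2 : ∫⁻ ω, (1 - G (fun _ => 1) ω) * f A ∂unif =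
      (1 - ∑' q : ℕ × List Bool, T.kap (A, q)) * f A := by
    rw [lintegral_mul_const _ hm, lintegral_sub (hGm (fun _ => 1)), hI1]
    · simp
    · rw [hI1]
      exact ne_of_lt (lt_of_le_of_lt (T.tsum_kap_le_one hU A) ENNReal.one_lt_top)
    · exact Filter.Eventually.of_forall hG1
  rw [lintegral_congr hpt, lintegral_add_left (hGm f), hGint f, hI2]
  rfl

/-- the law of the walk -/
lemma lintegral_walk (hU : IsPrefixMachine U) (f : List Bool → ℝ≥0∞) (t : ℕ) :
    ∀ A, ∫⁻ ω, f (walk U A ω t) ∂coins = T.itP t f A := by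
  induction t with
  | zero => intro A; simp [walk, itP]
  | succ t ih =>
    intro A
    rw [lintegral_coins _ (measurable_comp_walk hU f A (t + 1))]
    simp only [walk_consD]
    simp only [ih]
    rw [T.lintegral_step hU (T.itP t f) A, itP_succ]

end Stages

end Pool.Agent.Mut
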