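import Pool.Agent.Mut.Incompress

/-!
# Typicality of the halting probability
-/

open MeasureTheory
open scoped ENNReal NNReal
open Pool.Agent.Rand

namespace Pool.Agent.Mut

/-- a telescoping estimate -/
lemma telescope (y w δ : ℝ≥0) (hδ : 0 < δ) (K : ℕ) :
    (w - y) * ∑ a ∈ Finset.range K, (if w ≤ a * δ then δ / (((a : ℝ≥0) + 1) * δ - y) ^ 2 else 0) ≤ 1 := by
  rcases le_or_gt w y with h | h
  · rw [tsub_eq_zero_of_le h, zero_mul]; exact zero_le
  · have hyw : (y : ℝ) < w := by exact_mod_cast h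
    have hδ' : (0 : ℝ) < δ := by exact_mod_cast hδ
    -- the comparison sequence
    let t : ℕ → ℝ := fun a => max ((a : ℝ) * δ) w - y
    have ht : ∀ a, 0 < t a := fun a => by
      have : (w : ℝ) ≤ max ((a : ℝ) * δ) w := le_max_right _ _
      simp only [t]; linarith
    have hterm : ∀ a : ℕ, (((if w ≤ a * δ then δ / (((a : ℝ≥0) + 1) * δ - y) ^ 2 else 0) : ℝ≥0) : ℝ)
        ≤ 1 / t a - 1 / t (a + 1) := by
      intro a
      by_cases hw : w ≤ a * δ
      · rw [if_pos hw]
        have hw' : (w : ℝ) ≤ a * δ := by exact_mod_cast hw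
        have h1 : y ≤ ((a : ℝ≥0) + 1) * δ := by
          have h2 : (y : ℝ) ≤ ((a : ℝ) + 1) * δ := by nlinarith
          exact_mod_cast h2
        have e1 : t a = a * δ - y := by simp only [t]; rw [max_eq_left hw']
        have e2 : t (a + 1) = (a + 1) * δ - y := by
          simp only [t]; push_cast; rw [max_eq_left]; nlinarith
        have e3 : (((δ / (((a : ℝ≥0) + 1) * δ - y) ^ 2 : ℝ≥0)) : ℝ) = δ / (t (a + 1)) ^ 2 := by
          push_cast [NNReal.coe_sub h1]
          rw [e2]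
        rw [e3]
        have h3 := ht a
        have h4 := ht (a + 1)
        have h5 : t (a + 1) = t a + δ := by rw [e1, e2]; ring
        have h6 : 1 / t a - 1 / t (a + 1) = δ / (t a * t (a + 1)) := by
          rw [div_sub_div _ _ h3.ne' h4.ne']
          congr 1
          rw [h5]; ring
        rw [h6]
        apply div_le_div_of_nonneg_left hδ'.le (by positivity)
        rw [pow_two]
        exact mul_le_mul_of_nonneg_right (by linarith) h4.le
      · rw [if_neg hw]
        have h3 := ht a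
        have h4 : t a ≤ t (a + 1) := by
          simp only [t]
          apply sub_le_sub_right
          apply max_le_max _ le_rfl
          push_cast
          nlinarith
        have h5 : 1 / t (a + 1) ≤ 1 / t a := one_div_le_one_div_of_le h3 h4
        push_cast
        linarith
    have hsum : (((∑ a ∈ Finset.range K, (if w ≤ a * δ then δ / (((a : ℝ≥0) + 1) * δ - y) ^ 2 else 0))
        : ℝ≥0) : ℝ) ≤ 1 / t 0 - 1 / t K := by
      rw [NNReal.coe_sum]
      refine (Finset.sum_le_sum (fun a _ => hterm a)).trans (le_of_eq ?_)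
      exact Finset.sum_range_sub' (fun a => 1 / t a) K
    rw [← NNReal.coe_le_coe, NNReal.coe_mul, NNReal.coe_sub h.le, NNReal.coe_one]
    have h0 : t 0 = w - y := by simp [t]
    have hK := ht K
    calc ((w : ℝ) - y) * _ ≤ ((w : ℝ) - y) * (1 / t 0 - 1 / t K) := by
          apply mul_le_mul_of_nonneg_left hsum; linarith
      _ ≤ ((w : ℝ) - y) * (1 / t 0) := by
          apply mul_le_mul_of_nonneg_left _ (by linarith)
          have : 0 ≤ 1 / t K := by positivity
          linarith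
      _ = 1 := by rw [h0]; field_simp; exact div_self (by linarith)

section

variable {U : List Bool → List Bool →. ℕ} {p : ℕ → List Bool}

variable (p) in
/-- the contribution of the pair `(n, z)` to the test, on the dyadic cell `(m, a)` -/
noncomputable def trm (F : ℕ × (ℕ × ℕ) → ℝ≥0) (m a n z : ℕ) : ℝ≥0 :=
  if om p z ≤ a * (1 / 2) ^ m then
    (1 / 2) ^ (p n).length * F (m, (n, z)) *
      ((om p z - om p (n + 1)) / (((a : ℝ≥0) + 1) * (1 / 2) ^ m - om p (n + 1)) ^ 2)
  else 0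

variable (p) in
/-- lower bound of the test on the cell `(m, a)` -/
noncomputable def Tht (F : ℕ × (ℕ × ℕ) → ℝ≥0) (m a : ℕ) : ℝ≥0 :=
  ∑ n ∈ Finset.range m, ∑ z ∈ Finset.range m, trm p F m a n z

lemma qc_Tht (hp : IsEnumeration U p) {F : ℕ × (ℕ × ℕ) → ℝ≥0} (hF : QC F) :
    QC (fun q : ℕ × ℕ => Tht p F q.1 q.2) := by
  unfold Tht
  refine QC.sum_range (f := fun r : (ℕ × ℕ) × ℕ => ∑ z ∈ Finset.range r.1.1,
    trm p F r.1.1 r.1.2 r.2 z) (n := fun q => q.1) ?_ Computable.fst
  refine QC.sum_range (f := fun r : ((ℕ × ℕ) × ℕ) × ℕ =>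
    trm p F r.1.1.1 r.1.1.2 r.1.2 r.2) (n := fun q => q.1.1) ?_ (Computable.fst.comp Computable.fst)
  have cm : Computable (fun r : ((ℕ × ℕ) × ℕ) × ℕ => r.1.1.1) :=
    Computable.fst.comp (Computable.fst.comp Computable.fst)
  have ca : Computable (fun r : ((ℕ × ℕ) × ℕ) × ℕ => r.1.1.2) :=
    Computable.snd.comp (Computable.fst.comp Computable.fst)
  have cn : Computable (fun r : ((ℕ × ℕ) × ℕ) × ℕ => r.1.2) :=
    Computable.snd.comp Computable.fst
  have cz : Computable (fun r : ((ℕ × ℕ) × ℕ) × ℕ => r.2) := Computable.snd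
  have hom := qc_om hp
  unfold trm
  refine QC.ite ((hom.comp cz).le ((QC.nat ca).mul (QC.half_pow cm))) ?_ QC.zero
  have h1 : QC (fun r : ((ℕ × ℕ) × ℕ) × ℕ =>
      ((r.1.1.2 : ℝ≥0) + 1) * (1 / 2) ^ r.1.1.1 - om p (r.1.2 + 1)) :=
    (((QC.nat ca).add QC.one).mul (QC.half_pow cm)).sub (hom.comp (comp_succ cn))
  have h2 : QC (fun r : ((ℕ × ℕ) × ℕ) × ℕ =>
      (((r.1.1.2 : ℝ≥0) + 1) * (1 / 2) ^ r.1.1.1 - om p (r.1.2 + 1)) ^ 2) :=
    (h1.mul h1).of_eq (fun r => by rw [pow_two])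
  exact ((QC.half_pow (Computable.list_length.comp (hp.computable.comp cn))).mul
    (hF.comp (cm.pair (cn.pair cz)))).mul
    (((hom.comp cz).sub (hom.comp (comp_succ cn))).div h2)

lemma Tht_child {F : ℕ × (ℕ × ℕ) → ℝ≥0} (hF : ∀ q, Monotone (fun s => F (s, q))) (m a b : ℕ)
    (hb : b = 0 ∨ b = 1) : Tht p F m a ≤ Tht p F (m + 1) (2 * a + b) := by
  have hhalf : (1 / 2 : ℝ≥0) ^ m = 2 * (1 / 2) ^ (m + 1) := by
    rw [pow_succ, mul_comm 2, mul_assoc]; simp
  have hl : (a : ℝ≥0) * (1 / 2) ^ m ≤ ((2 * a + b : ℕ) : ℝ≥0) * (1 / 2) ^ (m + 1) := by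
    rw [hhalf]
    push_cast
    calc (a : ℝ≥0) * (2 * (1 / 2) ^ (m + 1)) = (2 * a) * (1 / 2) ^ (m + 1) := by ring
      _ ≤ _ := by gcongr; exact le_self_add
  have hr : (((2 * a + b : ℕ) : ℝ≥0) + 1) * (1 / 2) ^ (m + 1) ≤ ((a : ℝ≥0) + 1) * (1 / 2) ^ m := by
    rw [hhalf]
    push_cast
    calc (2 * (a : ℝ≥0) + b + 1) * (1 / 2) ^ (m + 1) ≤ (2 * a + 1 + 1) * (1 / 2) ^ (m + 1) := by
          gcongr
          rcases hb with rfl | rfl <;> simp
      _ = _ := by ring
  have hterm : ∀ n z, trm p F m a n z ≤ trm p F (m + 1) (2 * a + b) n z := by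
    intro n z
    unfold trm
    by_cases h : om p z ≤ a * (1 / 2) ^ m
    · rw [if_pos h, if_pos (h.trans hl)]
      refine mul_le_mul' (mul_le_mul' le_rfl (hF _ (Nat.le_succ m))) ?_
      rcases le_or_gt (om p z) (om p (n + 1)) with h2 | h2
      · rw [tsub_eq_zero_of_le h2, zero_div, zero_div]
      · have h3 : 0 < (((2 * a + b : ℕ) : ℝ≥0) + 1) * (1 / 2) ^ (m + 1) - om p (n + 1) := by
          apply tsub_pos_of_lt
          calc om p (n + 1) < om p z := h2
            _ ≤ _ := h.trans hl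
            _ ≤ _ := by gcongr; exact le_self_add
        apply div_le_div_of_nonneg_left zero_le (by positivity)
        gcongr
    · rw [if_neg h]; exact zero_le
  unfold Tht
  calc ∑ n ∈ Finset.range m, ∑ z ∈ Finset.range m, trm p F m a n z
      ≤ ∑ n ∈ Finset.range m, ∑ z ∈ Finset.range (m + 1), trm p F (m + 1) (2 * a + b) n z := by
        refine Finset.sum_le_sum (fun n _ => ?_)
        refine (Finset.sum_le_sum (fun z _ => hterm n z)).trans ?_
        exact Finset.sum_le_sum_of_subset (Finset.range_mono (Nat.le_succ m))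
    _ ≤ _ := Finset.sum_le_sum_of_subset (Finset.range_mono (Nat.le_succ m))

/-- the test has integral at most one -/
lemma sum_Tht_le (hU : IsPrefixMachine U) (hp : IsEnumeration U p) {F : ℕ × (ℕ × ℕ) → ℝ≥0}
    (hsum : ∀ s n, ∑ z ∈ Finset.range s, F (s, (n, z)) ≤ 1) (m : ℕ) :
    ∑ a ∈ Finset.range (2 ^ m), (1 / 2) ^ m * Tht p F m a ≤ 1 := by
  unfold Tht
  have h1 : ∑ a ∈ Finset.range (2 ^ m), (1 / 2) ^ m *
      ∑ n ∈ Finset.range m, ∑ z ∈ Finset.range m, trm p F m a n z =
      ∑ n ∈ Finset.range m, ∑ z ∈ Finset.range m, (1 / 2) ^ (p n).length * F (m, (n, z)) *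
        ((om p z - om p (n + 1)) * ∑ a ∈ Finset.range (2 ^ m), (if om p z ≤ a * (1 / 2) ^ m then
          (1 / 2) ^ m / (((a : ℝ≥0) + 1) * (1 / 2) ^ m - om p (n + 1)) ^ 2 else 0)) := by
    simp only [Finset.mul_sum]
    rw [Finset.sum_comm]
    refine Finset.sum_congr rfl (fun n _ => ?_)
    rw [Finset.sum_comm]
    refine Finset.sum_congr rfl (fun z _ => Finset.sum_congr rfl (fun a _ => ?_))
    unfold trm
    split_ifs
    · rw [div_eq_mul_inv, div_eq_mul_inv]; ring
    · simp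
  rw [h1]
  calc _ ≤ ∑ n ∈ Finset.range m, ∑ z ∈ Finset.range m, (1 / 2) ^ (p n).length * F (m, (n, z)) * 1 := by
        refine Finset.sum_le_sum (fun n _ => Finset.sum_le_sum (fun z _ => ?_))
        refine mul_le_mul' le_rfl ?_
        exact telescope _ _ _ (by positivity) _
    _ ≤ ∑ n ∈ Finset.range m, (1 / 2) ^ (p n).length * 1 := by
        refine Finset.sum_le_sum (fun n _ => ?_)
        simp only [mul_one]
        rw [← Finset.mul_sum]
        exact mul_le_of_le_one_right zero_le (hsum m n)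
    _ = om p m := by unfold om; simp
    _ ≤ 1 := (om_lt_Om hU hp m).le.trans (Om_le_one hU hp)

end

end Pool.Agent.Mut
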