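import Pool.Agent.Mut.Typical

/-!
# Typicality of the halting probability, main theorem
-/

open MeasureTheory
open scoped ENNReal NNReal
open Pool.Agent.Rand

namespace Pool.Agent.Mut

section

variable {U : List Bool → List Bool →. ℕ} {p : ℕ → List Bool}

variable (p) in
/-- the test exceeds `2 ^ k` on the cell -/
def Ex (F : ℕ × (ℕ × ℕ) → ℝ≥0) (k m a : ℕ) : Prop := (2 : ℝ≥0) ^ k < Tht p F m a

variable (p) in
/-- a cell on which the test exceeds `2 ^ k` for the first time -/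
def New (F : ℕ × (ℕ × ℕ) → ℝ≥0) (k m a : ℕ) : Prop :=
  Ex p F k m a ∧ ¬ (0 < m ∧ Ex p F k (m - 1) (a / 2))

lemma qc_Tht' {α : Type*} [Primcodable α] (hp : IsEnumeration U p) {F : ℕ × (ℕ × ℕ) → ℝ≥0}
    (hF : QC F) {m a : α → ℕ} (hm : Computable m) (ha : Computable a) :
    QC (fun r => Tht p F (m r) (a r)) :=
  (qc_Tht hp hF).comp (h := fun r => (m r, a r)) (hm.pair ha)

open Classical in
lemma comp_Ex {α : Type*} [Primcodable α] (hp : IsEnumeration U p) {F : ℕ × (ℕ × ℕ) → ℝ≥0}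
    (hF : QC F) {k m a : α → ℕ} (hk : Computable k) (hm : Computable m) (ha : Computable a) :
    Computable (fun r => decide (Ex p F (k r) (m r) (a r))) := by
  have h0 : QC (fun r => (2 : ℝ≥0) ^ k r) :=
    (QC.pow_const (c := 2) hk).of_eq (fun r => by push_cast; rfl)
  have h1 := h0.lt (qc_Tht' hp hF hm ha)
  refine h1.of_eq (fun r => ?_)
  rw [decide_eq_decide]
  exact Iff.rfl

open Classical in
lemma comp_New {α : Type*} [Primcodable α] (hp : IsEnumeration U p) {F : ℕ × (ℕ × ℕ) → ℝ≥0}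
    (hF : QC F) {k m a : α → ℕ} (hk : Computable k) (hm : Computable m) (ha : Computable a) :
    Computable (fun r => decide (New p F (k r) (m r) (a r))) := by
  have h1 := comp_Ex hp hF hk hm ha
  have h2 := comp_Ex hp hF hk (comp_sub hm (Computable.const 1))
    ((Primrec.nat_div.to_comp).comp ha (Computable.const 2))
  refine (comp_and h1 (comp_not (comp_and (comp_lt (Computable.const 0) hm) h2))).of_eq ?_
  intro r
  rw [Bool.eq_iff_iff]
  simp [New]

lemma sum_range_two_mul {M : Type*} [AddCommMonoid M] (f : ℕ → M) (n : ℕ) :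
    ∑ a ∈ Finset.range (2 * n), f a = ∑ a ∈ Finset.range n, (f (2 * a) + f (2 * a + 1)) := by
  induction n with
  | zero => simp
  | succ n ih =>
    rw [show 2 * (n + 1) = 2 * n + 1 + 1 by ring, Finset.sum_range_succ, Finset.sum_range_succ, ih,
      Finset.sum_range_succ, add_assoc]

open Classical in
lemma sum_New_eq {F : ℕ × (ℕ × ℕ) → ℝ≥0} (hF : ∀ q, Monotone (fun s => F (s, q))) (k S : ℕ) :
    ∑ m ∈ Finset.range (S + 1), ∑ a ∈ Finset.range (2 ^ m),
      (if New p F k m a then (1 / 2 : ℝ≥0) ^ m else 0) =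
    ∑ a ∈ Finset.range (2 ^ S), (if Ex p F k S a then (1 / 2 : ℝ≥0) ^ S else 0) := by
  induction S with
  | zero =>
    simp [New]
  | succ S ih =>
    rw [Finset.sum_range_succ, ih, pow_succ 2 S, mul_comm (2 ^ S) 2, sum_range_two_mul,
      sum_range_two_mul, ← Finset.sum_add_distrib]
    refine Finset.sum_congr rfl (fun a _ => ?_)
    have hhalf : (1 / 2 : ℝ≥0) ^ S = (1 / 2) ^ (S + 1) + (1 / 2) ^ (S + 1) := by
      rw [pow_succ, ← mul_add]; norm_num
    have e1 : (2 * a) / 2 = a := by omega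
    have e2 : (2 * a + 1) / 2 = a := by omega
    by_cases h : Ex p F k S a
    · have h1 : Ex p F k (S + 1) (2 * a) :=
        lt_of_lt_of_le h (by simpa using Tht_child (p := p) hF S a 0 (Or.inl rfl))
      have h2 : Ex p F k (S + 1) (2 * a + 1) :=
        lt_of_lt_of_le h (Tht_child (p := p) hF S a 1 (Or.inr rfl))
      have n1 : ¬ New p F k (S + 1) (2 * a) := by
        rintro ⟨_, h3⟩
        exact h3 ⟨by omega, by simpa [e1] using h⟩
      have n2 : ¬ New p F k (S + 1) (2 * a + 1) := by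
        rintro ⟨_, h3⟩
        exact h3 ⟨by omega, by simpa [e2] using h⟩
      rw [if_pos h, if_pos h1, if_pos h2, if_neg n1, if_neg n2, hhalf]
      simp
    · have n1 : New p F k (S + 1) (2 * a) ↔ Ex p F k (S + 1) (2 * a) := by
        constructor
        · intro h3; exact h3.1
        · intro h3
          refine ⟨h3, ?_⟩
          rintro ⟨_, h4⟩
          rw [e1] at h4
          exact h (by simpa using h4)
      have n2 : New p F k (S + 1) (2 * a + 1) ↔ Ex p F k (S + 1) (2 * a + 1) := by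
        constructor
        · intro h3; exact h3.1
        · intro h3
          refine ⟨h3, ?_⟩
          rintro ⟨_, h4⟩
          rw [e2] at h4
          exact h (by simpa using h4)
      rw [if_neg h, zero_add]
      simp only [n1, n2]

open Classical in
lemma sum_New_le (hU : IsPrefixMachine U) (hp : IsEnumeration U p) {F : ℕ × (ℕ × ℕ) → ℝ≥0}
    (hF : ∀ q, Monotone (fun s => F (s, q)))
    (hsum : ∀ s n, ∑ z ∈ Finset.range s, F (s, (n, z)) ≤ 1) (k S : ℕ) :
    ∑ m ∈ Finset.range S, ∑ a ∈ Finset.range (2 ^ m),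
      (if New p F k m a then (1 / 2 : ℝ≥0) ^ m else 0) ≤ (1 / 2) ^ k := by
  refine (Finset.sum_le_sum_of_subset (Finset.range_mono (Nat.le_succ S))).trans ?_
  rw [sum_New_eq hF]
  have h1 : 2 ^ k * ∑ a ∈ Finset.range (2 ^ S), (if Ex p F k S a then (1 / 2 : ℝ≥0) ^ S else 0) ≤ 1 := by
    rw [Finset.mul_sum]
    refine le_trans (Finset.sum_le_sum (fun a _ => ?_)) (sum_Tht_le hU hp hsum S)
    split_ifs with h
    · rw [mul_comm]
      exact mul_le_mul' le_rfl (le_of_lt h)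
    · simp
  calc _ = (1 / 2) ^ k * (2 ^ k * ∑ a ∈ Finset.range (2 ^ S),
        (if Ex p F k S a then (1 / 2 : ℝ≥0) ^ S else 0)) := by
        rw [← mul_assoc, half_mul_two_pow, one_mul]
    _ ≤ (1 / 2) ^ k * 1 := mul_le_mul' le_rfl h1
    _ = _ := mul_one _

/-- **Typicality**: for a lower semicomputable family of semimeasures `ν (n, ·)` the expected
relative progress is summable with the weights of the cells. -/
theorem typical (hU : IsOptimal U) (hp : IsEnumeration U p) {ν : ℕ × ℕ → ℝ≥0∞} (hν : LSC ν)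
    (hsum : ∀ n, ∑' z, ν (n, z) ≤ 1) :
    ∃ B : ℝ≥0, ∑' n, ∑' z, ν (n, z) *
      (((1 / 2) ^ (p n).length * ((om p z - om p (n + 1)) / gap p (n + 1) ^ 2) : ℝ≥0) : ℝ≥0∞) ≤ B := by
  classical
  obtain ⟨F, hF, hF1, hF2⟩ := hν.exists_mono
  have hFsum : ∀ s n, ∑ z ∈ Finset.range s, F (s, (n, z)) ≤ 1 := by
    intro s n
    rw [← ENNReal.coe_le_coe]
    push_cast
    refine le_trans ?_ (hsum n)
    refine le_trans (Finset.sum_le_sum (fun z _ => ?_)) (ENNReal.sum_le_tsum (Finset.range s))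
    rw [hF2]
    exact le_iSup (fun s => (F (s, (n, z)) : ℝ≥0∞)) s
  -- the least stage beyond the left endpoint
  let least : ℕ → ℕ → ℕ → Prop := fun n m a =>
    (a : ℝ≥0) * (1 / 2) ^ m ≤ om p n ∧ ¬ (0 < n ∧ (a : ℝ≥0) * (1 / 2) ^ m ≤ om p (n - 1))
  have hleast : ∀ m a n n', least n m a → least n' m a → n = n' := by
    intro m a
    have key : ∀ n n', n < n' → least n m a → least n' m a → False := by
      intro n n' hnn h1 h2
      refine h2.2 ⟨by omega, h1.1.trans (om_strictMono.monotone (by omega))⟩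
    intro n n' h1 h2
    rcases lt_trichotomy n n' with h | h | h
    · exact (key n n' h h1 h2).elim
    · exact h
    · exact (key n' n h h2 h1).elim
  let P : ℕ → ℕ → ℕ → ℕ → Prop := fun n m i a =>
    a < 2 ^ m ∧ New p F (2 * i) m a ∧ least n m a
  let μ : ℕ × ℕ → ℝ≥0∞ := fun q => ∑' i : ℕ, ∑' a : ℕ,
    if P q.1 q.2 i a then (1 / 2 : ℝ≥0∞) ^ q.2 * (2 ^ i * (1 / 2)) else 0
  have hPc : Computable (fun r : ((ℕ × ℕ) × ℕ) × ℕ => decide (P r.1.1.1 r.1.1.2 r.1.2 r.2)) := by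
    have cn : Computable (fun r : ((ℕ × ℕ) × ℕ) × ℕ => r.1.1.1) :=
      Computable.fst.comp (Computable.fst.comp Computable.fst)
    have cm : Computable (fun r : ((ℕ × ℕ) × ℕ) × ℕ => r.1.1.2) :=
      Computable.snd.comp (Computable.fst.comp Computable.fst)
    have ci : Computable (fun r : ((ℕ × ℕ) × ℕ) × ℕ => r.1.2) :=
      Computable.snd.comp Computable.fst
    have ca : Computable (fun r : ((ℕ × ℕ) × ℕ) × ℕ => r.2) := Computable.snd
    have c1 : Computable (fun r : ((ℕ × ℕ) × ℕ) × ℕ => decide (r.2 < 2 ^ r.1.1.2)) :=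
      comp_lt ca (comp_pow (Computable.const 2) cm)
    have cN : Computable (fun r : ((ℕ × ℕ) × ℕ) × ℕ => decide (New p F (2 * r.1.2) r.1.1.2 r.2)) :=
      comp_New hp hF (comp_mul (Computable.const 2) ci) cm ca
    have hl : QC (fun r : ((ℕ × ℕ) × ℕ) × ℕ => (r.2 : ℝ≥0) * (1 / 2) ^ r.1.1.2) :=
      (QC.nat ca).mul (QC.half_pow cm)
    have ho1 : QC (fun r : ((ℕ × ℕ) × ℕ) × ℕ => om p r.1.1.1) := (qc_om hp).comp cn
    have ho2 : QC (fun r : ((ℕ × ℕ) × ℕ) × ℕ => om p (r.1.1.1 - 1)) :=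
      (qc_om hp).comp (comp_sub cn (Computable.const 1))
    have cL : Computable (fun r : ((ℕ × ℕ) × ℕ) × ℕ => decide (least r.1.1.1 r.1.1.2 r.2)) := by
      refine (comp_and (hl.le ho1) (comp_not (comp_and
        (comp_lt (Computable.const 0) cn) (hl.le ho2)))).of_eq ?_
      intro r
      simp only [least, Bool.decide_and, decide_not]
    refine (comp_and c1 (comp_and cN cL)).of_eq ?_
    intro r
    simp only [P, Bool.decide_and]
  have hμ : LSC μ := by
    refine LSC.tsum (f := fun r : (ℕ × ℕ) × ℕ => ∑' a : ℕ,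
      if P r.1.1 r.1.2 r.2 a then (1 / 2 : ℝ≥0∞) ^ r.1.2 * (2 ^ r.2 * (1 / 2)) else 0) ?_
    refine LSC.tsum (f := fun r : ((ℕ × ℕ) × ℕ) × ℕ =>
      if P r.1.1.1 r.1.1.2 r.1.2 r.2 then (1 / 2 : ℝ≥0∞) ^ r.1.1.2 * (2 ^ r.1.2 * (1 / 2)) else 0) ?_
    refine LSC.ite (p := fun r : ((ℕ × ℕ) × ℕ) × ℕ => P r.1.1.1 r.1.1.2 r.1.2 r.2) hPc ?_
    have cm : Computable (fun r : ((ℕ × ℕ) × ℕ) × ℕ => r.1.1.2) :=
      Computable.snd.comp (Computable.fst.comp Computable.fst)
    have ci : Computable (fun r : ((ℕ × ℕ) × ℕ) × ℕ => r.1.2) :=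
      Computable.snd.comp Computable.fst
    refine (LSC.half_pow cm).mul (LSC.mul ?_ ?_)
    · refine (QC.pow_const (c := 2) ci).lsc.of_eq (fun r => ?_)
      push_cast; rfl
    · refine (LSC.half_pow (α := ((ℕ × ℕ) × ℕ) × ℕ) (Computable.const 1)).of_eq (fun r => ?_)
      rw [pow_one]
  have hμsum : ∑' q, μ q ≤ 1 := by
    rw [ENNReal.tsum_prod', ENNReal.tsum_comm]
    -- now sum over m, then n
    have h1 : ∀ m i : ℕ, ∑' n : ℕ, ∑' a : ℕ, (if P n m i a then
        (1 / 2 : ℝ≥0∞) ^ m * (2 ^ i * (1 / 2)) else 0) ≤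
        (2 ^ i * (1 / 2)) * ∑ a ∈ Finset.range (2 ^ m),
          (if New p F (2 * i) m a then (1 / 2 : ℝ≥0∞) ^ m else 0) := by
      intro m i
      rw [ENNReal.tsum_comm]
      have h2 : ∀ a, ∑' n : ℕ, (if P n m i a then (1 / 2 : ℝ≥0∞) ^ m * (2 ^ i * (1 / 2)) else 0) ≤
          if (a < 2 ^ m ∧ New p F (2 * i) m a) then (1 / 2 : ℝ≥0∞) ^ m * (2 ^ i * (1 / 2)) else 0 := by
        intro a
        refine tsum_unique_le ?_ ?_
        · intro s t hs ht; exact hleast m a s t hs.2.2 ht.2.2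
        · intro s hs; exact ⟨hs.1, hs.2.1⟩
      refine (ENNReal.tsum_le_tsum h2).trans ?_
      rw [tsum_eq_sum (s := Finset.range (2 ^ m))]
      · rw [Finset.mul_sum]
        refine Finset.sum_le_sum (fun a ha => ?_)
        split_ifs with h3 h4 h4
        · rw [mul_comm]
        · exact absurd h3.2 h4
        · exact zero_le
        · exact zero_le
      · intro a ha
        rw [if_neg]
        rintro ⟨h3, _⟩
        exact ha (Finset.mem_range.2 h3)
    have h3 : ∀ i : ℕ, ∑' m : ℕ, ∑' n : ℕ, ∑' a : ℕ, (if P n m i a then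
        (1 / 2 : ℝ≥0∞) ^ m * (2 ^ i * (1 / 2)) else 0) ≤ (1 / 2) ^ (i + 1) := by
      intro i
      refine (ENNReal.tsum_le_tsum (fun m => h1 m i)).trans ?_
      rw [ENNReal.tsum_mul_left]
      have h4 : ∑' m : ℕ, ∑ a ∈ Finset.range (2 ^ m),
          (if New p F (2 * i) m a then (1 / 2 : ℝ≥0∞) ^ m else 0) ≤ (1 / 2) ^ (2 * i) := by
        refine ENNReal.tsum_le_of_sum_range_le (fun S => ?_)
        have h5 := sum_New_le hU.1 hp hF1 hFsum (2 * i) S
        rw [← ENNReal.coe_le_coe] at h5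
        rw [ENNReal.coe_pow, coe_half] at h5
        refine le_trans (le_of_eq ?_) h5
        push_cast
        refine Finset.sum_congr rfl (fun m _ => Finset.sum_congr rfl (fun a _ => ?_))
        split_ifs
        · rw [ENNReal.coe_pow, coe_half]
        · rfl
      refine (mul_le_mul_right h4 _).trans (le_of_eq ?_)
      rw [show 2 * i = i + i by ring, pow_add, pow_succ]
      calc (2 : ℝ≥0∞) ^ i * (1 / 2) * ((1 / 2) ^ i * (1 / 2) ^ i)
          = ((2 : ℝ≥0∞) ^ i * (1 / 2) ^ i) * ((1 / 2) ^ i * (1 / 2)) := by ring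
        _ = _ := by
          rw [← mul_pow, one_div, ENNReal.mul_inv_cancel (by norm_num) (by norm_num), one_pow,
            one_mul]
    calc ∑' m : ℕ, ∑' n : ℕ, ∑' i : ℕ, ∑' a : ℕ, (if P n m i a then
          (1 / 2 : ℝ≥0∞) ^ m * (2 ^ i * (1 / 2)) else 0)
        = ∑' i : ℕ, ∑' m : ℕ, ∑' n : ℕ, ∑' a : ℕ, (if P n m i a then
          (1 / 2 : ℝ≥0∞) ^ m * (2 ^ i * (1 / 2)) else 0) := by
          rw [ENNReal.tsum_comm (f := fun i m => ∑' n : ℕ, ∑' a : ℕ, (if P n m i a then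
            (1 / 2 : ℝ≥0∞) ^ m * (2 ^ i * (1 / 2)) else 0))]
          refine tsum_congr (fun m => ?_)
          rw [ENNReal.tsum_comm]
      _ ≤ ∑' i : ℕ, (1 / 2) ^ (i + 1) := ENNReal.tsum_le_tsum h3
      _ = 1 := by simpa using tsum_half_pow_add 0
  obtain ⟨c, hc⟩ := incompress hU hp hμ hμsum
  -- no cell containing the halting probability is ever enumerated
  have hOm : ∀ m a : ℕ, (a : ℝ≥0) * (1 / 2) ^ m < Om p → Om p ≤ ((a : ℝ≥0) + 1) * (1 / 2) ^ m →
      ¬ New p F (2 * (c + 2)) m a := by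
    intro m a h1 h2 hN
    have hex : ∃ n, (a : ℝ≥0) * (1 / 2) ^ m ≤ om p n := by
      have := (tendsto_om hU.1 hp).eventually (lt_mem_nhds h1)
      obtain ⟨n, hn⟩ := this.exists
      exact ⟨n, hn.le⟩
    obtain ⟨n, hn⟩ : ∃ n, least n m a := by
      refine ⟨Nat.find hex, Nat.find_spec hex, ?_⟩
      rintro ⟨h3, h4⟩
      exact Nat.find_min hex (by omega) h4
    have ha : a < 2 ^ m := by
      have h3 : (a : ℝ≥0) * (1 / 2) ^ m < 1 := lt_of_lt_of_le h1 (Om_le_one hU.1 hp)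
      have h4 : (a : ℝ≥0) < 2 ^ m := by
        calc (a : ℝ≥0) = (a : ℝ≥0) * ((1 / 2) ^ m * 2 ^ m) := by rw [half_mul_two_pow, mul_one]
          _ = (a : ℝ≥0) * (1 / 2) ^ m * 2 ^ m := by ring
          _ < 1 * 2 ^ m := by gcongr
          _ = _ := one_mul _
      exact_mod_cast h4
    have hgap : gap p n * 2 ^ m < 4 := by
      have h3 : gap p n ≤ (1 / 2) ^ m := by
        unfold gap
        rw [tsub_le_iff_right]
        calc Om p ≤ ((a : ℝ≥0) + 1) * (1 / 2) ^ m := h2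
          _ = (1 / 2) ^ m + (a : ℝ≥0) * (1 / 2) ^ m := by ring
          _ ≤ _ := by gcongr; exact hn.1
      calc gap p n * 2 ^ m ≤ (1 / 2) ^ m * 2 ^ m := by gcongr
        _ = 1 := half_mul_two_pow m
        _ < 4 := by norm_num
    have h3 : (1 / 2 : ℝ≥0∞) ^ m * (2 ^ (c + 2) * (1 / 2)) ≤ 2 ^ c * (1 / 2) ^ m := by
      refine le_trans ?_ (hc m)
      refine le_trans ?_ (ENNReal.le_tsum n)
      rw [if_pos hgap]
      simp only [μ]
      refine le_trans ?_ (ENNReal.le_tsum (c + 2))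
      refine le_trans ?_ (ENNReal.le_tsum a)
      rw [if_pos (show P n m (c + 2) a from ⟨ha, hN, hn⟩)]
    have h4 : (2 : ℝ≥0∞) ^ (c + 2) * (1 / 2) ≤ 2 ^ c := by
      have h5 : (1 / 2 : ℝ≥0∞) ^ m ≠ 0 := pow_ne_zero _ (by simp)
      have h6 : (1 / 2 : ℝ≥0∞) ^ m ≠ ∞ := ENNReal.pow_ne_top (by simp)
      rw [mul_comm (2 ^ c)] at h3
      exact (ENNReal.mul_le_mul_iff_right h5 h6).1 h3
    have h7 : (2 : ℝ≥0∞) ^ (c + 2) * (1 / 2) = 2 ^ c * 2 := by
      rw [pow_add, mul_assoc]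
      congr 1
      rw [pow_two, mul_assoc, one_div, ENNReal.mul_inv_cancel (by norm_num) (by norm_num), mul_one]
    rw [h7] at h4
    have h8 : (2 : ℝ≥0∞) ^ c * 2 ≤ 2 ^ c * 1 := by rwa [mul_one]
    have h9 := (ENNReal.mul_le_mul_iff_right (by positivity) (ENNReal.pow_ne_top (by simp))).1 h8
    norm_num at h9
  have hEx : ∀ m a : ℕ, (a : ℝ≥0) * (1 / 2) ^ m < Om p → Om p ≤ ((a : ℝ≥0) + 1) * (1 / 2) ^ m →
      ¬ Ex p F (2 * (c + 2)) m a := by
    intro m
    induction m with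
    | zero =>
      intro a h1 h2 h3
      exact hOm 0 a h1 h2 ⟨h3, fun h => absurd h.1 (lt_irrefl _)⟩
    | succ m ih =>
      intro a h1 h2 h3
      have hhalf : (1 / 2 : ℝ≥0) ^ m = 2 * (1 / 2) ^ (m + 1) := by
        rw [pow_succ, mul_comm 2, mul_assoc]; simp
      refine hOm (m + 1) a h1 h2 ⟨h3, ?_⟩
      rintro ⟨_, h4⟩
      refine ih (a / 2) ?_ ?_ h4
      · refine lt_of_le_of_lt ?_ h1
        rw [hhalf]
        have h5 : 2 * (a / 2) ≤ a := Nat.mul_div_le a 2
        have h6 : (2 : ℝ≥0) * ((a / 2 : ℕ) : ℝ≥0) ≤ a := by exact_mod_cast h5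
        calc ((a / 2 : ℕ) : ℝ≥0) * (2 * (1 / 2) ^ (m + 1)) =
            (2 * ((a / 2 : ℕ) : ℝ≥0)) * (1 / 2) ^ (m + 1) := by ring
          _ ≤ _ := by gcongr
      · refine h2.trans ?_
        rw [hhalf]
        have h5 : a + 1 ≤ 2 * (a / 2 + 1) := by omega
        have h6 : (a : ℝ≥0) + 1 ≤ 2 * (((a / 2 : ℕ) : ℝ≥0) + 1) := by exact_mod_cast h5
        calc ((a : ℝ≥0) + 1) * (1 / 2) ^ (m + 1) ≤ (2 * (((a / 2 : ℕ) : ℝ≥0) + 1)) * (1 / 2) ^ (m + 1) := by
              gcongr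
          _ = _ := by ring
  -- finite partial sums
  set B : ℝ≥0 := 2 ^ (2 * (c + 2)) with hB
  have hfin : ∀ S : ℕ, ∑ n ∈ Finset.range S, ∑ z ∈ Finset.range S,
      F (S, (n, z)) * ((1 / 2) ^ (p n).length * ((om p z - om p (n + 1)) / gap p (n + 1) ^ 2))
      ≤ 4 * B := by
    intro S
    obtain ⟨m, hm1, hm2⟩ : ∃ m, S ≤ m ∧ (1 / 2 : ℝ≥0) ^ m ≤ gap p (S + 1) := by
      have h1 : Filter.Tendsto (fun m : ℕ => (1 / 2 : ℝ≥0) ^ m) Filter.atTop (nhds 0) :=
        tendsto_pow_atTop_nhds_zero_of_lt_one (by norm_num)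
          (by rw [div_lt_one (by norm_num)]; norm_num)
      have h2 := h1.eventually (gt_mem_nhds (gap_pos hU.1 hp (S + 1)))
      obtain ⟨m, hm1, hm2⟩ := (h2.and (Filter.eventually_ge_atTop S)).exists
      exact ⟨m, hm2, le_of_lt hm1⟩
    have hOmpos : 0 < Om p := lt_of_le_of_lt zero_le (om_lt_Om hU.1 hp 0)
    -- the cell of the halting probability
    obtain ⟨a, ha1, ha2⟩ : ∃ a : ℕ, (a : ℝ≥0) * (1 / 2) ^ m < Om p ∧
        Om p ≤ ((a : ℝ≥0) + 1) * (1 / 2) ^ m := by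
      have h0 : 0 < ⌈Om p * 2 ^ m⌉₊ := Nat.ceil_pos.2 (by positivity)
      refine ⟨⌈Om p * 2 ^ m⌉₊ - 1, ?_, ?_⟩
      · have h1 : ((⌈Om p * 2 ^ m⌉₊ - 1 : ℕ) : ℝ≥0) < Om p * 2 ^ m := by
          have h2 := Nat.ceil_lt_add_one (show 0 ≤ Om p * 2 ^ m from zero_le)
          have h3 : ((⌈Om p * 2 ^ m⌉₊ - 1 : ℕ) : ℝ≥0) + 1 = (⌈Om p * 2 ^ m⌉₊ : ℝ≥0) := by
            have : ⌈Om p * 2 ^ m⌉₊ - 1 + 1 = ⌈Om p * 2 ^ m⌉₊ := by omega
            exact_mod_cast this
          rw [← h3] at h2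
          exact lt_of_add_lt_add_right h2
        calc ((⌈Om p * 2 ^ m⌉₊ - 1 : ℕ) : ℝ≥0) * (1 / 2) ^ m < Om p * 2 ^ m * (1 / 2) ^ m := by
              gcongr
          _ = Om p * ((1 / 2) ^ m * 2 ^ m) := by ring
          _ = _ := by rw [half_mul_two_pow, mul_one]
      · have h3 : ((⌈Om p * 2 ^ m⌉₊ - 1 : ℕ) : ℝ≥0) + 1 = (⌈Om p * 2 ^ m⌉₊ : ℝ≥0) := by
          have : ⌈Om p * 2 ^ m⌉₊ - 1 + 1 = ⌈Om p * 2 ^ m⌉₊ := by omega
          exact_mod_cast this
        rw [h3]
        calc Om p = Om p * ((1 / 2) ^ m * 2 ^ m) := by rw [half_mul_two_pow, mul_one]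
          _ = (Om p * 2 ^ m) * (1 / 2) ^ m := by ring
          _ ≤ _ := by gcongr; exact Nat.le_ceil _
    have hE := hEx m a ha1 ha2
    have hTB : Tht p F m a ≤ B := not_lt.1 hE
    have hl : ∀ z ≤ S + 1, om p z ≤ (a : ℝ≥0) * (1 / 2) ^ m := by
      intro z hz
      have h1 : om p (S + 1) + gap p (S + 1) = Om p := om_add_gap hU.1 hp _
      have h2 : om p (S + 1) + (1 / 2) ^ m ≤ (a : ℝ≥0) * (1 / 2) ^ m + (1 / 2) ^ m := by
        calc om p (S + 1) + (1 / 2) ^ m ≤ om p (S + 1) + gap p (S + 1) := by gcongr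
          _ = Om p := h1
          _ ≤ ((a : ℝ≥0) + 1) * (1 / 2) ^ m := ha2
          _ = _ := by ring
      exact (om_strictMono.monotone hz).trans (le_of_add_le_add_right h2)
    have hr : ∀ n ≤ S + 1, ((a : ℝ≥0) + 1) * (1 / 2) ^ m - om p n ≤ 2 * gap p n := by
      intro n hn
      rw [tsub_le_iff_right]
      have h1 : om p n + gap p n = Om p := om_add_gap hU.1 hp _
      calc ((a : ℝ≥0) + 1) * (1 / 2) ^ m = (a : ℝ≥0) * (1 / 2) ^ m + (1 / 2) ^ m := by ring
        _ ≤ Om p + gap p (S + 1) := by gcongr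
        _ ≤ Om p + gap p n := by gcongr; exact gap_anti hn
        _ = _ := by rw [← h1]; ring
    calc ∑ n ∈ Finset.range S, ∑ z ∈ Finset.range S,
        F (S, (n, z)) * ((1 / 2) ^ (p n).length * ((om p z - om p (n + 1)) / gap p (n + 1) ^ 2))
        ≤ ∑ n ∈ Finset.range m, ∑ z ∈ Finset.range S, F (S, (n, z)) *
          ((1 / 2) ^ (p n).length * ((om p z - om p (n + 1)) / gap p (n + 1) ^ 2)) *
            (if n < S then 1 else 0) := by
          rw [← Finset.sum_subset (Finset.range_mono hm1)]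
          · refine Finset.sum_le_sum (fun n hn => Finset.sum_le_sum (fun z _ => ?_))
            rw [if_pos (Finset.mem_range.1 hn), mul_one]
          · intro n _ hn
            refine Finset.sum_eq_zero (fun z _ => ?_)
            rw [if_neg (by simpa using hn), mul_zero]
      _ ≤ ∑ n ∈ Finset.range m, ∑ z ∈ Finset.range S, 4 * trm p F m a n z := by
          refine Finset.sum_le_sum (fun n _ => Finset.sum_le_sum (fun z hz => ?_))
          split_ifs with hnS
          · rw [mul_one]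
            unfold trm
            have hz' := Finset.mem_range.1 hz
            rw [if_pos (hl z (by omega))]
            have h1 : (om p z - om p (n + 1)) / gap p (n + 1) ^ 2 ≤
                4 * ((om p z - om p (n + 1)) / (((a : ℝ≥0) + 1) * (1 / 2) ^ m - om p (n + 1)) ^ 2) := by
              rcases le_or_gt (om p z) (om p (n + 1)) with h2 | h2
              · rw [tsub_eq_zero_of_le h2, zero_div]; exact zero_le
              · have h3 : 0 < ((a : ℝ≥0) + 1) * (1 / 2) ^ m - om p (n + 1) := by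
                  apply tsub_pos_of_lt
                  calc om p (n + 1) < om p z := h2
                    _ ≤ _ := hl z (by omega)
                    _ ≤ _ := by gcongr; exact le_self_add
                have h4 := hr (n + 1) (by omega)
                have h5 := gap_pos hU.1 hp (n + 1)
                rw [← mul_div_assoc, div_le_div_iff₀ (by positivity) (by positivity)]
                calc (om p z - om p (n + 1)) * (((a : ℝ≥0) + 1) * (1 / 2) ^ m - om p (n + 1)) ^ 2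
                    ≤ (om p z - om p (n + 1)) * (2 * gap p (n + 1)) ^ 2 := by gcongr
                  _ = _ := by ring
            calc F (S, (n, z)) * ((1 / 2) ^ (p n).length *
                  ((om p z - om p (n + 1)) / gap p (n + 1) ^ 2))
                ≤ F (m, (n, z)) * ((1 / 2) ^ (p n).length * (4 * ((om p z - om p (n + 1)) /
                  (((a : ℝ≥0) + 1) * (1 / 2) ^ m - om p (n + 1)) ^ 2))) :=
                  mul_le_mul' (hF1 _ hm1) (mul_le_mul' le_rfl h1)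
              _ = _ := by ring
          · rw [mul_zero]; exact zero_le
      _ ≤ ∑ n ∈ Finset.range m, ∑ z ∈ Finset.range m, 4 * trm p F m a n z :=
          Finset.sum_le_sum (fun n _ => Finset.sum_le_sum_of_subset (Finset.range_mono hm1))
      _ = 4 * Tht p F m a := by
          unfold Tht
          rw [Finset.mul_sum]
          refine Finset.sum_congr rfl (fun n _ => ?_)
          rw [Finset.mul_sum]
      _ ≤ 4 * B := by gcongr
  refine ⟨4 * B, ?_⟩
  let w : ℕ → ℕ → ℝ≥0 := fun n z =>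
    (1 / 2) ^ (p n).length * ((om p z - om p (n + 1)) / gap p (n + 1) ^ 2)
  have hmono : ∀ n z, Monotone (fun s => ((F (s, (n, z)) * w n z : ℝ≥0) : ℝ≥0∞)) := by
    intro n z s t hst
    exact ENNReal.coe_le_coe.2 (mul_le_mul' (hF1 _ hst) le_rfl)
  have e1 : ∀ n, ∑' z, ν (n, z) * ((w n z : ℝ≥0) : ℝ≥0∞) =
      ⨆ s, ∑ z ∈ Finset.range s, ((F (s, (n, z)) * w n z : ℝ≥0) : ℝ≥0∞) := by
    intro n
    rw [← tsum_eq_iSup_diag (u := fun s z => ((F (s, (n, z)) * w n z : ℝ≥0) : ℝ≥0∞)) (hmono n)]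
    refine tsum_congr (fun z => ?_)
    rw [hF2, ENNReal.iSup_mul]
    refine iSup_congr (fun s => ?_)
    exact (ENNReal.coe_mul _ _).symm
  calc ∑' n, ∑' z, ν (n, z) * ((w n z : ℝ≥0) : ℝ≥0∞)
      = ∑' n, ⨆ s, ∑ z ∈ Finset.range s, ((F (s, (n, z)) * w n z : ℝ≥0) : ℝ≥0∞) :=
        tsum_congr e1
    _ = ⨆ s, ∑ n ∈ Finset.range s, ∑ z ∈ Finset.range s, ((F (s, (n, z)) * w n z : ℝ≥0) : ℝ≥0∞) := by
        rw [tsum_eq_iSup_diag (u := fun s n => ∑ z ∈ Finset.range s,
          ((F (s, (n, z)) * w n z : ℝ≥0) : ℝ≥0∞))]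
        intro n s t hst
        refine (Finset.sum_le_sum (fun z _ => hmono n z hst)).trans ?_
        exact Finset.sum_le_sum_of_subset (Finset.range_mono hst)
    _ ≤ ((4 * B : ℝ≥0) : ℝ≥0∞) := by
        refine iSup_le (fun S => ?_)
        have := hfin S
        rw [← ENNReal.coe_le_coe] at this
        refine le_trans (le_of_eq ?_) this
        simp only [ENNReal.ofNNReal_finsetSum]
        rfl

end

end Pool.Agent.Mut
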